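import Pool.Agent.Helper51.TF.H8

/-!
Project TF/TG (MP_22c541_al, Theorem F). Common definitions (helper70).

Partitions with at most `N` rows are functions `κ : Fin N → ℕ` (row lengths, `PP N m`: antitone with sum `m`), as in `Helper51/TF`.

* `ff m κ` the dimension of `HW m κ`;
* `plm N m P` the Plancherel measure of `{κ ∈ PP N m : P κ}`;
* `cj κ` the conjugate partition (for `κ` with at most `N` columns);
* `bset K κ` the set of the `K` beads `κ i + (K - 1 - i)`, `i < K`;
* `rowsB M X` the partition with `M` rows whose bead set is `X`;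
* `cset K X` the bead set of the conjugate partition (`K` = rows + columns);
* `lam N a α` the partition `λ(α, α')` of `4 m + 2 s^2 - s`, `s = a - N`: its bead set is `{2 x : x ∈ X} ∪ {2 y + 1 : y ∈ X'}` where `X` is the
  set of the first `a` beads of `α` and `X'` the corresponding set of `2N - a` beads of the conjugate partition;
* `cprod h κ = ∏_{boxes} h(content)`;
* `GC κ z = (1/z) ∏_{boxes} (z - c)^2 / ((z - c)^2 - 1)`.
-/

set_option autoImplicit false

open Module Equiv Pool.Agent.Helper1.TS Pool.Agent.Helper70.TU Pool.Agent.Helper51.TN Pool.Agent.Helper51.TF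

namespace Pool.Agent.Helper70.TG

/-- The dimension of `HW m κ`. -/
noncomputable def ff {N : ℕ} (m : ℕ) (κ : Fin N → ℕ) : ℝ := (finrank ℂ (HW m κ) : ℝ)

open Classical in
/-- The Plancherel measure of the set of the partitions `κ ∈ PP N m` with `P κ` (`m ≤ N`). -/
noncomputable def plm (N m : ℕ) (P : (Fin N → ℕ) → Prop) : ℝ :=
  (∑ κ ∈ (PP N m).filter P, (ff m κ) ^ 2) / m.factorial

/-- The conjugate partition (if `κ 0 ≤ N`). -/
def cj {N : ℕ} (κ : Fin N → ℕ) : Fin N → ℕ :=
  fun j => (Finset.univ.filter (fun i : Fin N => (j : ℕ) < κ i)).card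

/-- The set of the beads `κ i + (K - 1 - i)`, `i < K`. -/
def bset {N : ℕ} (K : ℕ) (κ : Fin N → ℕ) : Finset ℕ :=
  (Finset.univ.filter (fun i : Fin N => (i : ℕ) < K)).image (fun i => κ i + (K - 1 - i))

/-- The partition with `M` rows and the bead set `X`: the `i`-th largest element of `X` minus `M - 1 - i`. -/
def rowsB (M : ℕ) (X : Finset ℕ) : Fin M → ℕ := fun i =>
  if h : X.card = M then X.orderEmbOfFin h (Fin.rev i) - (M - 1 - i) else 0

/-- The bead set of the conjugate partition. -/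
def cset (K : ℕ) (X : Finset ℕ) : Finset ℕ :=
  ((Finset.range K).filter (fun y => y ∉ X)).image (fun y => K - 1 - y)

/-- The bead set of the self-conjugate partition with the `2`-quotient `(X, X')`. -/
def lset (K : ℕ) (X : Finset ℕ) : Finset ℕ :=
  X.image (fun x => 2 * x) ∪ (cset K X).image (fun y => 2 * y + 1)

/-- The self-conjugate partition with the `2`-quotient `(α, α')` and the `2`-core of index `a - N`. -/
def lam (N a : ℕ) (α : Fin (2 * N) → ℕ) : Fin (2 * N) → ℕ :=
  rowsB (2 * N) (lset (2 * N) (bset a α))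

/-- `∏ h(c)` over the boxes of `κ`, `c` the content. -/
noncomputable def cprod {N : ℕ} {A : Type*} [CommMonoid A] (h : ℤ → A) (κ : Fin N → ℕ) : A :=
  ∏ i : Fin N, ∏ b ∈ Finset.range (κ i), h ((b : ℤ) - ((i : ℕ) : ℤ))

/-- `(1/z) ∏_c (z - c)² / ((z - c)² - 1)` over the boxes of `κ`, `c` the content. -/
noncomputable def GC {N : ℕ} (κ : Fin N → ℕ) (z : ℂ) : ℂ :=
  z⁻¹ * cprod (fun c => (z - (c : ℂ)) ^ 2 / ((z - (c : ℂ)) ^ 2 - 1)) κ

/-- `P_k(z) = ∏_{j<k} 1/G(z - j)`. -/
noncomputable def PC {N : ℕ} (k : ℕ) (κ : Fin N → ℕ) (z : ℂ) : ℂ :=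
  ∏ j ∈ Finset.range k, (GC κ (z - (j : ℂ)))⁻¹

/-- All rows and columns have length at most `L`. -/
def Sml {N : ℕ} (κ : Fin N → ℕ) (L : ℝ) : Prop :=
  ∀ i : Fin N, (κ i : ℝ) ≤ L ∧ (0 < κ i → ((i : ℕ) : ℝ) + 1 ≤ L)

/-- The number of points of the core: `2 s² - s`, `s = a - N`. -/
def tt (N a : ℕ) : ℕ := if a + 1 = N then 3 else if a = N then 0 else if a = N + 1 then 1 else 6

/-- The admissible cases: the number `a` of rows of `α` used is `N - 1`, `N`, `N + 1` or `N + 2`. -/
def Adm (N a : ℕ) : Prop := a + 1 = N ∨ a = N ∨ a = N + 1 ∨ a = N + 2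

/-- The beads of `κ`. -/
def bd {N : ℕ} (κ : Fin N → ℕ) (i : Fin N) : ℕ := κ i + (N - 1 - i)

/-- Frobenius' sum for a cycle of length `k`. -/
noncomputable def Fro {N : ℕ} (k : ℕ) (κ : Fin N → ℕ) : ℝ :=
  ∑ i : Fin N, ((bd κ i).descFactorial k : ℝ) *
    ∏ j ∈ Finset.univ.erase i, ((bd κ i : ℝ) - k - bd κ j) / ((bd κ i : ℝ) - bd κ j)

end Pool.Agent.Helper70.TG
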