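import Pool.Agent.Helper70.TG.W3
import Pool.Agent.Helper70.TG.Defs

/-!
BLOCK TG-W9 (about 200 lines). The estimate for `P_k`.

`SC ρ δ T κ`: `T w G_κ(T (w + w⁻¹))` is within `δ` of `1` for all `w` with `‖w‖ ≥ ρ`, `w.im ≠ 0`.

Proof in words. `T > 0` (it is `√n`), `SC ρ δ T λ`, `‖w‖ = ρ₂ > ρ`, `w.im ≠ 0`. Let `j < k`, `ζ = w + w⁻¹ - j/T`. By `jk_near` (with its `δ := k/T`; hypothesis `hk`) there is `w_j` with `‖w_j‖ ≥ ρ`, `w_j + w_j⁻¹ = ζ`, `‖w_j - w‖ ≤ (j/T)/(1 - ρ⁻¹)`; `w_j.im ≠ 0` because otherwise `ζ` and `w + w⁻¹` are real (`jk_im`). `T (w + w⁻¹) - j = T (w_j + w_j⁻¹)`, so by `SC`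
`GC λ (z - j) = (1 + ε_j)/(T w_j)`, `‖ε_j‖ ≤ δ ≤ 1/2`, `(GC λ (z - j))⁻¹ = T w (w_j/w)(1 + ε_j)⁻¹`; `‖w_j/w - 1‖ ≤ (k/T)/(1 - ρ⁻¹)`, `‖(1 + ε_j)⁻¹ - 1‖ ≤ 2 δ`. So `‖f_j - 1‖ ≤ 2 δ + 2 (k/T)/(1 - ρ⁻¹)` for `f_j = (w_j/w)(1+ε_j)⁻¹` (`‖x y - 1‖ ≤ ‖x - 1‖ ‖y‖ + ‖y - 1‖`, `‖y‖ ≤ 2`), and `prod_near`.
-/

set_option autoImplicit false

open Module Equiv Pool.Agent.Helper51.TF

namespace Pool.Agent.Helper70.TG

/-- The semicircle estimate with scale `T` (`T = √n` for a partition of `n`). -/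
def SC {N : ℕ} (ρ δ T : ℝ) (α : Fin N → ℕ) : Prop :=
  ∀ w : ℂ, ρ ≤ ‖w‖ → w.im ≠ 0 → ‖T * w * GC α (T * (w + w⁻¹)) - 1‖ ≤ δ

private theorem prod_near81 (k : ℕ) (f : ℕ → ℂ) (ε : ℝ) (hf : ∀ j < k, ‖f j - 1‖ ≤ ε) (hs : k * ε ≤ 1) (h0 : 0 ≤ ε) :
    ‖∏ j ∈ Finset.range k, f j - 1‖ ≤ 2 * (k * ε) := by
  have h1 := Finset.norm_prod_one_add_sub_one_le (Finset.range k) (fun j => f j - 1)
  have e1 : ∏ j ∈ Finset.range k, (1 + (f j - 1)) = ∏ j ∈ Finset.range k, f j :=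
    Finset.prod_congr rfl fun j _ => by ring
  rw [e1] at h1
  have h2 : ∑ j ∈ Finset.range k, ‖f j - 1‖ ≤ k * ε := by
    have h3 := Finset.sum_le_sum (s := Finset.range k) fun j hj => hf j (Finset.mem_range.1 hj)
    rwa [Finset.sum_const, Finset.card_range, nsmul_eq_mul] at h3
  have h3 : Real.exp (∑ j ∈ Finset.range k, ‖f j - 1‖) ≤ Real.exp (k * ε) := Real.exp_le_exp.2 h2
  have hk0 : 0 ≤ (k : ℝ) * ε := by positivity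
  have h4 := Real.abs_exp_sub_one_le (x := (k : ℝ) * ε) (by rw [abs_of_nonneg hk0]; exact hs)
  rw [abs_of_nonneg hk0] at h4
  have h5 := le_abs_self (Real.exp ((k : ℝ) * ε) - 1)
  linarith

private theorem factor81 {M : ℕ} (κ : Fin M → ℕ) (ρ ρ₂ δ T : ℝ) (k : ℕ) (hρ : 1 < ρ) (hρ₂ : ρ < ρ₂) (hT : 0 < T)
    (hδ1 : δ ≤ 1 / 2) (hk : ρ + ρ⁻¹ + k / T ≤ ρ₂ + ρ₂⁻¹) (hsc : SC ρ δ T κ)
    (w : ℂ) (hw : ‖w‖ = ρ₂) (hi : w.im ≠ 0) (j : ℕ) (hj : j < k) :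
    ∃ f : ℂ, (GC κ (T * (w + w⁻¹) - (j : ℂ)))⁻¹ = T * w * f ∧ ‖f - 1‖ ≤ 2 * δ + 2 * (k / T) / (1 - ρ⁻¹) := by
  have hw0 : w ≠ 0 := by
    rintro rfl
    rw [norm_zero] at hw
    linarith
  have hTc : (T : ℂ) ≠ 0 := Complex.ofReal_ne_zero.2 hT.ne'
  have hjk : (j : ℝ) / T ≤ k / T := div_le_div_of_nonneg_right (by exact_mod_cast hj.le) hT.le
  have hρi : 0 < 1 - ρ⁻¹ := by
    have := inv_lt_one_of_one_lt₀ hρ
    linarith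
  have e1 : ‖(w + w⁻¹ - ((j / T : ℝ) : ℂ)) - (w + w⁻¹)‖ = j / T := by
    rw [sub_sub_cancel_left, norm_neg, Complex.norm_real, Real.norm_of_nonneg (by positivity)]
  obtain ⟨w', h1, h2, h3⟩ := jk_near ρ ρ₂ (k / T) hρ hρ₂ hk w (w + w⁻¹ - ((j / T : ℝ) : ℂ)) hw (by rw [e1]; exact hjk)
  rw [e1] at h3
  have hw'0 : w' ≠ 0 := by
    rintro rfl
    rw [norm_zero] at h1
    linarith
  have hi' : w'.im ≠ 0 := by
    intro h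
    refine jk_im w (by rw [hw]; linarith) hi ?_
    have h4 := congrArg Complex.im h2
    rw [Complex.sub_im, Complex.ofReal_im, sub_zero] at h4
    rw [← h4, Complex.add_im, Complex.inv_im, h]
    simp
  have h4 := hsc w' h1 hi'
  have e2 : (T : ℂ) * (w' + w'⁻¹) = T * (w + w⁻¹) - (j : ℂ) := by
    rw [h2]
    push_cast
    field_simp
  rw [e2] at h4
  set g := GC κ (T * (w + w⁻¹) - (j : ℂ)) with hg
  set a : ℂ := T * w' * g with ha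
  have ha1 : 1 / 2 ≤ ‖a‖ := by
    have h5 := norm_sub_norm_le (1 : ℂ) (1 - a)
    rw [norm_one, sub_sub_cancel, norm_sub_rev] at h5
    linarith
  have ha0 : a ≠ 0 := by
    intro h
    rw [h, norm_zero] at ha1
    linarith
  have hai : ‖a⁻¹‖ ≤ 2 := by
    rw [norm_inv]
    calc ‖a‖⁻¹ ≤ (1 / 2 : ℝ)⁻¹ := inv_anti₀ (by norm_num) ha1
      _ = 2 := by norm_num
  have hg0 : g ≠ 0 := by
    intro h
    exact ha0 (by rw [ha, h, mul_zero])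
  refine ⟨w' / w * a⁻¹, ?_, ?_⟩
  · rw [ha]
    field_simp
  · have e3 : w' / w * a⁻¹ - 1 = (w' - w) / w * a⁻¹ + (1 - a) * a⁻¹ := by
      field_simp
      ring
    rw [e3]
    have h5 : ‖(w' - w) / w * a⁻¹‖ ≤ 2 * (k / T) / (1 - ρ⁻¹) := by
      rw [norm_mul, norm_div, hw]
      have h6 : ‖w' - w‖ / ρ₂ ≤ (k / T) / (1 - ρ⁻¹) := by
        have h7 : ‖w' - w‖ / ρ₂ ≤ ‖w' - w‖ := div_le_self (norm_nonneg _) (by linarith)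
        have h8 : (j / T : ℝ) / (1 - ρ⁻¹) ≤ (k / T) / (1 - ρ⁻¹) := div_le_div_of_nonneg_right hjk hρi.le
        linarith
      calc ‖w' - w‖ / ρ₂ * ‖a⁻¹‖ ≤ (k / T) / (1 - ρ⁻¹) * 2 :=
            mul_le_mul h6 hai (norm_nonneg _) (by positivity)
        _ = _ := by ring
    have h6 : ‖(1 - a) * a⁻¹‖ ≤ 2 * δ := by
      rw [norm_mul, norm_sub_rev]
      calc ‖a - 1‖ * ‖a⁻¹‖ ≤ δ * 2 := mul_le_mul h4 hai (norm_nonneg _) ((norm_nonneg _).trans h4)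
        _ = _ := by ring
    calc _ ≤ _ := norm_add_le _ _
      _ ≤ _ := by linarith

theorem PC_near {M : ℕ} (κ : Fin M → ℕ) (ρ ρ₂ δ T : ℝ) (k : ℕ) (hρ : 1 < ρ) (hρ₂ : ρ < ρ₂) (hT : 0 < T) (hδ : 0 ≤ δ)
    (hδ1 : δ ≤ 1 / 2) (hk : ρ + ρ⁻¹ + k / T ≤ ρ₂ + ρ₂⁻¹) (hsc : SC ρ δ T κ)
    (hs : k * (2 * δ + 2 * (k / T) / (1 - ρ⁻¹)) ≤ 1) (w : ℂ) (hw : ‖w‖ = ρ₂) (hi : w.im ≠ 0) :
    ‖PC k κ (T * (w + w⁻¹)) - (T * w) ^ k‖ ≤ (T * ρ₂) ^ k * (2 * (k * (2 * δ + 2 * (k / T) / (1 - ρ⁻¹)))) := by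
  classical
  have hex := factor81 κ ρ ρ₂ δ T k hρ hρ₂ hT hδ1 hk hsc w hw hi
  choose! f hf1 hf2 using hex
  have hρi : 0 < 1 - ρ⁻¹ := by
    have := inv_lt_one_of_one_lt₀ hρ
    linarith
  have h1 : PC k κ (T * (w + w⁻¹)) = (T * w) ^ k * ∏ j ∈ Finset.range k, f j := by
    unfold PC
    rw [Finset.prod_congr rfl fun j hj => hf1 j (Finset.mem_range.1 hj), Finset.prod_mul_distrib, Finset.prod_const,
      Finset.card_range]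
  have h2 : PC k κ (T * (w + w⁻¹)) - (T * w) ^ k = (T * w) ^ k * (∏ j ∈ Finset.range k, f j - 1) := by
    rw [h1]
    ring
  rw [h2, norm_mul, norm_pow, norm_mul, hw, Complex.norm_real, Real.norm_of_nonneg hT.le]
  refine mul_le_mul_of_nonneg_left (prod_near81 k f _ hf2 hs (by positivity)) ?_
  have : 0 < ρ₂ := by linarith
  positivity

end Pool.Agent.Helper70.TG
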