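import Pool.Agent.Helper70.TG.Defs

/-!
BLOCK TG-L0 (about 250 lines). Bead sets.

Proof in words.
* `rowsB`: let `X.card = M` and `e i = X.orderEmbOfFin h (Fin.rev i)` (strictly decreasing in `i`, range `X`). `e i ≥ M - 1 - i` (a strictly increasing map `Fin M → ℕ` satisfies `j ≤ f j`), so `bd (rowsB M X) i = e i`; `rowsB` is antitone because `e i ≥ e (i+1) + 1`.
* `sum_rowsB`: `∑ rowsB i + ∑ (M - 1 - i) = ∑ e i = ∑_{x ∈ X} x`.
* `rowsB_holes`: `rowsB M X i` is the number of `y < e i` with `y ∉ X`: there are `e i` numbers `y < e i`, of which `M - 1 - i` are in `X` (those are the `e j` with `j > i`).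
* `bset_all`: for `κ : Fin M → ℕ` antitone `rowsB M (bset M κ) = κ`: `bset M κ` is the image of the strictly decreasing `bd κ`, so `e = bd κ` (uniqueness of the order embedding: `Finset.orderEmbOfFin_unique`).
* `card_bset`: `i ↦ κ i + (K - 1 - i)` is strictly decreasing on `i < K ≤ N`.
* `cset_bset`: `κ` has at most `a` nonzero rows and all `κ i ≤ b`. The elements `κ i + (a - 1 - i)`, `i < a`, of `bset a κ` are `< a + b`. For `j < b`, `i < a`: `κ i + (a - 1 - i) ≠ a + j - cj κ j` (`cj κ j ≤ a`): if `j < κ i` then `cj κ j ≥ i + 1`, so the left side is `≥ j + a - i > a + j - cj κ j - 1`.. (precisely: left `≥ j + 1 + a - 1 - i = a + j - i ≥ a + j - cj κ j + 1`);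
  if `κ i ≤ j` then `cj κ j ≤ i` and left `≤ j + a - 1 - i < a + j - cj κ j`. So the set `Z = {a + j - cj κ j : j < b}` (`b` distinct numbers `< a + b`, strictly increasing in `j`) is disjoint from `bset a κ`, and by counting `Z = {y < a + b : y ∉ bset a κ}`; `cset (a+b) (bset a κ)` is its image under
  `y ↦ a + b - 1 - y`, which maps `a + j - cj κ j` to `cj κ j + (b - 1 - j)`.
-/

set_option autoImplicit false

open Module Equiv Pool.Agent.Helper51.TF

namespace Pool.Agent.Helper70.TG

private theorem sm_le67 {M : ℕ} {f : Fin M → ℕ} (hf : StrictMono f) :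
    ∀ (j : ℕ) (hj : j < M), j ≤ f ⟨j, hj⟩ := by
  intro j
  induction j with
  | zero => intro _; exact Nat.zero_le _
  | succ j ih =>
    intro hj
    have h1 := ih (by omega)
    have h2 : f ⟨j, by omega⟩ < f ⟨j + 1, hj⟩ := hf (by simp [Fin.lt_def])
    omega

private theorem sm_add67 {M : ℕ} {f : Fin M → ℕ} (hf : StrictMono f) (a : ℕ) (ha : a < M) :
    ∀ (d : ℕ) (hd : a + d < M), f ⟨a, ha⟩ + d ≤ f ⟨a + d, hd⟩ := by
  intro d
  induction d with
  | zero => intro _; exact le_rfl
  | succ d ih =>
    intro hd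
    have h1 := ih (by omega)
    have h2 : f ⟨a + d, by omega⟩ < f ⟨a + (d + 1), hd⟩ := hf (by simp [Fin.lt_def])
    omega

theorem bd_rowsB {M : ℕ} {X : Finset ℕ} (h : X.card = M) (i : Fin M) :
    bd (rowsB M X) i = X.orderEmbOfFin h (Fin.rev i) := by
  have h1 := sm_le67 (X.orderEmbOfFin h).strictMono (Fin.rev i : ℕ) (Fin.rev i).2
  rw [Fin.eta, Fin.val_rev] at h1
  unfold bd rowsB
  rw [dif_pos h]
  omega

theorem image_bd_rowsB {M : ℕ} {X : Finset ℕ} (h : X.card = M) :
    Finset.univ.image (bd (rowsB M X)) = X := by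
  have h1 : bd (rowsB M X) = (X.orderEmbOfFin h) ∘ Fin.rev := funext fun i => bd_rowsB h i
  rw [h1]
  ext x
  simp only [Finset.mem_image, Finset.mem_univ, true_and, Function.comp_apply]
  constructor
  · rintro ⟨i, rfl⟩
    exact Finset.orderEmbOfFin_mem X h _
  · intro hx
    have h2 : x ∈ Set.range (X.orderEmbOfFin h) := by
      rw [Finset.range_orderEmbOfFin]
      exact hx
    obtain ⟨j, hj⟩ := h2
    exact ⟨Fin.rev j, by rw [Fin.rev_rev]; exact hj⟩

theorem rowsB_antitone {M : ℕ} {X : Finset ℕ} (h : X.card = M) : Antitone (rowsB M X) := by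
  intro i j hij
  have h1 := bd_rowsB h i
  have h2 := bd_rowsB h j
  have hij' : (i : ℕ) ≤ (j : ℕ) := hij
  have h3 := sm_add67 (X.orderEmbOfFin h).strictMono (Fin.rev j : ℕ) (Fin.rev j).2
    ((j : ℕ) - i) (by rw [Fin.val_rev]; omega)
  have h4 : (⟨(Fin.rev j : ℕ) + ((j : ℕ) - i), by rw [Fin.val_rev]; omega⟩ : Fin M) =
      Fin.rev i := by
    apply Fin.ext
    simp only [Fin.val_rev]
    omega
  rw [h4, Fin.eta, ← h1, ← h2] at h3
  unfold bd at h3
  omega

private theorem sum_tri67 (M : ℕ) : ∑ i : Fin M, (M - 1 - (i : ℕ)) = M * (M - 1) / 2 := by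
  rw [Fin.sum_univ_eq_sum_range (fun i => M - 1 - i) M, Finset.sum_range_reflect (fun i => i) M,
    Finset.sum_range_id]

private theorem bd_inj67 {M : ℕ} {κ : Fin M → ℕ} (hκ : Antitone κ) : Function.Injective (bd κ) := by
  intro i j hij
  unfold bd at hij
  apply Fin.ext
  by_contra hne
  rcases Nat.lt_or_gt_of_ne hne with h | h
  · have h1 := hκ (Fin.le_def.2 h.le)
    have := j.2
    omega
  · have h1 := hκ (Fin.le_def.2 h.le)
    have := i.2
    omega

theorem sum_rowsB {M : ℕ} {X : Finset ℕ} (h : X.card = M) :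
    ∑ i, rowsB M X i + M * (M - 1) / 2 = ∑ x ∈ X, x := by
  have h1 : ∑ x ∈ X, x = ∑ i, bd (rowsB M X) i := by
    conv_lhs => rw [← image_bd_rowsB h]
    rw [Finset.sum_image fun a _ b _ hab => bd_inj67 (rowsB_antitone h) hab]
  rw [h1, ← sum_tri67, ← Finset.sum_add_distrib]
  rfl

theorem rowsB_holes {M : ℕ} {X : Finset ℕ} (h : X.card = M) (i : Fin M) :
    rowsB M X i = ((Finset.range (bd (rowsB M X) i)).filter (fun y => y ∉ X)).card := by
  have h1 : ((Finset.range (bd (rowsB M X) i)).filter (fun y => y ∈ X)).card = M - 1 - i := by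
    have h2 : (Finset.range (bd (rowsB M X) i)).filter (fun y => y ∈ X) =
        (Finset.Iio (Fin.rev i)).image (X.orderEmbOfFin h) := by
      ext y
      simp only [Finset.mem_filter, Finset.mem_range, Finset.mem_image, Finset.mem_Iio]
      rw [bd_rowsB h]
      constructor
      · rintro ⟨hy1, hy2⟩
        have h3 : y ∈ Set.range (X.orderEmbOfFin h) := by
          rw [Finset.range_orderEmbOfFin]
          exact hy2
        obtain ⟨j, rfl⟩ := h3
        exact ⟨j, (X.orderEmbOfFin h).lt_iff_lt.1 hy1, rfl⟩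
      · rintro ⟨j, hj, rfl⟩
        exact ⟨(X.orderEmbOfFin h).lt_iff_lt.2 hj, Finset.orderEmbOfFin_mem X h _⟩
    rw [h2, Finset.card_image_of_injective _ (X.orderEmbOfFin h).injective, Fin.card_Iio,
      Fin.val_rev]
    omega
  have h4 := Finset.card_filter_add_card_filter_not (s := Finset.range (bd (rowsB M X) i))
    (fun y => y ∈ X)
  rw [Finset.card_range, h1] at h4
  have h5 : bd (rowsB M X) i = rowsB M X i + (M - 1 - i) := rfl
  omega

theorem bset_eq_image {M : ℕ} (κ : Fin M → ℕ) : bset M κ = Finset.univ.image (bd κ) := by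
  unfold bset
  rw [Finset.filter_true_of_mem fun i _ => i.2]
  rfl

theorem rowsB_bset {M : ℕ} (κ : Fin M → ℕ) (hκ : Antitone κ) : rowsB M (bset M κ) = κ := by
  have hc : (bset M κ).card = M := by
    rw [bset_eq_image, Finset.card_image_of_injective _ (bd_inj67 hκ), Finset.card_univ,
      Fintype.card_fin]
  have h1 : (fun j => bd κ (Fin.rev j)) = (bset M κ).orderEmbOfFin hc := by
    refine Finset.orderEmbOfFin_unique hc (fun j => ?_) (fun i j hij => ?_)
    · rw [bset_eq_image]
      exact Finset.mem_image_of_mem _ (Finset.mem_univ _)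
    · have hij' : (i : ℕ) < j := hij
      have h2 : κ (Fin.rev i) ≤ κ (Fin.rev j) := hκ (Fin.rev_le_rev.2 hij.le)
      change bd κ (Fin.rev i) < bd κ (Fin.rev j)
      unfold bd
      simp only [Fin.val_rev]
      have := j.2
      omega
  funext i
  have h2 := bd_rowsB hc i
  rw [← h1] at h2
  simp only [Fin.rev_rev] at h2
  unfold bd at h2
  omega

private theorem bset_inj67 {M a : ℕ} (κ : Fin M → ℕ) (hκ : Antitone κ) :
    Set.InjOn (fun i : Fin M => κ i + (a - 1 - i))
      ((Finset.univ.filter (fun i : Fin M => (i : ℕ) < a) : Finset (Fin M)) : Set (Fin M)) := by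
  intro i hi j hj hij
  simp only [Finset.coe_filter, Finset.mem_univ, true_and, Set.mem_ofPred_eq] at hi hj
  change κ i + (a - 1 - i) = κ j + (a - 1 - j) at hij
  apply Fin.ext
  by_contra hne
  rcases Nat.lt_or_gt_of_ne hne with h | h
  · have h1 := hκ (Fin.le_def.2 h.le)
    omega
  · have h1 := hκ (Fin.le_def.2 h.le)
    omega

private theorem card_lt67 {M a : ℕ} (ha : a ≤ M) :
    (Finset.univ.filter (fun i : Fin M => (i : ℕ) < a)).card = a := by
  rw [Fin.card_filter_val_lt]
  omega

theorem card_bset {M a : ℕ} (κ : Fin M → ℕ) (hκ : Antitone κ) (ha : a ≤ M) : (bset a κ).card = a := by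
  unfold bset
  rw [Finset.card_image_of_injOn (bset_inj67 κ hκ), card_lt67 ha]

theorem sum_bset {M a : ℕ} (κ : Fin M → ℕ) (hκ : Antitone κ) (ha : a ≤ M) (hr : ∀ i : Fin M, a ≤ (i : ℕ) → κ i = 0) :
    ∑ x ∈ bset a κ, x = ∑ i, κ i + a * (a - 1) / 2 := by
  unfold bset
  rw [Finset.sum_image (bset_inj67 κ hκ), Finset.sum_add_distrib]
  congr 1
  · refine Finset.sum_subset (Finset.filter_subset _ _) fun i _ hi => ?_
    refine hr i ?_
    simpa using hi
  · rw [← Finset.sum_range_id, ← Finset.sum_range_reflect (fun i => i) a]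
    have h1 : ∀ i ∈ Finset.range a, i < M := fun i hi => lt_of_lt_of_le (Finset.mem_range.1 hi) ha
    refine Finset.sum_bij (fun i _ => (i : ℕ)) ?_ ?_ ?_ ?_
    · intro i hi
      simpa using hi
    · intro i _ j _ hij
      exact Fin.ext hij
    · intro b hb
      exact ⟨⟨b, h1 b hb⟩, by simpa using hb, rfl⟩
    · intro i _
      rfl

theorem mem_bset_lt {M a b : ℕ} (κ : Fin M → ℕ) (hc : ∀ i, κ i ≤ b) {x : ℕ} (hx : x ∈ bset a κ) : x < a + b := by
  unfold bset at hx
  simp only [Finset.mem_image, Finset.mem_filter, Finset.mem_univ, true_and] at hx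
  obtain ⟨i, hi, rfl⟩ := hx
  have := hc i
  omega

theorem cj_antitone {M : ℕ} (κ : Fin M → ℕ) : Antitone (cj κ) := by
  intro i j hij
  unfold cj
  refine Finset.card_le_card fun x hx => ?_
  simp only [Finset.mem_filter, Finset.mem_univ, true_and] at hx ⊢
  exact lt_of_le_of_lt hij hx

theorem sum_cj {M : ℕ} (κ : Fin M → ℕ) (hc : ∀ i, κ i ≤ M) : ∑ j, cj κ j = ∑ i, κ i := by
  unfold cj
  simp only [Finset.card_filter]
  rw [Finset.sum_comm]
  refine Finset.sum_congr rfl fun i _ => ?_
  rw [← Finset.card_filter, Fin.card_filter_val_lt]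
  have := hc i
  omega

theorem cset_bset {M a b : ℕ} (κ : Fin M → ℕ) (hκ : Antitone κ) (ha : a ≤ M) (hb : b ≤ M)
    (hr : ∀ i : Fin M, a ≤ (i : ℕ) → κ i = 0) (hc : ∀ i, κ i ≤ b) :
    cset (a + b) (bset a κ) = bset b (cj κ) := by
  symm
  have hcj : ∀ j : Fin M, cj κ j ≤ a := by
    intro j
    unfold cj
    rw [← card_lt67 ha]
    refine Finset.card_le_card fun x hx => ?_
    simp only [Finset.mem_filter, Finset.mem_univ, true_and] at hx ⊢
    by_contra h
    have := hr x (by omega)
    omega
  refine Finset.eq_of_subset_of_card_le ?_ ?_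
  · intro x hx
    unfold bset at hx
    simp only [Finset.mem_image, Finset.mem_filter, Finset.mem_univ, true_and] at hx
    obtain ⟨j, hj, rfl⟩ := hx
    have hj1 := hcj j
    unfold cset
    rw [Finset.mem_image]
    refine ⟨a + j - cj κ j, ?_, by omega⟩
    rw [Finset.mem_filter, Finset.mem_range]
    refine ⟨by omega, fun hmem => ?_⟩
    unfold bset at hmem
    simp only [Finset.mem_image, Finset.mem_filter, Finset.mem_univ, true_and] at hmem
    obtain ⟨i, hi, hij⟩ := hmem
    rcases lt_or_ge (j : ℕ) (κ i) with h | h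
    · have h1 : (i : ℕ) + 1 ≤ cj κ j := by
        unfold cj
        have h2 : (Finset.univ.filter (fun x : Fin M => (x : ℕ) < (i : ℕ) + 1)).card = i + 1 :=
          card_lt67 i.2
        rw [← h2]
        refine Finset.card_le_card fun x hx => ?_
        simp only [Finset.mem_filter, Finset.mem_univ, true_and] at hx ⊢
        have h3 : κ i ≤ κ x := hκ (Fin.le_def.2 (by omega))
        omega
      omega
    · have h1 : cj κ j ≤ i := by
        unfold cj
        have h2 : (Finset.univ.filter (fun x : Fin M => (x : ℕ) < (i : ℕ))).card = i :=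
          card_lt67 i.2.le
        conv_rhs => rw [← h2]
        refine Finset.card_le_card fun x hx => ?_
        simp only [Finset.mem_filter, Finset.mem_univ, true_and] at hx ⊢
        by_contra h4
        have h3 : κ x ≤ κ i := hκ (Fin.le_def.2 (by omega))
        omega
      omega
  · rw [card_bset _ (cj_antitone κ) hb]
    unfold cset
    refine Finset.card_image_le.trans ?_
    have h4 := Finset.card_filter_add_card_filter_not (s := Finset.range (a + b))
      (fun y => y ∈ bset a κ)
    have h5 : (Finset.range (a + b)).filter (fun y => y ∈ bset a κ) = bset a κ := by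
      ext y
      simp only [Finset.mem_filter, Finset.mem_range]
      exact ⟨fun h => h.2, fun h => ⟨mem_bset_lt κ hc h, h⟩⟩
    rw [h5, card_bset κ hκ ha, Finset.card_range] at h4
    omega

end Pool.Agent.Helper70.TG
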