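import Pool.Agent.Helper51.TN.B3
import Pool.Agent.Helper51.TN.B8

/-!
TG-AO (helper70). The exterior square of an irreducible representation of `S_n` contains no irreducible representation with a nonzero
vector fixed by `S_2 × S_{n-2}`.

Every `g ∈ S_n` is conjugate to `g⁻¹` by an element of `S_2 × S_{n-2}`, so the operators commuting with `S_2 × S_{n-2}` are symmetric
for the invariant form.
-/

set_option autoImplicit false

open Module Equiv Pool.Agent.Helper1.TS Pool.Agent.Helper70.TU Pool.Agent.Helper51.TN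

namespace Pool.Agent.Helper70.TG

/-! ### Permutations and two marked points -/

section Comb

variable {α : Type*} (g : Perm α)

private theorem zpow_neg_eq {p : α} {i j : ℤ} (h : (g ^ i) p = (g ^ j) p) (s : ℤ) : (g ^ (s - i)) p = (g ^ (s - j)) p := by
  have h1 : (g ^ (s - i - j)) ((g ^ i) p) = (g ^ (s - i - j)) ((g ^ j) p) := by rw [h]
  rw [← Perm.mul_apply, ← Perm.mul_apply, ← zpow_add, ← zpow_add] at h1
  have e1 : s - i - j + i = s - j := by ring
  have e2 : s - i - j + j = s - i := by ring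
  rw [e1, e2] at h1
  exact h1.symm

/-- Every permutation is conjugate to its inverse by a permutation preserving the set of two given points. -/
theorem exists_conj_inv [DecidableEq α] (a b : α) :
    ∃ h : Perm α, h * g * h⁻¹ = g⁻¹ ∧ ((h a = a ∧ h b = b) ∨ (h a = b ∧ h b = a)) := by
  classical
  -- base point and offset
  let p : α → α := fun y =>
    if g.SameCycle a y then a else if g.SameCycle b y then b else (Quotient.mk (Perm.SameCycle.setoid g) y).out
  have hp1 : ∀ y, g.SameCycle (p y) y := by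
    intro y
    simp only [p]
    split_ifs with h1 h2
    · exact h1
    · exact h2
    · exact Quotient.exact (Quotient.out_eq (Quotient.mk (Perm.SameCycle.setoid g) y))
  have hp2 : ∀ y z, g.SameCycle y z → p y = p z := by
    intro y z hyz
    simp only [p]
    have e1 : g.SameCycle a y ↔ g.SameCycle a z := ⟨fun h => h.trans hyz, fun h => h.trans hyz.symm⟩
    have e2 : g.SameCycle b y ↔ g.SameCycle b z := ⟨fun h => h.trans hyz, fun h => h.trans hyz.symm⟩
    have e3 : (Quotient.mk (Perm.SameCycle.setoid g) y) = (Quotient.mk (Perm.SameCycle.setoid g) z) :=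
      Quotient.sound hyz
    simp only [e1, e2, e3]
  choose k hk using hp1
  let s : α → ℤ := fun y => if h : g.SameCycle a b ∧ g.SameCycle a y then h.1.choose else 0
  have hs : ∀ y z, g.SameCycle y z → s y = s z := by
    intro y z hyz
    have e1 : (g.SameCycle a b ∧ g.SameCycle a y) ↔ (g.SameCycle a b ∧ g.SameCycle a z) :=
      and_congr_right fun _ => ⟨fun h => h.trans hyz, fun h => h.trans hyz.symm⟩
    simp only [s]
    by_cases h : g.SameCycle a b ∧ g.SameCycle a y
    · rw [dif_pos h, dif_pos (e1.1 h)]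
    · rw [dif_neg h, dif_neg fun h' => h (e1.2 h')]
  let f : α → α := fun y => (g ^ (s y - k y)) (p y)
  -- the value does not depend on the choices
  have hf : ∀ (y : α) (i : ℤ), (g ^ i) (p y) = y → f y = (g ^ (s y - i)) (p y) := by
    intro y i hi
    exact zpow_neg_eq g ((hk y).trans hi.symm) (s y)
  have hfc : ∀ y, g.SameCycle y (f y) := by
    intro y
    have h1 : g.SameCycle (p y) (f y) := ⟨_, rfl⟩
    have h2 : g.SameCycle (p y) y := ⟨_, hk y⟩
    exact h2.symm.trans h1
  have hff : ∀ y, f (f y) = y := by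
    intro y
    have h1 := hf (f y) (s y - k y) (by rw [← hp2 y (f y) (hfc y)])
    rw [h1, ← hp2 y (f y) (hfc y), ← hs y (f y) (hfc y)]
    have e1 : s y - (s y - k y) = k y := by ring
    rw [e1]
    exact hk y
  have hfg : ∀ y, f (g y) = g⁻¹ (f y) := by
    intro y
    have hc : g.SameCycle y (g y) := Perm.sameCycle_apply_right.2 (Perm.SameCycle.refl g y)
    have h1 := hf (g y) (1 + k y) (by
      rw [← hp2 y (g y) hc, zpow_add, Perm.mul_apply, hk y, zpow_one])
    rw [h1, ← hp2 y (g y) hc, ← hs y (g y) hc]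
    have e1 : s y - (1 + k y) = -1 + (s y - k y) := by ring
    rw [e1, zpow_add, Perm.mul_apply, zpow_neg_one]
  let h : Perm α := ⟨f, f, hff, hff⟩
  refine ⟨h, ?_, ?_⟩
  · rw [mul_inv_eq_iff_eq_mul]
    refine Equiv.ext fun y => ?_
    rw [Perm.mul_apply, Perm.mul_apply]
    exact hfg y
  · have hpa : p a = a := by
      simp only [p]
      rw [if_pos (Perm.SameCycle.refl g a)]
    have ha := hf a 0 (by rw [hpa, zpow_zero, Perm.one_apply])
    by_cases hab : g.SameCycle a b
    · right
      have hsa : s a = hab.choose := by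
        simp only [s]
        rw [dif_pos ⟨hab, Perm.SameCycle.refl g a⟩]
      have hsb : s b = hab.choose := by rw [← hs a b hab, hsa]
      have hpb : p b = a := by rw [← hp2 a b hab, hpa]
      have hspec : (g ^ hab.choose) a = b := hab.choose_spec
      constructor
      · show f a = b
        rw [ha, hpa, hsa, sub_zero, hspec]
      · show f b = a
        have hb := hf b hab.choose (by rw [hpb, hspec])
        rw [hb, hpb, hsb, sub_self, zpow_zero, Perm.one_apply]
    · left
      have hsa : s a = 0 := by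
        simp only [s]
        rw [dif_neg fun h' => hab h'.1]
      have hsb : s b = 0 := by
        simp only [s]
        rw [dif_neg fun h' => hab h'.1]
      have hpb : p b = b := by
        simp only [p]
        rw [if_neg hab, if_pos (Perm.SameCycle.refl g b)]
      constructor
      · show f a = a
        rw [ha, hpa, hsa, sub_zero, zpow_zero, Perm.one_apply]
      · show f b = b
        have hb := hf b 0 (by rw [hpb, zpow_zero, Perm.one_apply])
        rw [hb, hpb, hsb, sub_zero, zpow_zero, Perm.one_apply]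

end Comb

/-! ### Orthogonality -/

section Orth

variable {G : Type*} [Group G] [Fintype G] {V : Type*} [AddCommGroup V] [Module ℂ V] [FiniteDimensional ℂ V]

private lemma irr70 (ρ : Representation ℂ G V) [hρ : ρ.IsIrreducible] (W : Submodule ℂ V)
    (hW : ∀ g, ∀ v ∈ W, ρ g v ∈ W) : W = ⊥ ∨ W = ⊤ := by
  have h := hρ.eq_bot_or_eq_top (⟨W, fun g v hv => hW g v hv⟩ : Subrepresentation ρ)
  rcases h with h | h
  · left
    exact congrArg Subrepresentation.toSubmodule h
  · right
    exact congrArg Subrepresentation.toSubmodule h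

private lemma nontrivial70 (ρ : Representation ℂ G V) [hρ : ρ.IsIrreducible] : Nontrivial V := by
  rcases subsingleton_or_nontrivial V with hs | hn
  · exfalso
    obtain ⟨W, W', hne⟩ := hρ.exists_pair_ne
    refine hne (Subrepresentation.toSubmodule_injective ?_)
    exact Subsingleton.elim _ _
  · exact hn

/-- Schur's lemma for the average of an operator. -/
theorem schur_avg (ρ : Representation ℂ G V) [ρ.IsIrreducible] (A : V →ₗ[ℂ] V) (u : V) :
    (finrank ℂ V : ℂ) • ∑ g : G, ρ g⁻¹ (A (ρ g u)) = ((Fintype.card G : ℂ) * LinearMap.trace ℂ V A) • u := by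
  have hnt := nontrivial70 ρ
  set B : V →ₗ[ℂ] V := ∑ g : G, ρ g⁻¹ * A * ρ g with hB
  have hBv : ∀ v, B v = ∑ g : G, ρ g⁻¹ (A (ρ g v)) := by
    intro v
    rw [hB, LinearMap.sum_apply]
    rfl
  have hcomm : ∀ x : G, ∀ v : V, B (ρ x v) = ρ x (B v) := by
    intro x v
    rw [hBv, hBv, map_sum]
    refine Fintype.sum_equiv (Equiv.mulRight x) _ _ fun g => ?_
    rw [Equiv.coe_mulRight, ← Module.End.mul_apply (ρ x), ← map_mul, mul_inv_rev, mul_inv_cancel_left,
      ← Module.End.mul_apply (ρ g), ← map_mul]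
  obtain ⟨c, hc⟩ := Module.End.exists_eigenvalue B
  have htop : Module.End.eigenspace B c = ⊤ := by
    rcases irr70 ρ (Module.End.eigenspace B c) (by
      intro g v hv
      rw [Module.End.mem_eigenspace_iff] at hv ⊢
      rw [hcomm, hv, map_smul]) with h | h
    · exact absurd h hc
    · exact h
  have hBc : ∀ v, B v = c • v := by
    intro v
    have hv : v ∈ Module.End.eigenspace B c := by
      rw [htop]
      exact Submodule.mem_top
    rwa [Module.End.mem_eigenspace_iff] at hv
  have htr : (Fintype.card G : ℂ) * LinearMap.trace ℂ V A = c * finrank ℂ V := by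
    have h1 : LinearMap.trace ℂ V B = (Fintype.card G : ℂ) * LinearMap.trace ℂ V A := by
      rw [hB, map_sum]
      have h2 : ∀ g : G, LinearMap.trace ℂ V (ρ g⁻¹ * A * ρ g) = LinearMap.trace ℂ V A := by
        intro g
        rw [LinearMap.trace_mul_cycle, ← map_mul, mul_inv_cancel, map_one, one_mul]
      rw [Finset.sum_congr rfl fun g _ => h2 g, Finset.sum_const, Finset.card_univ, nsmul_eq_mul]
    have h3 : B = c • (1 : V →ₗ[ℂ] V) := LinearMap.ext hBc
    rw [← h1, h3, map_smul, LinearMap.trace_one, smul_eq_mul]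
  rw [← hBv, hBc, smul_smul, htr]
  ring_nf

/-- An operator which is orthogonal to the group is zero. -/
theorem eq_zero_of_trace (ρ : Representation ℂ G V) [ρ.IsIrreducible] (T : V →ₗ[ℂ] V)
    (h : ∀ g, LinearMap.trace ℂ V (T ∘ₗ ρ g) = 0) : T = 0 := by
  classical
  have hnt := nontrivial70 ρ
  have hd : (finrank ℂ V : ℂ) ≠ 0 := by
    have := finrank_pos (R := ℂ) (M := V)
    exact_mod_cast this.ne'
  have hG : (Fintype.card G : ℂ) ≠ 0 := Nat.cast_ne_zero.2 Fintype.card_ne_zero
  set e := Module.finBasis ℂ V with he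
  refine LinearMap.ext fun v => ?_
  -- `∑_g tr(T ρ g) ρ(g⁻¹) v` in two ways
  have h1 : ∀ i, (finrank ℂ V : ℂ) • ∑ g : G, (e.coord i (T (ρ g (e i)))) • ρ g⁻¹ v =
      ((Fintype.card G : ℂ) * e.coord i (T v)) • e i := by
    intro i
    have h2 := schur_avg ρ ((e.coord i ∘ₗ T).smulRight v) (e i)
    have h3 : LinearMap.trace ℂ V ((e.coord i ∘ₗ T).smulRight v) = e.coord i (T v) := by
      rw [LinearMap.trace_smulRight]
      rfl
    rw [h3] at h2
    rw [← h2]
    congr 1
    refine Finset.sum_congr rfl fun g _ => ?_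
    rw [LinearMap.smulRight_apply, map_smul]
    rfl
  have h4 : ∀ g : G, LinearMap.trace ℂ V (T ∘ₗ ρ g) = ∑ i, e.coord i (T (ρ g (e i))) := by
    intro g
    rw [LinearMap.trace_eq_matrix_trace ℂ e, Matrix.trace]
    refine Finset.sum_congr rfl fun i _ => ?_
    rw [Matrix.diag_apply, LinearMap.toMatrix_apply]
    rfl
  have h5 : ∑ i, ((Fintype.card G : ℂ) * e.coord i (T v)) • e i = 0 := by
    rw [← Finset.sum_congr rfl fun i _ => h1 i, ← Finset.smul_sum, Finset.sum_comm]
    have h6 : ∑ g : G, ∑ i, (e.coord i (T (ρ g (e i)))) • ρ g⁻¹ v = 0 := by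
      refine Finset.sum_eq_zero fun g _ => ?_
      rw [← Finset.sum_smul, ← h4, h, zero_smul]
    rw [h6, smul_zero]
  have h7 : ∑ i, ((Fintype.card G : ℂ) * e.coord i (T v)) • e i = (Fintype.card G : ℂ) • T v := by
    have h8 : T v = ∑ i, e.coord i (T v) • e i := by
      simp [Basis.sum_repr]
    conv_rhs => rw [h8]
    rw [Finset.smul_sum]
    refine Finset.sum_congr rfl fun i _ => ?_
    rw [smul_smul]
  rw [h7] at h5
  rw [LinearMap.zero_apply]
  exact (smul_eq_zero.1 h5).resolve_left hG

/-- Adjoint operators for a nondegenerate form have the same trace. -/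
theorem trace_adjoint (B : Bil V) (hB : Function.Injective B) (A A' : V →ₗ[ℂ] V)
    (h : ∀ v w, B (A v) w = B v (A' w)) : LinearMap.trace ℂ V A = LinearMap.trace ℂ V A' := by
  have hdim : finrank ℂ V = finrank ℂ (V →ₗ[ℂ] ℂ) := (Subspace.dual_finrank_eq).symm
  let e : V ≃ₗ[ℂ] Module.Dual ℂ V := LinearEquiv.ofInjectiveOfFinrankEq B hB hdim
  have he : ∀ v, e v = B v := fun v => rfl
  have h1 : e.conj A = Module.Dual.transpose (R := ℂ) A' := by
    refine LinearMap.ext fun φ => ?_
    obtain ⟨v, rfl⟩ := e.surjective φ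
    rw [LinearEquiv.conj_apply_apply, e.symm_apply_apply]
    refine LinearMap.ext fun w => ?_
    rw [he, he, h]
    rfl
  rw [← LinearMap.trace_transpose' A', ← h1, LinearMap.trace_conj']

/-- If every `g` is conjugate to `g⁻¹` by an element of `H`, the `H`-invariant alternating forms vanish. -/
theorem alt_eq_zero (ρ : Representation ℂ G V) [ρ.IsIrreducible] (B : Bil V) (hB0 : B ≠ 0)
    (hB : ∀ (g : G) (v w : V), B (ρ g v) (ρ g w) = B v w) (hBs : ∀ v w, B v w = B w v) (H : G → Prop)
    (hH : ∀ g, ∃ h, H h ∧ h * g * h⁻¹ = g⁻¹) (b : Bil V) (hb : ∀ h, H h → ∀ v w, b (ρ h v) (ρ h w) = b v w)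
    (hba : ∀ v w, b v w = - b w v) : b = 0 := by
  have hgg : ∀ (g : G) (w : V), ρ g (ρ g⁻¹ w) = w := by
    intro g w
    rw [← Module.End.mul_apply, ← map_mul, mul_inv_cancel, map_one, Module.End.one_apply]
  have hgg' : ∀ (g : G) (w : V), ρ g⁻¹ (ρ g w) = w := by
    intro g w
    rw [← Module.End.mul_apply, ← map_mul, inv_mul_cancel, map_one, Module.End.one_apply]
  have hinj : Function.Injective B := by
    rw [← LinearMap.ker_eq_bot]
    rcases irr70 ρ (LinearMap.ker B) (by
      intro g v hv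
      rw [LinearMap.mem_ker] at hv ⊢
      refine LinearMap.ext fun w => ?_
      rw [← hgg g w, hB, hv, LinearMap.zero_apply, LinearMap.zero_apply]) with h | h
    · exact h
    · exact absurd (LinearMap.ker_eq_top.1 h) hB0
  have hdim : finrank ℂ V = finrank ℂ (V →ₗ[ℂ] ℂ) := (Subspace.dual_finrank_eq).symm
  let e : V ≃ₗ[ℂ] Module.Dual ℂ V := LinearEquiv.ofInjectiveOfFinrankEq B hinj hdim
  have he : ∀ v, e v = B v := fun v => rfl
  let T : V →ₗ[ℂ] V := e.symm.toLinearMap ∘ₗ b
  have hT : ∀ v, B (T v) = b v := by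
    intro v
    rw [← he]
    exact e.apply_symm_apply (b v)
  have hTs : ∀ v w, B (T v) w = B v (-(T w)) := by
    intro v w
    rw [hT, hba, map_neg, hBs v (T w), hT]
  have hTc : ∀ h, H h → ∀ v, T (ρ h v) = ρ h (T v) := by
    intro h hh v
    refine hinj (LinearMap.ext fun w => ?_)
    rw [hT]
    have h1 := hb h hh v (ρ h⁻¹ w)
    rw [hgg] at h1
    have h2 := hB h (T v) (ρ h⁻¹ w)
    rw [hgg, hT] at h2
    rw [h1, h2]
  have hT0 : T = 0 := by
    refine eq_zero_of_trace ρ T fun g => ?_
    have h1 : LinearMap.trace ℂ V (T ∘ₗ ρ g) = LinearMap.trace ℂ V (-(ρ g⁻¹ ∘ₗ T)) := by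
      refine trace_adjoint B hinj _ _ fun v w => ?_
      rw [LinearMap.comp_apply, hTs, LinearMap.neg_apply, LinearMap.comp_apply, map_neg, map_neg]
      have h2 := hB g v (ρ g⁻¹ (T w))
      rw [hgg] at h2
      show -(B (ρ g v)) (T w) = -(B v) (ρ g⁻¹ (T w))
      rw [h2]
    obtain ⟨h, hh, hc⟩ := hH g
    have h3 : LinearMap.trace ℂ V (ρ g⁻¹ ∘ₗ T) = LinearMap.trace ℂ V (T ∘ₗ ρ g) := by
      have h4 : ρ g⁻¹ * T = ρ h * (ρ g * T) * ρ h⁻¹ := by
        refine LinearMap.ext fun v => ?_
        simp only [Module.End.mul_apply]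
        have h5 : T v = ρ h (T (ρ h⁻¹ v)) := by rw [← hTc h hh, hgg]
        rw [← hc, map_mul, map_mul, Module.End.mul_apply, Module.End.mul_apply]
        congr 2
        rw [h5, hgg']
      have h6 : LinearMap.trace ℂ V (ρ g⁻¹ * T) = LinearMap.trace ℂ V (T * ρ g) := by
        rw [h4, LinearMap.trace_mul_cycle, ← map_mul, inv_mul_cancel, map_one, one_mul, LinearMap.trace_mul_comm]
      exact h6
    rw [map_neg, h3] at h1
    linear_combination (1 / 2 : ℂ) * h1
  refine LinearMap.ext fun v => ?_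
  rw [← hT, hT0, LinearMap.zero_apply, map_zero, LinearMap.zero_apply]

end Orth

/-! ### The exterior square -/

/-- There is an invariant symmetric form. -/
theorem exists_form {n : ℕ} {V : Type} [AddCommGroup V] [Module ℂ V] [FiniteDimensional ℂ V]
    (ρ : Representation ℂ (Perm (Fin n)) V) [ρ.IsIrreducible] :
    ∃ B : Bil V, B ≠ 0 ∧ (∀ (g : Perm (Fin n)) (v w : V), B (ρ g v) (ρ g w) = B v w) ∧ ∀ v w, B v w = B w v := by
  classical
  have hP : ∀ b : Bil V, pe (1) (pe (1) b) = pe (1) b := pe_idem (1) (by norm_num)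
  have hc : ∀ (h : Perm (Fin n)) (b : Bil V), pe (1) (bil ρ h b) = bil ρ h (pe (1) b) :=
    fun h b => pe_pb (1) (ρ h⁻¹) b
  have hdim := dim_hom (Representation.trivial ℂ (Perm (Fin n)) ℂ) (bil ρ) (pe (1)) hP hc
  have htr : ∀ g : Perm (Fin n), (Representation.trivial ℂ (Perm (Fin n)) ℂ).character g = 1 := by
    intro g
    unfold Representation.character
    have h1 : (Representation.trivial ℂ (Perm (Fin n)) ℂ) g = LinearMap.id := rfl
    rw [h1, LinearMap.trace_id, finrank_self, Nat.cast_one]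
  have h4 : ∑ h : Perm (Fin n), LinearMap.trace ℂ (Bil V) (bil ρ h ∘ₗ pe 1) *
      (Representation.trivial ℂ (Perm (Fin n)) ℂ).character h⁻¹ = (n.factorial : ℂ) := by
    have h5 : ∀ h : Perm (Fin n), LinearMap.trace ℂ (Bil V) (bil ρ h ∘ₗ pe 1) *
      (Representation.trivial ℂ (Perm (Fin n)) ℂ).character h⁻¹ =
        (ρ.character h⁻¹ ^ 2 + 1 * ρ.character (h⁻¹ ^ 2)) / 2 := by
      intro h
      rw [trace_bil_pe, htr, mul_one]
    rw [Finset.sum_congr rfl fun h _ => h5 h]
    have h6 : ∑ h : Perm (Fin n), (ρ.character h⁻¹ ^ 2 + 1 * ρ.character (h⁻¹ ^ 2)) / 2 =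
        ∑ h : Perm (Fin n), (ρ.character h ^ 2 + 1 * ρ.character (h ^ 2)) / 2 :=
      Equiv.sum_comp (Equiv.inv (Perm (Fin n)))
        (fun h : Perm (Fin n) => (ρ.character h ^ 2 + 1 * ρ.character (h ^ 2)) / 2)
    rw [h6, ← Finset.sum_div, Finset.sum_add_distrib, Pool.Agent.Helper51.TN.norm_one, ← Finset.mul_sum, fs]
    ring
  rw [h4] at hdim
  have hne : HomP (Representation.trivial ℂ (Perm (Fin n)) ℂ) (bil ρ) (pe (1)) ≠ ⊥ := by
    intro hbot
    rw [hbot, finrank_bot, Nat.cast_zero, mul_zero] at hdim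
    exact n.factorial_ne_zero (by exact_mod_cast hdim.symm)
  obtain ⟨f, hf, hf0⟩ := Submodule.exists_mem_ne_zero_of_ne_bot hne
  obtain ⟨hf1, -⟩ := mem_HomP.1 hf
  have hinv : ∀ (g : Perm (Fin n)) (v w : V), f 1 (ρ g v) (ρ g w) = f 1 v w := by
    intro g v w
    have h1 : f 1 = bil ρ g⁻¹ (f 1) := hf1 g⁻¹ 1
    have h2 := congrArg (fun b : Bil V => b v w) h1
    simp only [bil_apply, inv_inv] at h2
    exact h2.symm
  refine ⟨f 1, fun h0 => hf0 ?_, hinv, form_symm n V ρ (f 1) hinv⟩
  refine LinearMap.ext fun z => ?_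
  have h1 : f z = z • f 1 := by
    rw [← map_smul, smul_eq_mul, mul_one]
  rw [h1, h0, smul_zero, LinearMap.zero_apply]

/-- The exterior square contains no constituent with a vector fixed by `S_2 × S_{n-2}`. -/
theorem alt_no {n : ℕ} (hn : 2 ≤ n) {V W : Type} [AddCommGroup V] [Module ℂ V] [FiniteDimensional ℂ V]
    [AddCommGroup W] [Module ℂ W] [FiniteDimensional ℂ W]
    (ρ : Representation ℂ (Perm (Fin n)) V) [ρ.IsIrreducible]
    (θ : Representation ℂ (Perm (Fin n)) W) [θ.IsIrreducible] (w : W) (hw0 : w ≠ 0)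
    (hw : ∀ g : Perm (Fin n), (∀ i : Fin n, (i : ℕ) < 2 ↔ (g i : ℕ) < 2) → θ g w = w) :
    ∑ g : Perm (Fin n), (ρ.character g ^ 2 - ρ.character (g ^ 2)) / 2 * θ.character g⁻¹ = 0 := by
  classical
  have hP : ∀ b : Bil V, pe (-1) (pe (-1) b) = pe (-1) b := pe_idem (-1) (by norm_num)
  have hc : ∀ (h : Perm (Fin n)) (b : Bil V), pe (-1) (bil ρ h b) = bil ρ h (pe (-1) b) :=
    fun h b => pe_pb (-1) (ρ h⁻¹) b
  have hdim := dim_hom θ (bil ρ) (pe (-1)) hP hc
  obtain ⟨B, hB0, hB, hBs⟩ := exists_form ρ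
  -- the group `S_2 × S_{n-2}`
  have hH : ∀ g : Perm (Fin n), ∃ h : Perm (Fin n), (∀ i : Fin n, (i : ℕ) < 2 ↔ (h i : ℕ) < 2) ∧ h * g * h⁻¹ = g⁻¹ := by
    intro g
    obtain ⟨h, h1, h2⟩ := exists_conj_inv g (⟨0, by omega⟩ : Fin n) ⟨1, by omega⟩
    refine ⟨h, ?_, h1⟩
    have key : ∀ i : Fin n, (i : ℕ) < 2 → (h i : ℕ) < 2 := by
      intro i hi
      have hi' : i = ⟨0, by omega⟩ ∨ i = ⟨1, by omega⟩ := by
        rcases Nat.lt_or_ge (i : ℕ) 1 with h3 | h3
        · left
          exact Fin.ext (by simp only; omega)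
        · right
          exact Fin.ext (by simp only; omega)
      rcases h2 with ⟨ha, hb⟩ | ⟨ha, hb⟩
      · rcases hi' with h5 | h5
        · rw [h5, ha]; simp
        · rw [h5, hb]; simp
      · rcases hi' with h5 | h5
        · rw [h5, ha]; simp
        · rw [h5, hb]; simp
    intro i
    refine ⟨key i, fun hi => ?_⟩
    -- `h` permutes the two points, so it preserves the complement
    have h4 : ∃ j : Fin n, (j : ℕ) < 2 ∧ h j = h i := by
      have hi' : h i = ⟨0, by omega⟩ ∨ h i = ⟨1, by omega⟩ := by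
        rcases Nat.lt_or_ge ((h i : Fin n) : ℕ) 1 with h3 | h3
        · left
          exact Fin.ext (by simp only; omega)
        · right
          exact Fin.ext (by simp only; omega)
      rcases h2 with ⟨ha, hb⟩ | ⟨ha, hb⟩
      · rcases hi' with h5 | h5
        · exact ⟨⟨0, by omega⟩, by simp, by rw [ha, h5]⟩
        · exact ⟨⟨1, by omega⟩, by simp, by rw [hb, h5]⟩
      · rcases hi' with h5 | h5
        · exact ⟨⟨1, by omega⟩, by simp, by rw [hb, h5]⟩
        · exact ⟨⟨0, by omega⟩, by simp, by rw [ha, h5]⟩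
    obtain ⟨j, hj, hji⟩ := h4
    rw [← h.injective hji]
    exact hj
  have hbot : HomP θ (bil ρ) (pe (-1)) = ⊥ := by
    rw [Submodule.eq_bot_iff]
    intro f hf
    obtain ⟨hf1, hf2⟩ := mem_HomP.1 hf
    have hfw : f w = 0 := by
      refine alt_eq_zero ρ B hB0 hB hBs (fun h => ∀ i : Fin n, (i : ℕ) < 2 ↔ (h i : ℕ) < 2) hH (f w) ?_ ?_
      · intro h hh v v'
        have h1 : f w = bil ρ h (f w) := by
          have := hf1 h w
          rwa [hw h hh] at this
        have h2 := congrArg (fun b : Bil V => b (ρ h v) (ρ h v')) h1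
        simp only [bil_apply] at h2
        have hgg' : ∀ (u : V), ρ h⁻¹ (ρ h u) = u := by
          intro u
          rw [← Module.End.mul_apply, ← map_mul, inv_mul_cancel, map_one, Module.End.one_apply]
        rw [hgg', hgg'] at h2
        exact h2
      · intro v v'
        have h1 := congrArg (fun b : Bil V => b v v') (hf2 w)
        simp only [pe_apply] at h1
        linear_combination (-2) * h1
    -- the kernel is everything
    have hker : LinearMap.ker f = ⊤ := by
      rcases irr70 θ (LinearMap.ker f) (by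
        intro g v hv
        rw [LinearMap.mem_ker] at hv ⊢
        rw [hf1, hv, map_zero]) with h | h
      · exfalso
        have h1 : w ∈ LinearMap.ker f := hfw
        rw [h, Submodule.mem_bot] at h1
        exact hw0 h1
      · exact h
    exact LinearMap.ker_eq_top.1 hker
  rw [hbot, finrank_bot, Nat.cast_zero, mul_zero] at hdim
  rw [hdim]
  refine Finset.sum_congr rfl fun g _ => ?_
  rw [trace_bil_pe, inv_pow, char_perm_inv ρ g, char_perm_inv ρ (g ^ 2)]
  ring

end Pool.Agent.Helper70.TG
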