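import Pool.Agent.Helper70.TG.Defs

/-!
BLOCK TG-V1 (about 200 lines). The Vandermonde product under a shift of one variable.

Proof in words.
* `VV_update`: `VV x = (product over the pairs not containing i) * ± ∏_{j ≠ i} (x i - x j)`; precisely `VV x = R_i(x) * (-1)^i * ∏_{j ≠ i} (x i - x j)` where `R_i(x)` is the product over the pairs `a < b` different from `i`, which does not change
  under `Function.update x i t`. So `VV (update x i t) * ∏_{j≠i} (x i - x j) = R_i (-1)^i ∏ (t - x j) ∏ (x i - x j) = VV x * ∏_{j≠i} (t - x j)`. (Or `VV x = ± (Matrix.vandermonde x).det`, `Matrix.det_vandermonde`.)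
* `VV_eq_zero`: one factor is zero. `VV_swap`: `Matrix.det_permute` for the Vandermonde matrix (or `Matrix.det_vandermonde` and `Perm.sign_swap`).
* `VV_step`: if `x b = x c`, `b ≠ c`: the right side is `0`; on the left the terms `a ≠ b, c` are zero (`VV_eq_zero`), and the terms `b`, `c` cancel (`update x b (x b - 1)` and `update x c (x c - 1)` differ by the swap of `b` and `c`: `VV_swap`).
  If `x` is injective: by `VV_update` with `t = x a - 1` `VV (update ..) = VV x * ∏_{j≠a} (x a - 1 - x j)/(x a - x j)`, so it is enough that `∑_a x a ∏_{j≠a} (x a - 1 - x j)/(x a - x j) = ∑ x - N (N-1)/2`.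
  Let `P = ∏_j (X - x j)`, `Q = ∏_j (X - 1 - x j)`, `R = X (Q - P) + N P`. `R` has degree `< N` (the coefficients of `X^N` cancel: `Q - P` has degree `≤ N - 1` with coefficient `- N`), `R(x a) = x a Q(x a) = - x a ∏_{j≠a} (x a - 1 - x j)`, so by Lagrange interpolation
  (`Lagrange` in Mathlib; the coefficient of `X^(N-1)` of a polynomial of degree `< N` is `∑_a R(x a)/∏_{j≠a}(x a - x j)`) the sum is minus the coefficient of `X^(N-1)` in `R`, which is
  `[X^(N-2)](Q - P) - N ∑ x = (N-1) ∑ x + N(N-1)/2 - N ∑ x`.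
  An alternative proof by induction on `N`, or with determinants (`x a * (x a - 1)^{(j)} = (x a)^{(j+1)}` for falling factorials `Matrix.det_eval_descPochhammer`..), is welcome.
* `VV_bd0`: for the beads `N - 1 - i` of the empty partition: `VV = ∏_i (N - 1 - i)!`.
-/

set_option autoImplicit false

open Module Equiv

namespace Pool.Agent.Helper70.TG

/-- `∏_{i<j} (x i - x j)`. -/
noncomputable def VV {N : ℕ} (x : Fin N → ℝ) : ℝ := ∏ i : Fin N, ∏ j ∈ Finset.Ioi i, (x i - x j)

private theorem VV_vand_h54 {N : ℕ} (x : Fin N → ℝ) : VV x = (Matrix.vandermonde (fun i => - x i)).det := by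
  rw [Matrix.det_vandermonde]
  unfold VV
  refine Finset.prod_congr rfl fun i _ => Finset.prod_congr rfl fun j _ => ?_
  ring

private theorem prod_split_h54 {N : ℕ} (F : Fin N → Fin N → ℝ) (i : Fin N) :
    ∏ a : Fin N, ∏ b ∈ Finset.Ioi a, F a b =
      (∏ b ∈ Finset.Ioi i, F i b) * ((∏ a ∈ Finset.univ.erase i, ∏ b ∈ (Finset.Ioi a).erase i, F a b) *
        ∏ a ∈ Finset.Iio i, F a i) := by
  rw [← Finset.mul_prod_erase Finset.univ _ (Finset.mem_univ i)]
  congr 1
  have h1 : ∏ a ∈ Finset.Iio i, F a i = ∏ a ∈ Finset.univ.erase i, if a < i then F a i else 1 := by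
    rw [← Finset.prod_filter]
    refine Finset.prod_congr ?_ fun _ _ => rfl
    ext a
    simp only [Finset.mem_Iio, Finset.mem_filter, Finset.mem_erase, Finset.mem_univ, and_true]
    exact ⟨fun h => ⟨h.ne, h⟩, fun h => h.2⟩
  rw [h1, ← Finset.prod_mul_distrib]
  refine Finset.prod_congr rfl fun a _ => ?_
  split_ifs with h
  · rw [Finset.prod_erase_mul _ _ (Finset.mem_Ioi.2 h)]
  · rw [mul_one, Finset.erase_eq_of_notMem]
    rwa [Finset.mem_Ioi]

private theorem prod_erase_h54 {N : ℕ} (f : Fin N → ℝ) (i : Fin N) :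
    ∏ j ∈ Finset.univ.erase i, f j = (∏ b ∈ Finset.Ioi i, f b) * ∏ a ∈ Finset.Iio i, f a := by
  have h1 : (Finset.univ.erase i : Finset (Fin N)) = Finset.Ioi i ∪ Finset.Iio i := by
    ext a
    simp only [Finset.mem_erase, Finset.mem_univ, and_true, Finset.mem_union, Finset.mem_Ioi, Finset.mem_Iio]
    constructor
    · intro h
      rcases lt_or_gt_of_ne h with h2 | h2
      · exact Or.inr h2
      · exact Or.inl h2
    · rintro (h | h)
      · exact h.ne'
      · exact h.ne
  rw [h1, Finset.prod_union]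
  rw [Finset.disjoint_left]
  intro a h2 h3
  rw [Finset.mem_Ioi] at h2
  rw [Finset.mem_Iio] at h3
  exact lt_asymm h2 h3

theorem VV_update {N : ℕ} (x : Fin N → ℝ) (i : Fin N) (t : ℝ) :
    VV (Function.update x i t) * ∏ j ∈ Finset.univ.erase i, (x i - x j) =
      VV x * ∏ j ∈ Finset.univ.erase i, (t - x j) := by
  have hup : ∀ j, j ≠ i → Function.update x i t j = x j := fun j hj => Function.update_of_ne hj _ _
  have h0 : ∏ b ∈ Finset.Ioi i, (Function.update x i t i - Function.update x i t b) = ∏ b ∈ Finset.Ioi i, (t - x b) := by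
    refine Finset.prod_congr rfl fun b hb => ?_
    rw [Function.update_self, hup b (Finset.mem_Ioi.1 hb).ne']
  have h1 : ∏ a ∈ Finset.univ.erase i, ∏ b ∈ (Finset.Ioi a).erase i, (Function.update x i t a - Function.update x i t b) =
      ∏ a ∈ Finset.univ.erase i, ∏ b ∈ (Finset.Ioi a).erase i, (x a - x b) := by
    refine Finset.prod_congr rfl fun a ha => Finset.prod_congr rfl fun b hb => ?_
    rw [hup a (Finset.ne_of_mem_erase ha), hup b (Finset.ne_of_mem_erase hb)]
  have h2 : ∀ s : ℝ, ∏ a ∈ Finset.Iio i, (x a - s) = (-1) ^ (Finset.Iio i).card * ∏ a ∈ Finset.Iio i, (s - x a) := by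
    intro s
    rw [← Finset.prod_const, ← Finset.prod_mul_distrib]
    exact Finset.prod_congr rfl fun a _ => by ring
  have h3 : ∏ a ∈ Finset.Iio i, (Function.update x i t a - Function.update x i t i) = ∏ a ∈ Finset.Iio i, (x a - t) := by
    refine Finset.prod_congr rfl fun b hb => ?_
    rw [Function.update_self, hup b (Finset.mem_Iio.1 hb).ne]
  unfold VV
  rw [prod_split_h54 (fun a b => Function.update x i t a - Function.update x i t b) i,
    prod_split_h54 (fun a b => x a - x b) i, h0, h1, h3, h2, h2,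
    prod_erase_h54 (fun j => x i - x j) i, prod_erase_h54 (fun j => t - x j) i]
  ring

theorem VV_eq_zero {N : ℕ} (x : Fin N → ℝ) {b c : Fin N} (h : b ≠ c) (hx : x b = x c) : VV x = 0 := by
  rw [VV_vand_h54, Matrix.det_vandermonde_eq_zero_iff]
  exact ⟨b, c, by rw [hx], h⟩

theorem VV_swap {N : ℕ} (x : Fin N → ℝ) {b c : Fin N} (h : b ≠ c) : VV (x ∘ Equiv.swap b c) = - VV x := by
  rw [VV_vand_h54, VV_vand_h54]
  have h1 : Matrix.vandermonde (fun i => - (x ∘ Equiv.swap b c) i) =
      (Matrix.vandermonde (fun i => - x i)).submatrix (Equiv.swap b c) id := rfl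
  rw [h1, Matrix.det_permute, Perm.sign_swap h]
  simp

private noncomputable def MM_h54 {N : ℕ} (x : Fin N → ℝ) : Matrix (Fin N) (Fin N) ℝ :=
  Matrix.of fun a k => (descPochhammer ℝ (k : ℕ)).eval (x a)

private theorem VV_MM_h54 {N : ℕ} : ∃ c : ℝ, ∀ x : Fin N → ℝ, VV x = c * (MM_h54 x).det := by
  refine ⟨∏ i : Fin N, ∏ _j ∈ Finset.Ioi i, (-1 : ℝ), fun x => ?_⟩
  have h1 := Matrix.det_eval_matrixOfPolynomials_eq_det_vandermonde x (fun k : Fin N => descPochhammer ℝ (k : ℕ))
    (fun k => descPochhammer_natDegree _ _) (fun k => monic_descPochhammer _ _)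
  change _ = (MM_h54 x).det at h1
  rw [← h1, Matrix.det_vandermonde, ← Finset.prod_mul_distrib]
  refine Finset.prod_congr rfl fun i _ => ?_
  rw [← Finset.prod_mul_distrib]
  exact Finset.prod_congr rfl fun j _ => by ring

private theorem trace_h54 {N : ℕ} (M : Matrix (Fin N) (Fin N) ℝ) (d : Fin N → ℝ) :
    ∑ a, (M.updateRow a (fun k => d k * M a k)).det = (∑ k, d k) * M.det := by
  simp_rw [Matrix.det_apply']
  rw [Finset.sum_comm, Finset.mul_sum]
  refine Finset.sum_congr rfl fun σ _ => ?_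
  rw [← Finset.mul_sum]
  have h1 : ∀ a, ∏ i, (M.updateRow a (fun k => d k * M a k)) (σ i) i = d (σ⁻¹ a) * ∏ i, M (σ i) i := by
    intro a
    have h2 : ∀ i, (M.updateRow a (fun k => d k * M a k)) (σ i) i = (if i = σ⁻¹ a then d i else 1) * M (σ i) i := by
      intro i
      rw [Matrix.updateRow_apply]
      by_cases h : σ i = a
      · have h3 : i = σ⁻¹ a := by rw [← h]; simp
        rw [if_pos h, if_pos h3, h]
      · have h3 : ¬ i = σ⁻¹ a := fun h4 => h (by rw [h4]; simp)
        rw [if_neg h, if_neg h3, one_mul]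
    rw [Finset.prod_congr rfl fun i _ => h2 i, Finset.prod_mul_distrib, Finset.prod_ite_eq' Finset.univ (σ⁻¹ a) d,
      if_pos (Finset.mem_univ _)]
  rw [Finset.sum_congr rfl fun a _ => h1 a, ← Finset.sum_mul]
  have h5 : ∑ a, d (σ⁻¹ a) = ∑ k, d k := Equiv.sum_comp (σ⁻¹ : Perm (Fin N)) d
  rw [h5]
  ring

private theorem MM_step_h54 {N : ℕ} (x : Fin N → ℝ) (a : Fin N) :
    x a * (MM_h54 (Function.update x a (x a - 1))).det = x a * (MM_h54 x).det -
      ((MM_h54 x).updateRow a (fun k => ((k : ℕ) : ℝ) * MM_h54 x a k)).det := by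
  have h1 : MM_h54 (Function.update x a (x a - 1)) =
      (MM_h54 x).updateRow a (fun k => (descPochhammer ℝ (k : ℕ)).eval (x a - 1)) := by
    ext b k
    rw [Matrix.updateRow_apply]
    unfold MM_h54
    rw [Matrix.of_apply, Matrix.of_apply]
    by_cases h : b = a
    · subst h
      rw [if_pos rfl, Function.update_self]
    · rw [if_neg h, Function.update_of_ne h]
  have h2 : x a • (fun k : Fin N => (descPochhammer ℝ (k : ℕ)).eval (x a - 1)) =
      x a • (MM_h54 x) a + (-1 : ℝ) • (fun k : Fin N => ((k : ℕ) : ℝ) * MM_h54 x a k) := by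
    funext k
    simp only [Pi.smul_apply, Pi.add_apply, smul_eq_mul]
    have h3 : x a * (descPochhammer ℝ (k : ℕ)).eval (x a - 1) = (descPochhammer ℝ ((k : ℕ) + 1)).eval (x a) := by
      rw [descPochhammer_succ_left]
      simp
    have h4 : (descPochhammer ℝ ((k : ℕ) + 1)).eval (x a) = (descPochhammer ℝ (k : ℕ)).eval (x a) * (x a - (k : ℕ)) := by
      rw [descPochhammer_succ_right]
      simp
    rw [h3, h4]
    unfold MM_h54
    rw [Matrix.of_apply]
    ring
  rw [h1, ← Matrix.det_updateRow_smul, h2, Matrix.det_updateRow_add, Matrix.det_updateRow_smul,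
    Matrix.det_updateRow_smul, Matrix.updateRow_eq_self]
  ring

theorem VV_step {N : ℕ} (x : Fin N → ℝ) :
    ∑ a, x a * VV (Function.update x a (x a - 1)) = (∑ a, x a - (N : ℝ) * (N - 1) / 2) * VV x := by
  obtain ⟨c, hc⟩ := VV_MM_h54 (N := N)
  have h1 : ∀ a, x a * VV (Function.update x a (x a - 1)) = c * (x a * (MM_h54 x).det -
      ((MM_h54 x).updateRow a (fun k => ((k : ℕ) : ℝ) * MM_h54 x a k)).det) := by
    intro a
    rw [hc, ← MM_step_h54]
    ring
  have h2 := trace_h54 (MM_h54 x) fun k => ((k : ℕ) : ℝ)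
  have h3 : ∑ k : Fin N, ((k : ℕ) : ℝ) = (N : ℝ) * (N - 1) / 2 := by
    rw [Fin.sum_univ_eq_sum_range (fun k => (k : ℝ)) N]
    induction N with
    | zero => simp
    | succ m ih =>
      rw [Finset.sum_range_succ]
      have h4 : ∑ k ∈ Finset.range m, (k : ℝ) = (m : ℝ) * (m - 1) / 2 := by
        clear * -
        induction m with
        | zero => simp
        | succ m ih => rw [Finset.sum_range_succ, ih]; push_cast; ring
      rw [h4]
      push_cast
      ring
  rw [Finset.sum_congr rfl fun a _ => h1 a, ← Finset.mul_sum, Finset.sum_sub_distrib, h2, h3, ← Finset.sum_mul, hc]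
  ring

theorem VV_bd0 (N : ℕ) :
    VV (fun i : Fin N => ((N - 1 - (i : ℕ) : ℕ) : ℝ)) = ∏ i : Fin N, ((N - 1 - (i : ℕ)).factorial : ℝ) := by
  unfold VV
  refine Finset.prod_congr rfl fun i _ => ?_
  have h1 : ∏ j ∈ Finset.Ioi i, (((N - 1 - (i : ℕ) : ℕ) : ℝ) - ((N - 1 - (j : ℕ) : ℕ) : ℝ)) =
      ∏ m ∈ (Finset.Ioi i).map Fin.valEmbedding, ((m : ℝ) - (i : ℕ)) := by
    rw [Finset.prod_map]
    refine Finset.prod_congr rfl fun j _ => ?_
    have hi := i.2
    have hj := j.2
    have e1 : ((N - 1 - (i : ℕ) : ℕ) : ℝ) = (N : ℝ) - 1 - (i : ℕ) := by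
      rw [Nat.cast_sub (by omega), Nat.cast_sub (by omega), Nat.cast_one]
    have e2 : ((N - 1 - (j : ℕ) : ℕ) : ℝ) = (N : ℝ) - 1 - (j : ℕ) := by
      rw [Nat.cast_sub (by omega), Nat.cast_sub (by omega), Nat.cast_one]
    rw [e1, e2]
    simp only [Fin.valEmbedding_apply]
    ring
  rw [h1, Fin.map_valEmbedding_Ioi]
  have h2 : Finset.Ioo (i : ℕ) N = Finset.Ico ((i : ℕ) + 1) N := by
    ext m
    simp only [Finset.mem_Ioo, Finset.mem_Ico]
    omega
  rw [h2, Finset.prod_Ico_eq_prod_range]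
  have h3 : N - ((i : ℕ) + 1) = N - 1 - (i : ℕ) := by omega
  rw [h3, ← Finset.prod_range_add_one_eq_factorial]
  push_cast
  refine Finset.prod_congr rfl fun k _ => ?_
  ring

end Pool.Agent.Helper70.TG
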