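import Pool.Agent.Helper70.TG.V0
import Pool.Agent.Helper70.TG.V1

/-!
BLOCK TG-V2 (about 250 lines). The dimension formula.

`fz x = (∑ x - N(N-1)/2)! ∏_{i<j} (x i - x j) / ∏ (x i)!` for integer vectors with all `x i ≥ 0`, and `0` otherwise.

Proof in words.
* `fz_step`: `∑ x = m + 1 + N(N-1)/2`. If some `x b < 0` both sides are `0` (`update x a (x a - 1)` still has a negative coordinate). If all `x b ≥ 0`: for `x a ≥ 1` `fz (update x a (x a - 1)) = m! VV(..) x a / ∏ (x i)!` and for `x a = 0` both `fz (update ..)` and `x a` are `0`; so the sum is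
  `m! / ∏ (x i)! · ∑_a x a VV(update ..) = m! (m + 1) VV x / ∏ (x i)!` (`VV_step`).
* `fz_eq_zero`, `fz_swap`: from `VV_eq_zero`, `VV_swap` (the conditions `∀ i, 0 ≤ x i` and the symmetric functions do not change under a permutation).
* `ff_eq`: induction on `m`. `m = 0`: `κ = 0`, `HW 0 0` is the one dimensional space of all functions on the only word (see `TF/H7` `base`), `fz = 1` by `VV_bd0`. Step: `ff_branch`; `fz (bd κ) = ∑_a fz (bd κ - e_a)`; if `IsRem κ a` then `bd κ - e_a = bd (subE κ a)` (`κ a > 0`), `subE κ a ∈ PP N m`. If not: `κ a = κ (a + 1)` (`a + 1 < N`), and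
  then `bd κ a - 1 = bd κ (a + 1)`: `fz = 0` by `fz_eq_zero`; or `a + 1 = N` and `κ a = 0`: `bd κ a - 1 = -1`.
  (`IsRem κ a` means `0 < κ a` and `subE κ a` antitone; for `κ` antitone this is `a + 1 < N → κ (a+1) < κ a` and `0 < κ a`.)
* `ff_ratio`: `ff m κ` as a quotient: for later use, `ff m κ = m! ∏_{i<j} (bd i - bd j) / ∏ (bd i)!`.
-/

set_option autoImplicit false

open Module Equiv Pool.Agent.Helper1.TS Pool.Agent.Helper70.TU Pool.Agent.Helper51.TN Pool.Agent.Helper51.TF

namespace Pool.Agent.Helper70.TG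

/-- The dimension formula for integer vectors. -/
noncomputable def fz {N : ℕ} (x : Fin N → ℤ) : ℝ :=
  if ∀ i, 0 ≤ x i then
    (((∑ i, x i) - (N : ℤ) * (N - 1) / 2).toNat.factorial : ℝ) * VV (fun i => (x i : ℝ)) /
      ∏ i, ((x i).toNat.factorial : ℝ)
  else 0

private theorem tri_h17 (N : ℕ) : (((N : ℤ) * (N - 1) / 2 : ℤ) : ℝ) = (N : ℝ) * (N - 1) / 2 := by
  have h : (2 : ℤ) ∣ (N : ℤ) * (N - 1) := by
    have := Int.even_mul_pred_self (N : ℤ)
    exact this.two_dvd
  obtain ⟨k, hk⟩ := h
  have h1 : (N : ℤ) * (N - 1) / 2 = k := by omega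
  rw [h1]
  have h2 : ((N : ℝ) * (N - 1)) = 2 * k := by exact_mod_cast hk
  rw [h2]
  ring

private theorem sum_bd_h17 {N : ℕ} (κ : Fin N → ℕ) :
    ∑ i, (bd κ i : ℤ) = ((∑ i, κ i : ℕ) : ℤ) + (N : ℤ) * (N - 1) / 2 := by
  have h1 : ∑ i : Fin N, (N - 1 - (i : ℕ)) = N * (N - 1) / 2 := by
    rw [Fin.sum_univ_eq_sum_range (fun i => N - 1 - i) N, Finset.sum_range_reflect (fun i => i) N, Finset.sum_range_id]
  have h2 : ∑ i, bd κ i = ∑ i, κ i + N * (N - 1) / 2 := by
    unfold bd
    rw [Finset.sum_add_distrib, h1]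
  have h3 : ((N * (N - 1) / 2 : ℕ) : ℤ) = (N : ℤ) * (N - 1) / 2 := by
    rcases Nat.eq_zero_or_pos N with h | h
    · subst h
      simp
    · rw [Int.natCast_div]
      push_cast [Nat.cast_sub (show 1 ≤ N by omega)]
      rfl
  rw [← h3, ← Nat.cast_add, ← h2]
  push_cast
  rfl

theorem fz_neg {N : ℕ} (x : Fin N → ℤ) {b : Fin N} (h : x b < 0) : fz x = 0 := by
  unfold fz
  rw [if_neg]
  intro h1
  have := h1 b
  omega

theorem fz_step {N : ℕ} (x : Fin N → ℤ) (m : ℕ) (hx : ∑ i, x i = m + 1 + (N : ℤ) * (N - 1) / 2) :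
    fz x = ∑ a, fz (Function.update x a (x a - 1)) := by
  by_cases hneg : ∃ b, x b < 0
  · obtain ⟨b, hb⟩ := hneg
    rw [fz_neg x hb]
    refine (Finset.sum_eq_zero fun a _ => fz_neg _ (b := b) ?_).symm
    by_cases hab : b = a
    · subst hab
      rw [Function.update_self]
      omega
    · rw [Function.update_of_ne hab]
      exact hb
  · push Not at hneg
    have hfx : fz x = ((m + 1).factorial : ℝ) * VV (fun i => (x i : ℝ)) / ∏ i, ((x i).toNat.factorial : ℝ) := by
      unfold fz
      rw [if_pos hneg, hx]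
      congr 4
      omega
    have hprod : (0 : ℝ) < ∏ i, ((x i).toNat.factorial : ℝ) :=
      Finset.prod_pos fun i _ => by exact_mod_cast Nat.factorial_pos _
    have hterm : ∀ a, fz (Function.update x a (x a - 1)) = (m.factorial : ℝ) / (∏ i, ((x i).toNat.factorial : ℝ)) *
        ((x a : ℝ) * VV (Function.update (fun i => (x i : ℝ)) a ((x a : ℝ) - 1))) := by
      intro a
      rcases (hneg a).eq_or_lt with h0 | h0
      · rw [fz_neg _ (b := a) (by rw [Function.update_self]; omega), ← h0]
        simp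
      · have hnn : ∀ i, 0 ≤ Function.update x a (x a - 1) i := by
          intro i
          by_cases hi : i = a
          · subst hi
            rw [Function.update_self]
            omega
          · rw [Function.update_of_ne hi]
            exact hneg i
        have hs : ∑ i, Function.update x a (x a - 1) i = ∑ i, x i - 1 := by
          rw [Finset.sum_update_of_mem (Finset.mem_univ a), ← Finset.add_sum_erase _ _ (Finset.mem_univ a),
            Finset.sdiff_singleton_eq_erase]
          ring
        have hv : (fun i => ((Function.update x a (x a - 1) i : ℤ) : ℝ)) =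
            Function.update (fun i => (x i : ℝ)) a ((x a : ℝ) - 1) := by
          funext i
          by_cases hi : i = a
          · subst hi
            rw [Function.update_self, Function.update_self]
            push_cast
            rfl
          · rw [Function.update_of_ne hi, Function.update_of_ne hi]
        have hf : (∏ i, ((x i).toNat.factorial : ℝ)) =
            (x a : ℝ) * ∏ i, ((Function.update x a (x a - 1) i).toNat.factorial : ℝ) := by
          rw [← Finset.mul_prod_erase _ _ (Finset.mem_univ a),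
            ← Finset.mul_prod_erase _ (fun i => ((Function.update x a (x a - 1) i).toNat.factorial : ℝ)) (Finset.mem_univ a),
            ← mul_assoc]
          congr 1
          · rw [Function.update_self]
            obtain ⟨k, hk⟩ : ∃ k : ℕ, x a = k + 1 := ⟨(x a - 1).toNat, by omega⟩
            rw [hk]
            have e1 : ((k : ℤ) + 1).toNat = k + 1 := by omega
            have e2 : ((k : ℤ) + 1 - 1).toNat = k := by omega
            rw [e1, e2, Nat.factorial_succ]
            push_cast
            ring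
          · refine Finset.prod_congr rfl fun i hi => ?_
            rw [Function.update_of_ne (Finset.ne_of_mem_erase hi)]
        have hprod' : (0 : ℝ) < ∏ i, ((Function.update x a (x a - 1) i).toNat.factorial : ℝ) :=
          Finset.prod_pos fun i _ => by exact_mod_cast Nat.factorial_pos _
        have hxa : (0 : ℝ) < x a := by exact_mod_cast h0
        have e3 : ((∑ i, x i - 1) - (N : ℤ) * (N - 1) / 2).toNat = m := by
          rw [hx]
          omega
        unfold fz
        rw [if_pos hnn, hs, e3, hv, hf]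
        field_simp
    simp_rw [hterm]
    rw [← Finset.mul_sum, VV_step, hfx]
    have hsum : (∑ a, (x a : ℝ)) - (N : ℝ) * (N - 1) / 2 = m + 1 := by
      have h1 : (((∑ i, x i : ℤ)) : ℝ) = (((m : ℤ) + 1 + (N : ℤ) * (N - 1) / 2 : ℤ) : ℝ) := by rw [hx]
      rw [Int.cast_add, tri_h17] at h1
      push_cast at h1
      linarith
    rw [hsum, Nat.factorial_succ]
    push_cast
    field_simp

theorem fz_eq_zero {N : ℕ} (x : Fin N → ℤ) {b c : Fin N} (h : b ≠ c) (hx : x b = x c) : fz x = 0 := by
  unfold fz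
  split_ifs
  · rw [VV_eq_zero _ h (by rw [hx])]
    simp
  · rfl

theorem fz_swap {N : ℕ} (x : Fin N → ℤ) {b c : Fin N} (h : b ≠ c) : fz (x ∘ Equiv.swap b c) = - fz x := by
  have h1 : (∀ i, 0 ≤ (x ∘ Equiv.swap b c) i) ↔ ∀ i, 0 ≤ x i := by
    constructor
    · intro h2 i
      have := h2 (Equiv.swap b c i)
      rwa [Function.comp_apply, Equiv.swap_apply_self] at this
    · intro h2 i
      exact h2 _
  have h2 : ∑ i, (x ∘ Equiv.swap b c) i = ∑ i, x i := Equiv.sum_comp (Equiv.swap b c) x
  have h3 : ∏ i, (((x ∘ Equiv.swap b c) i).toNat.factorial : ℝ) = ∏ i, ((x i).toNat.factorial : ℝ) :=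
    Equiv.prod_comp (Equiv.swap b c) (fun i => ((x i).toNat.factorial : ℝ))
  have h4 : VV (fun i => (((x ∘ Equiv.swap b c) i : ℤ) : ℝ)) = - VV (fun i => (x i : ℝ)) :=
    VV_swap (fun i => (x i : ℝ)) h
  unfold fz
  rw [h2, h3, h4]
  by_cases hx : ∀ i, 0 ≤ x i
  · rw [if_pos (h1.2 hx), if_pos hx]
    ring
  · rw [if_neg (fun h5 => hx (h1.1 h5)), if_neg hx, neg_zero]

theorem isRem_iff {N m : ℕ} {κ : Fin N → ℕ} (h : κ ∈ PP N (m + 1)) (a : Fin N) :
    IsRem κ a ↔ 0 < κ a ∧ ∀ b : Fin N, (b : ℕ) = a + 1 → κ b < κ a := by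
  have hanti := (mem_PP.1 h).1
  unfold IsRem
  constructor
  · rintro ⟨h1, h2⟩
    refine ⟨h1, fun b hb => ?_⟩
    have hab : a ≤ b := by
      rw [Fin.le_def]
      omega
    have h3 := h2 hab
    unfold subE at h3
    have hne : b ≠ a := by
      intro h4
      rw [h4] at hb
      omega
    rw [if_neg hne, if_pos rfl] at h3
    omega
  · rintro ⟨h1, h2⟩
    refine ⟨h1, fun i j hij => ?_⟩
    unfold subE
    have h3 := hanti hij
    by_cases hi : i = a
    · subst hi
      rw [if_pos rfl]
      by_cases hj : j = i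
      · subst hj
        rw [if_pos rfl]
      · rw [if_neg hj]
        have hlt : i < j := lt_of_le_of_ne hij (Ne.symm hj)
        rw [Fin.lt_def] at hlt
        have hb : (i : ℕ) + 1 < N := lt_of_le_of_lt hlt j.2
        have h4 := h2 ⟨(i : ℕ) + 1, hb⟩ rfl
        have h5 : κ j ≤ κ ⟨(i : ℕ) + 1, hb⟩ := hanti (by
          rw [Fin.le_def]
          exact hlt)
        omega
    · rw [if_neg hi]
      omega

theorem subE_mem {N m : ℕ} {κ : Fin N → ℕ} (h : κ ∈ PP N (m + 1)) (a : Fin N) (ha : IsRem κ a) : subE κ a ∈ PP N m := by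
  rw [mem_PP]
  refine ⟨ha.2, ?_⟩
  have h1 : ∑ i, κ i = ∑ i, subE κ a i + 1 := by
    have h2 : ∀ i, κ i = subE κ a i + if i = a then 1 else 0 := by
      intro i
      unfold subE
      by_cases hi : i = a
      · subst hi
        have := ha.1
        rw [if_pos rfl]
        omega
      · rw [if_neg hi]
        omega
    rw [Finset.sum_congr rfl fun i _ => h2 i, Finset.sum_add_distrib, Finset.sum_ite_eq' Finset.univ a]
    simp
  have h2 := (mem_PP.1 h).2
  omega

private theorem ff0_h17 {N : ℕ} {κ : Fin N → ℕ} (h : κ ∈ PP N 0) : κ = 0 ∧ ff 0 κ = 1 := by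
  have h0 : κ = 0 := by
    have h1 := (mem_PP.1 h).2
    funext i
    have h2 := Finset.single_le_sum (f := κ) (fun _ _ => Nat.zero_le _) (Finset.mem_univ i)
    rw [h1] at h2
    exact Nat.le_zero.1 h2
  refine ⟨h0, ?_⟩
  subst h0
  have hone : (fun _ => 1 : (Fin 0 → Fin N) → ℂ) ∈ HW 0 (0 : Fin N → ℕ) := by
    rw [mem_HW]
    refine ⟨fun x hx => absurd ?_ hx, fun i j hij x => ?_⟩
    · funext i
      rfl
    · rfl
  have hfr : finrank ℂ (HW 0 (0 : Fin N → ℕ)) = 1 := by
    refine finrank_eq_one_iff'.2 ⟨⟨_, hone⟩, ?_, fun w => ?_⟩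
    · intro h1
      have h2 := congrArg (fun f : HW 0 (0 : Fin N → ℕ) => (f : (Fin 0 → Fin N) → ℂ) Fin.elim0) h1
      exact one_ne_zero h2
    · refine ⟨(w : (Fin 0 → Fin N) → ℂ) Fin.elim0, ?_⟩
      apply Subtype.ext
      funext x
      rw [Submodule.coe_smul, Pi.smul_apply, smul_eq_mul, mul_one]
      exact congrArg (w : (Fin 0 → Fin N) → ℂ) (Subsingleton.elim Fin.elim0 x)
  unfold ff
  rw [hfr]
  norm_num

theorem ff_eq {N m : ℕ} (hN : m ≤ N) {κ : Fin N → ℕ} (h : κ ∈ PP N m) : ff m κ = fz (fun i => (bd κ i : ℤ)) := by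
  induction m generalizing κ with
  | zero =>
    obtain ⟨h0, h1⟩ := ff0_h17 h
    rw [h1]
    subst h0
    have hs := sum_bd_h17 (0 : Fin N → ℕ)
    have hs0 : ((∑ i : Fin N, (0 : Fin N → ℕ) i : ℕ) : ℤ) = 0 := by simp
    rw [hs0, zero_add] at hs
    unfold fz
    rw [if_pos fun i => by positivity, hs, sub_self]
    have hb : ∀ i : Fin N, bd (0 : Fin N → ℕ) i = N - 1 - (i : ℕ) := by
      intro i
      unfold bd
      rw [Pi.zero_apply, zero_add]
    simp only [hb, Int.cast_natCast, Int.toNat_natCast, Int.toNat_zero, Nat.factorial_zero]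
    rw [VV_bd0]
    have hprod : (0 : ℝ) < ∏ i : Fin N, ((N - 1 - (i : ℕ)).factorial : ℝ) :=
      Finset.prod_pos fun i _ => by exact_mod_cast Nat.factorial_pos _
    push_cast
    rw [one_mul, div_self hprod.ne']
  | succ m ih =>
    classical
    have hanti := (mem_PP.1 h).1
    have hsum := (mem_PP.1 h).2
    have hs := sum_bd_h17 κ
    rw [hsum] at hs
    push_cast at hs
    rw [fz_step (fun i => (bd κ i : ℤ)) m hs, ff_branch hN h, Finset.sum_filter]
    refine Finset.sum_congr rfl fun a _ => ?_
    by_cases ha : IsRem κ a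
    · rw [if_pos ha, ih (by omega) (subE_mem h a ha)]
      congr 1
      funext i
      have h1 := ha.1
      by_cases hi : i = a
      · subst hi
        rw [Function.update_self]
        unfold bd subE
        rw [if_pos rfl]
        omega
      · rw [Function.update_of_ne hi]
        unfold bd subE
        rw [if_neg hi]
        simp
    · rw [if_neg ha]
      symm
      by_cases hb : ∃ b : Fin N, (b : ℕ) = a + 1 ∧ κ a ≤ κ b
      · obtain ⟨b, hb1, hb2⟩ := hb
        have hab : a ≤ b := by
          rw [Fin.le_def]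
          omega
        have hne : a ≠ b := by
          intro h4
          rw [h4] at hb1
          omega
        have hκ : κ b = κ a := le_antisymm (hanti hab) hb2
        refine fz_eq_zero _ hne ?_
        rw [Function.update_self, Function.update_of_ne (Ne.symm hne)]
        have hbN := b.2
        unfold bd
        rw [hκ, hb1]
        push_cast
        omega
      · push Not at hb
        have h0 : κ a = 0 := by
          by_contra h1
          exact ha ((isRem_iff h a).2 ⟨Nat.pos_of_ne_zero h1, hb⟩)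
        have haN : (a : ℕ) + 1 = N := by
          by_contra h1
          have h2 : (a : ℕ) + 1 < N := lt_of_le_of_ne a.2 h1
          have h3 := hb ⟨(a : ℕ) + 1, h2⟩ rfl
          omega
        refine fz_neg _ (b := a) ?_
        rw [Function.update_self]
        unfold bd
        rw [h0]
        omega

theorem ff_eq_prod {N m : ℕ} (hN : m ≤ N) {κ : Fin N → ℕ} (h : κ ∈ PP N m) :
    ff m κ = m.factorial * (∏ i : Fin N, ∏ j ∈ Finset.Ioi i, ((bd κ i : ℝ) - bd κ j)) / ∏ i, ((bd κ i).factorial : ℝ) := by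
  have hs := sum_bd_h17 κ
  rw [(mem_PP.1 h).2] at hs
  rw [ff_eq hN h]
  unfold fz
  rw [if_pos fun i => by positivity, hs, add_sub_cancel_right]
  unfold VV
  simp only [Int.cast_natCast, Int.toNat_natCast]

end Pool.Agent.Helper70.TG
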