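import Pool.Agent.Helper70.TG.V0
import Pool.Agent.Helper70.TG.V2
import Pool.Agent.Helper51.TF.H9

/-!
TG-D1 (helper70). A representation of large dimension has no long rows and columns.

`ff m κ ≤ binom(m, κ 0) √((m - κ 0)!)` by the dimension formula, so if `m! ≤ 10 (m+1) e^{5√m} ff²` all rows and columns have
length at most `6 √m`.
-/

set_option autoImplicit false

open Module Equiv Pool.Agent.Helper1.TS Pool.Agent.Helper70.TU Pool.Agent.Helper51.TN Pool.Agent.Helper51.TF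

namespace Pool.Agent.Helper70.TG

private lemma bd_succ70 {N : ℕ} (κ : Fin (N + 1) → ℕ) (i : Fin N) :
    bd κ i.succ = bd (fun j : Fin N => κ j.succ) i := by
  unfold bd
  simp only [Fin.val_succ]
  omega

private lemma bd_zero70 {N : ℕ} (κ : Fin (N + 1) → ℕ) : bd κ 0 = κ 0 + N := by
  unfold bd
  simp

private lemma prod_asc70 (a n : ℕ) : (∏ j : Fin n, ((a : ℝ) + (j : ℕ) + 1)) * (a.factorial : ℝ) = ((a + n).factorial : ℝ) := by
  induction n with
  | zero => simp
  | succ n ih =>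
    rw [Fin.prod_univ_castSucc]
    simp only [Fin.val_castSucc, Fin.val_last]
    rw [mul_right_comm, ih, ← Nat.add_assoc, Nat.factorial_succ]
    push_cast
    ring

theorem ff_le_row {N m : ℕ} (hN : m ≤ N) {κ : Fin (N + 1) → ℕ} (h : κ ∈ PP (N + 1) m) :
    ff m κ ≤ (m.factorial : ℝ) / ((m - κ 0).factorial * (κ 0).factorial) * ff (m - κ 0) (fun j : Fin N => κ j.succ) := by
  have h0 := mem_PP.1 h
  have hsum : κ 0 + ∑ j : Fin N, κ j.succ = m := by
    rw [← h0.2, Fin.sum_univ_succ]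
  have hmem : (fun j : Fin N => κ j.succ) ∈ PP N (m - κ 0) := by
    rw [mem_PP]
    refine ⟨fun i j hij => h0.1 (Fin.succ_le_succ_iff.2 hij), ?_⟩
    show ∑ j : Fin N, κ j.succ = m - κ 0
    omega
  rw [ff_eq_prod (by omega) h, ff_eq_prod (by omega) hmem]
  rw [Fin.prod_univ_succ, Fin.prod_univ_succ (fun i => ((bd κ i).factorial : ℝ))]
  rw [Fin.prod_Ioi_zero]
  have e1 : ∀ i : Fin N, ∏ j ∈ Finset.Ioi i.succ, ((bd κ i.succ : ℝ) - bd κ j) =
      ∏ j ∈ Finset.Ioi i, ((bd (fun j : Fin N => κ j.succ) i : ℝ) - bd (fun j : Fin N => κ j.succ) j) := by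
    intro i
    rw [Fin.prod_Ioi_succ]
    simp only [bd_succ70]
  rw [Finset.prod_congr rfl fun i _ => e1 i]
  simp only [bd_succ70, bd_zero70]
  set V : ℝ := ∏ i : Fin N, ∏ j ∈ Finset.Ioi i,
    ((bd (fun j : Fin N => κ j.succ) i : ℝ) - bd (fun j : Fin N => κ j.succ) j) with hV
  set F : ℝ := ∏ i : Fin N, ((bd (fun j : Fin N => κ j.succ) i).factorial : ℝ) with hF
  have hF0 : 0 < F := Finset.prod_pos fun i _ => by positivity
  have hV0 : 0 ≤ V := by
    refine Finset.prod_nonneg fun i _ => Finset.prod_nonneg fun j hj => ?_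
    have h1 : i < j := Finset.mem_Ioi.1 hj
    have h2 : bd (fun j : Fin N => κ j.succ) j ≤ bd (fun j : Fin N => κ j.succ) i := by
      unfold bd
      have h3 : κ j.succ ≤ κ i.succ := h0.1 (Fin.succ_le_succ_iff.2 h1.le)
      have h4 : (i : ℕ) < (j : ℕ) := h1
      simp only
      omega
    have h3 : (bd (fun j : Fin N => κ j.succ) j : ℝ) ≤ bd (fun j : Fin N => κ j.succ) i := by exact_mod_cast h2
    linarith
  have hP : (∏ j : Fin N, (((κ 0 + N : ℕ) : ℝ) - bd (fun j : Fin N => κ j.succ) j)) * ((κ 0).factorial : ℝ) ≤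
      ((κ 0 + N).factorial : ℝ) := by
    rw [← prod_asc70]
    refine mul_le_mul_of_nonneg_right ?_ (by positivity)
    refine Finset.prod_le_prod (fun j _ => ?_) (fun j _ => ?_)
    · have h3 : κ j.succ ≤ κ 0 := h0.1 (Fin.zero_le _)
      have h4 : bd (fun j : Fin N => κ j.succ) j ≤ κ 0 + N := by
        unfold bd
        simp only
        omega
      have h5 : (bd (fun j : Fin N => κ j.succ) j : ℝ) ≤ ((κ 0 + N : ℕ) : ℝ) := by exact_mod_cast h4
      linarith
    · have h4 : κ 0 + N ≤ bd (fun j : Fin N => κ j.succ) j + (κ 0 + (j : ℕ) + 1) := by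
        unfold bd
        have := j.2
        simp only
        omega
      have h5 : ((κ 0 + N : ℕ) : ℝ) ≤ (bd (fun j : Fin N => κ j.succ) j : ℝ) + ((κ 0 : ℝ) + ((j : ℕ) : ℝ) + 1) := by
        exact_mod_cast h4
      linarith
  set P : ℝ := ∏ j : Fin N, (((κ 0 + N : ℕ) : ℝ) - bd (fun j : Fin N => κ j.succ) j) with hPd
  have hm0 : (0 : ℝ) < m.factorial := by positivity
  have hk0 : (0 : ℝ) < (κ 0).factorial := by positivity
  have hr0 : (0 : ℝ) < (m - κ 0).factorial := by positivity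
  have hx0 : (0 : ℝ) < (κ 0 + N).factorial := by positivity
  have e2 : (m.factorial : ℝ) / ((m - κ 0).factorial * (κ 0).factorial) * ((m - κ 0).factorial * V / F) =
      m.factorial * V / ((κ 0).factorial * F) := by
    field_simp
  rw [e2, div_le_div_iff₀ (by positivity) (by positivity)]
  have h5 := mul_le_mul_of_nonneg_left hP (by positivity : 0 ≤ (m.factorial : ℝ) * V * F)
  nlinarith

theorem row_le {N m : ℕ} (hm : 2 ≤ m) (hN : m + 1 ≤ N) {κ : Fin N → ℕ} (h : κ ∈ PP N m)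
    (hd : (m.factorial : ℝ) ≤ 10 * (m + 1) * Real.exp (5 * Real.sqrt m) * (ff m κ) ^ 2) (i : Fin N) :
    (κ i : ℝ) ≤ 6 * Real.sqrt m := by
  obtain ⟨P, rfl⟩ : ∃ N', N = N' + 1 := ⟨N - 1, by omega⟩
  have h0 := mem_PP.1 h
  have hi : κ i ≤ κ 0 := h0.1 (Fin.zero_le _)
  have hiR : (κ i : ℝ) ≤ κ 0 := by exact_mod_cast hi
  refine hiR.trans ?_
  by_contra hc
  push Not at hc
  have hmN : m ≤ P := by omega
  have hsum : κ 0 + ∑ j : Fin P, κ j.succ = m := by
    rw [← h0.2, Fin.sum_univ_succ]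
  have hmem : (fun j : Fin P => κ j.succ) ∈ PP P (m - κ 0) := by
    rw [mem_PP]
    refine ⟨fun i j hij => h0.1 (Fin.succ_le_succ_iff.2 hij), ?_⟩
    show ∑ j : Fin P, κ j.succ = m - κ 0
    omega
  have h1 := ff_le_row hmN h
  have h2 : (ff (m - κ 0) (fun j : Fin P => κ j.succ)) ^ 2 ≤ ((m - κ 0).factorial : ℝ) := by
    rw [← sum_sq (N := P) (by omega : m - κ 0 ≤ P)]
    exact Finset.single_le_sum (f := fun β : Fin P → ℕ => (ff (m - κ 0) β) ^ 2) (fun _ _ => sq_nonneg _) hmem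
  set L : ℕ := κ 0 with hL
  set f' : ℝ := ff (m - L) (fun j : Fin P => κ j.succ) with hf'
  have hf0 : 0 ≤ ff m κ := by
    unfold ff
    positivity
  have hf'0 : 0 ≤ f' := by
    rw [hf']
    unfold ff
    positivity
  have hm0 : (0 : ℝ) < m.factorial := by positivity
  have hk0 : (0 : ℝ) < L.factorial := by positivity
  have hr0 : (0 : ℝ) < (m - L).factorial := by positivity
  have hmR : (2 : ℝ) ≤ m := by exact_mod_cast hm
  set s : ℝ := Real.sqrt m with hs
  have hs0 : 0 < s := Real.sqrt_pos.2 (by linarith)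
  have hss : s * s = m := Real.mul_self_sqrt (by linarith)
  have hL0 : (0 : ℝ) < L := by linarith
  -- `(L!)² ≤ 10 (m+1) e^{5 √m} m^L`
  have h3 : (ff m κ) ^ 2 ≤ (m.factorial : ℝ) ^ 2 / ((m - L).factorial * (L.factorial : ℝ) ^ 2) := by
    have e1 : (ff m κ) ^ 2 ≤ ((m.factorial : ℝ) / ((m - L).factorial * L.factorial) * f') ^ 2 :=
      pow_le_pow_left₀ hf0 h1 2
    refine e1.trans ?_
    rw [mul_pow, div_pow]
    have e2 : (m.factorial : ℝ) ^ 2 / ((m - L).factorial * (L.factorial : ℝ)) ^ 2 * f' ^ 2 ≤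
        (m.factorial : ℝ) ^ 2 / ((m - L).factorial * (L.factorial : ℝ)) ^ 2 * ((m - L).factorial : ℝ) :=
      mul_le_mul_of_nonneg_left h2 (by positivity)
    refine e2.trans (le_of_eq ?_)
    field_simp
  have hdesc : (m.factorial : ℝ) ≤ (m : ℝ) ^ L * ((m - L).factorial : ℝ) := by
    have e1 : L ≤ m := by omega
    have e2 := Nat.factorial_mul_descFactorial e1
    have e3 : m.descFactorial L ≤ m ^ L := Nat.descFactorial_le_pow m L
    have e4 : m.factorial ≤ m ^ L * (m - L).factorial := by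
      rw [← e2, mul_comm]
      exact Nat.mul_le_mul_right _ e3
    exact_mod_cast e4
  set D : ℝ := 10 * (m + 1) * Real.exp (5 * s) with hD
  have hD0 : 0 < D := by positivity
  have h4 : (L.factorial : ℝ) ^ 2 ≤ D * (m : ℝ) ^ L := by
    have e1 : (m.factorial : ℝ) ≤ D * ((m.factorial : ℝ) ^ 2 / ((m - L).factorial * (L.factorial : ℝ) ^ 2)) :=
      hd.trans (mul_le_mul_of_nonneg_left h3 hD0.le)
    have e2 : D * ((m.factorial : ℝ) ^ 2 / ((m - L).factorial * (L.factorial : ℝ) ^ 2)) ≤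
        D * ((m.factorial : ℝ) * ((m : ℝ) ^ L * ((m - L).factorial : ℝ)) / ((m - L).factorial * (L.factorial : ℝ) ^ 2)) := by
      rw [pow_two (m.factorial : ℝ)]
      gcongr
    have e3 : D * ((m.factorial : ℝ) * ((m : ℝ) ^ L * ((m - L).factorial : ℝ)) / ((m - L).factorial * (L.factorial : ℝ) ^ 2)) =
        (m.factorial : ℝ) * (D * (m : ℝ) ^ L / (L.factorial : ℝ) ^ 2) := by
      field_simp
    have e4 := e1.trans (e2.trans (le_of_eq e3))
    have e5 : 1 ≤ D * (m : ℝ) ^ L / (L.factorial : ℝ) ^ 2 := by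
      by_contra hcon
      push Not at hcon
      nlinarith
    rw [le_div_iff₀ (by positivity), one_mul] at e5
    exact e5
  have h5 : (L : ℝ) ^ L ≤ Real.exp L * (L.factorial : ℝ) := by
    have := Real.pow_div_factorial_le_exp (L : ℝ) hL0.le L
    rwa [div_le_iff₀ hk0] at this
  -- `L^(2L) ≤ e^(2L) D m^L`
  have h6 : ((L : ℝ) ^ L) ^ 2 ≤ Real.exp (2 * L) * (D * (m : ℝ) ^ L) := by
    have e1 := pow_le_pow_left₀ (by positivity) h5 2
    rw [mul_pow, ← Real.exp_nat_mul] at e1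
    push_cast at e1
    exact e1.trans (mul_le_mul_of_nonneg_left h4 (Real.exp_pos _).le)
  have h7 : (36 : ℝ) ^ L * (m : ℝ) ^ L ≤ ((L : ℝ) ^ L) ^ 2 := by
    rw [← mul_pow, ← pow_mul, mul_comm L 2, pow_mul]
    refine pow_le_pow_left₀ (by positivity) ?_ L
    nlinarith
  have h8 : (36 : ℝ) ^ L ≤ Real.exp (2 * L) * D := by
    have hmp : (0 : ℝ) < (m : ℝ) ^ L := by positivity
    have e1 : (36 : ℝ) ^ L * (m : ℝ) ^ L ≤ (Real.exp (2 * L) * D) * (m : ℝ) ^ L := by
      rw [mul_assoc]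
      exact h7.trans h6
    exact le_of_mul_le_mul_right e1 hmp
  -- `e^7 < 36²`
  have he7 : Real.exp (7 * L) ≤ ((36 : ℝ) ^ L) ^ 2 := by
    have e1 : Real.exp 7 ≤ 36 ^ 2 := by
      have e2 : Real.exp 7 = (Real.exp 1) ^ 7 := by
        rw [← Real.exp_nat_mul]
        norm_num
      rw [e2]
      have e3 : Real.exp 1 < 2.7182818286 := Real.exp_one_lt_d9
      have e4 := pow_le_pow_left₀ (Real.exp_pos 1).le e3.le 7
      refine e4.trans ?_
      norm_num
    have e5 : Real.exp (7 * L) = (Real.exp 7) ^ L := by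
      rw [← Real.exp_nat_mul]
      congr 1
      ring
    rw [e5, ← pow_mul, mul_comm L 2, pow_mul]
    exact pow_le_pow_left₀ (Real.exp_pos _).le e1 L
  have h9 : Real.exp (7 * L) ≤ (Real.exp (2 * L) * D) ^ 2 :=
    he7.trans (pow_le_pow_left₀ (by positivity) h8 2)
  have h10 : Real.exp (3 * L) ≤ D ^ 2 := by
    rw [mul_pow, ← Real.exp_nat_mul] at h9
    push_cast at h9
    have e1 : Real.exp (7 * (L : ℝ)) = Real.exp (2 * (2 * L)) * Real.exp (3 * L) := by
      rw [← Real.exp_add]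
      congr 1
      ring
    rw [e1] at h9
    exact le_of_mul_le_mul_left h9 (Real.exp_pos _)
  have h11 : Real.exp (18 * s) ≤ D ^ 2 := by
    refine le_trans (Real.exp_le_exp.2 ?_) h10
    linarith
  have h12 : Real.exp (8 * s) ≤ (10 * (m + 1)) ^ 2 := by
    rw [hD, mul_pow, ← Real.exp_nat_mul] at h11
    push_cast at h11
    have e1 : Real.exp (18 * s) = Real.exp (8 * s) * Real.exp (2 * (5 * s)) := by
      rw [← Real.exp_add]
      congr 1
      ring
    rw [e1] at h11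
    exact le_of_mul_le_mul_right h11 (Real.exp_pos _)
  have h13 : Real.exp (4 * s) ≤ 10 * (m + 1) := by
    have e1 : Real.exp (8 * s) = (Real.exp (4 * s)) ^ 2 := by
      rw [← Real.exp_nat_mul]
      congr 1
      push_cast
      ring
    rw [e1] at h12
    exact le_of_sq_le_sq h12 (by positivity)
  have h14 := Real.pow_div_factorial_le_exp (4 * s) (by positivity) 4
  have h15 : (4 * s) ^ 4 / ((4 : ℕ).factorial : ℝ) = 32 / 3 * (m : ℝ) ^ 2 := by
    have : (4 * s) ^ 4 = 256 * (s * s) ^ 2 := by ring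
    rw [this, hss]
    norm_num [Nat.factorial]
    ring
  rw [h15] at h14
  nlinarith

theorem ff_conj {N m : ℕ} (hN : m ≤ N) {κ : Fin N → ℕ} (h : κ ∈ PP N m) : ff m (conjP κ) = ff m κ := by
  have hlab : Lab (hw m κ) κ := ⟨LinearEquiv.refl ℂ _, fun _ _ => rfl⟩
  obtain ⟨e, -⟩ := lab_tw hN (hw m κ) h hlab
  unfold ff
  rw [e.finrank_eq]

theorem col_le {N m : ℕ} (hm : 2 ≤ m) (hN : m + 1 ≤ N) {κ : Fin N → ℕ} (h : κ ∈ PP N m)
    (hd : (m.factorial : ℝ) ≤ 10 * (m + 1) * Real.exp (5 * Real.sqrt m) * (ff m κ) ^ 2) (i : Fin N) (hi : 0 < κ i) :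
    ((i : ℕ) : ℝ) + 1 ≤ 6 * Real.sqrt m := by
  have h0 := mem_PP.1 h
  have hN0 : 0 < N := by omega
  have h1 := row_le hm hN (conjP_mem (by omega) h) (by rw [ff_conj (by omega) h]; exact hd) ⟨0, hN0⟩
  have h2 := (lt_conjP h0.1 i ⟨0, hN0⟩).2 hi
  have h3 : (((i : ℕ) + 1 : ℕ) : ℝ) ≤ (conjP κ ⟨0, hN0⟩ : ℝ) := by exact_mod_cast h2
  push_cast at h3
  exact h3.trans h1

end Pool.Agent.Helper70.TG
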