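import Pool.Agent.Helper70.TG.SHP
import Pool.Agent.Helper70.TG.AO
import Pool.Agent.Helper51.TF.H11
import Pool.Agent.Helper51.TF.H9
import Pool.Agent.Helper51.TF.R2
import Pool.Agent.Helper51.TF.CM
import Pool.Agent.Helper51.TN.FIN

/-!
TG-FIN (helper70): assembly of Theorem F. 
-/

set_option autoImplicit false

open Module Equiv CategoryTheory Pool.Agent.Helper1.TS Pool.Agent.Helper70.TU Pool.Agent.Helper51.TN Pool.Agent.Helper51.TF

namespace Pool.Agent.Helper70.TG

private lemma simple_of_irr70 {G : Type} [Group G] [Fintype G] {V : Type} [AddCommGroup V] [Module ℂ V]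
    [FiniteDimensional ℂ V] (ρ : Representation ℂ G V) (hρ : ρ.IsIrreducible) :
    Simple (FDRep.of ρ) := by
  classical
  rw [FDRep.simple_iff_char_is_norm_one]
  have hc : (Nat.card G : ℂ) ≠ 0 := by exact_mod_cast Nat.card_pos.ne'
  have : Invertible (Nat.card G : ℂ) := invertibleOfNonzero hc
  have h := Representation.char_orthonormal ρ ρ
  rw [if_pos ⟨Representation.Equiv.refl ρ⟩] at h
  have h2 : ∑ g : G, ρ.character g * ρ.character g⁻¹ = Nat.card G := by
    have h3 := congrArg (fun z => (Nat.card G : ℂ) * z) h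
    simp only [mul_one] at h3
    rw [← mul_assoc, mul_inv_cancel₀ hc, one_mul] at h3
    exact h3
  exact h2

private theorem card_Ik70 (n k : ℕ) (hk : k ≤ n) :
    (Finset.univ.filter (fun i : Fin n => (i : ℕ) < k)).card = k := by
  have h1 : (Finset.univ.filter (fun i : Fin n => (i : ℕ) < k)).map Fin.valEmbedding =
      Finset.range k := by
    ext j
    rw [Finset.mem_map, Finset.mem_range]
    constructor
    · rintro ⟨i, hi, rfl⟩
      exact (Finset.mem_filter.1 hi).2
    · intro hj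
      exact ⟨⟨j, hj.trans_le hk⟩, Finset.mem_filter.2 ⟨Finset.mem_univ _, hj⟩, rfl⟩
  rw [← Finset.card_map Fin.valEmbedding, h1, Finset.card_range]

private theorem card_TT70 (n d : ℕ) : (TT n d).card = n - d := by
  rcases Nat.lt_or_ge n d with h | h
  · have : TT n d = ∅ := by
      rw [Finset.eq_empty_iff_forall_notMem]
      intro i hi
      have := mem_TT.1 hi
      omega
    rw [this, Finset.card_empty]
    omega
  · have h1 : TT n d = (Finset.univ.filter (fun i : Fin n => (i : ℕ) < d))ᶜ := by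
      ext i
      rw [mem_TT, Finset.mem_compl, Finset.mem_filter]
      simp
    rw [h1, Finset.card_compl, card_Ik70 n d h, Fintype.card_fin]

/-- If the twist of an irreducible `W` has a nonzero invariant, `W` is the sign. -/
private theorem sign_of_depth_zero {n : ℕ} (W : FDRep ℂ (Perm (Fin n))) (hW : Simple W) (hd : IsDepth (tw W.ρ) 0)
    (g : Perm (Fin n)) (w : W) : W.ρ g w = ((Perm.sign g : ℤ) : ℂ) • w := by
  have hirr := irr_of_simple W hW
  obtain ⟨-, h1, -⟩ := hd
  obtain ⟨v, hv, hv0⟩ := Submodule.exists_mem_ne_zero_of_ne_bot h1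
  have hsg : ∀ x : Perm (Fin n), ((Perm.sign x : ℤ) : ℂ) * ((Perm.sign x : ℤ) : ℂ) = 1 := by
    intro x
    rw [← Int.cast_mul, Int.units_coe_mul_self, Int.cast_one]
  have hv1 : ∀ x : Perm (Fin n), W.ρ x v = ((Perm.sign x : ℤ) : ℂ) • v := by
    intro x
    have h2 : tw W.ρ x v = v := hv x (by
      intro i _
      rw [mem_TT]
      exact Nat.zero_le _)
    rw [tw_apply] at h2
    have h3 := congrArg (fun y => ((Perm.sign x : ℤ) : ℂ) • y) h2
    simp only [smul_smul, hsg, one_smul] at h3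
    exact h3
  -- the eigenspace of the sign is a subrepresentation
  let p : Subrepresentation W.ρ :=
    { toSubmodule :=
        { carrier := {y | ∀ x : Perm (Fin n), W.ρ x y = ((Perm.sign x : ℤ) : ℂ) • y}
          add_mem' := fun ha hb x => by rw [map_add, ha x, hb x, smul_add]
          zero_mem' := fun x => by rw [map_zero, smul_zero]
          smul_mem' := fun c y hy x => by rw [map_smul, hy x, smul_comm] }
      apply_mem_toSubmodule := fun y z hz x => by
        have hz' : ∀ x : Perm (Fin n), W.ρ x z = ((Perm.sign x : ℤ) : ℂ) • z := hz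
        rw [hz' y, map_smul, hz' x]
        exact smul_comm _ _ _ }
  have hp : p = ⊤ := by
    rcases hirr.eq_bot_or_eq_top p with h | h
    · exfalso
      have h2 : v ∈ p.toSubmodule := hv1
      rw [h] at h2
      exact hv0 ((Submodule.mem_bot ℂ).1 h2)
    · exact h
  have h3 : w ∈ p.toSubmodule := by
    rw [hp]
    exact Submodule.mem_top
  exact h3 g

/-- The positive part. -/
theorem final_pos : ∃ N : ℕ, ∀ n ≥ N,
    ∃ V : FDRep ℂ (Perm (Fin n)), Simple V ∧ (∀ g, V.character g = ((Perm.sign g : ℤ) : ℂ) * V.character g) ∧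
      ∀ W : FDRep ℂ (Perm (Fin n)), Simple W →
        (∃ (g : Perm (Fin n)) (w : W), W.ρ g w ≠ ((Perm.sign g : ℤ) : ℂ) • w) →
        (∑ g : Perm (Fin n), ((V.character g ^ 2 + V.character (g ^ 2)) / 2) *
          W.character g⁻¹) ≠ 0 ∧
        ((∀ w : W, w ≠ 0 → ∃ g : Perm (Fin n), (∀ i : Fin n, (i : ℕ) < 2 ↔ (g i : ℕ) < 2) ∧ W.ρ g w ≠ w) →
          (∑ g : Perm (Fin n), ((V.character g ^ 2 - V.character (g ^ 2)) / 2) *
            W.character g⁻¹) ≠ 0) := by
  classical
  obtain ⟨δ₁, hδ₁, hδ₁1, n₁, hrows⟩ := rows_medium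
  obtain ⟨δ₂, hδ₂, hδ₂1, n₂, hcols⟩ := cols_medium
  set δ : ℝ := min δ₁ δ₂ with hδ
  have hδ0 : 0 < δ := lt_min hδ₁ hδ₂
  have hδ1 : δ < 1 := (min_le_left _ _).trans_lt hδ₁1
  have hd1 : δ ≤ δ₁ := min_le_left _ _
  have hd2 : δ ≤ δ₂ := min_le_right _ _
  obtain ⟨w₀, u₀, hw0, hw1, hu0, hu1, hcore⟩ := main_core (δ / 2) (by linarith) (by linarith)
  obtain ⟨A, hA1, n₃, hshape⟩ := exists_shape w₀ u₀ hw0 hw1 hu0 hu1
  obtain ⟨n₄, hmain⟩ := hcore A hA1
  obtain ⟨n₅, hn₅⟩ := exists_nat_gt (4 / δ)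
  refine ⟨max (max n₁ n₂) (max (max n₃ n₄) (max n₅ 100)), fun n hn => ?_⟩
  have hn1 : n₁ ≤ n := (le_max_left _ _).trans ((le_max_left _ _).trans hn)
  have hn2 : n₂ ≤ n := (le_max_right _ _).trans ((le_max_left _ _).trans hn)
  have hn3 : n₃ ≤ n := (le_max_left _ _).trans ((le_max_left _ _).trans ((le_max_right _ _).trans hn))
  have hn4 : n₄ ≤ n := (le_max_right _ _).trans ((le_max_left _ _).trans ((le_max_right _ _).trans hn))
  have hn5 : n₅ ≤ n := (le_max_left _ _).trans ((le_max_right _ _).trans ((le_max_right _ _).trans hn))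
  have hn6 : 100 ≤ n := (le_max_right _ _).trans ((le_max_right _ _).trans ((le_max_right _ _).trans hn))
  have hnr : (100 : ℝ) ≤ n := by exact_mod_cast hn6
  have hnδ : 4 < δ * n := by
    have h1 : 4 / δ < n := hn₅.trans_le (by exact_mod_cast hn5)
    rw [div_lt_iff₀ hδ0] at h1
    linarith
  have hs10 : 10 ≤ Real.sqrt n := by
    rw [show (10 : ℝ) = Real.sqrt 100 by
      rw [show (100 : ℝ) = 10 ^ 2 by norm_num, Real.sqrt_sq (by norm_num)]]
    exact Real.sqrt_le_sqrt hnr
  obtain ⟨N, hN, κ, hκ, hconj, hWF, hCC, hsum, hdim⟩ := hshape n hn3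
  have hirr : (hw n κ).IsIrreducible := (hw_irr hN).1 κ hκ
  set U : FDRep ℂ (Perm (Fin n)) := FDRep.of (hw n κ) with hU
  have hUs : Simple U := simple_of_irr70 (hw n κ) hirr
  have hUc : ∀ g, U.character g = (hw n κ).character g := fun _ => rfl
  have hlab : Lab (hw n κ) κ := ⟨LinearEquiv.refl ℂ _, fun _ _ => rfl⟩
  have hCC1 : Real.sqrt n ≤ (CC (hw n κ)).card := hCC (HW n κ) (hw n κ) hlab
  have hself : ∀ g, (hw n κ).character g = ((Perm.sign g : ℤ) : ℂ) * (hw n κ).character g := by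
    intro g
    have h1 := lab_tw hN (hw n κ) hκ hlab
    rw [hconj] at h1
    obtain ⟨e, he⟩ := h1
    have h2 : hw n κ g = e.conj (tw (hw n κ) g) := by
      refine LinearMap.ext fun v => ?_
      obtain ⟨x, rfl⟩ := e.surjective v
      rw [LinearEquiv.conj_apply_apply, e.symm_apply_apply, he]
    have h3 : (hw n κ).character g = (tw (hw n κ)).character g := by
      unfold Representation.character
      rw [h2, LinearMap.trace_conj']
    have h4 : (tw (hw n κ)).character g = ((Perm.sign g : ℤ) : ℂ) * (hw n κ).character g := by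
      unfold Representation.character
      have : tw (hw n κ) g = ((Perm.sign g : ℤ) : ℂ) • hw n κ g := rfl
      rw [this, map_smul, smul_eq_mul]
    rw [← h4, ← h3]
  refine ⟨U, hUs, hself, fun W hW hne => ?_⟩
  have hirrW := irr_of_simple W hW
  have hW0 : ∃ w : W, w ≠ 0 := by
    have h1 : 0 < finrank ℂ W := finrank_pos_of_irr W hW
    have h2 : Nontrivial W := finrank_pos_iff.1 h1
    exact exists_ne 0
  obtain ⟨d, hd⟩ := exists_depth W.ρ hW0
  obtain ⟨d', hd'⟩ := exists_depth (tw W.ρ) hW0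
  have hred1 : (∑ g : Perm (Fin n), ((hw n κ).character g ^ 2 + ((1 : ℝ) : ℂ) * (hw n κ).character (g ^ 2)) / 2 *
      W.character g⁻¹ ≠ 0) → (∑ g : Perm (Fin n), ((U.character g ^ 2 + U.character (g ^ 2)) / 2) *
          W.character g⁻¹) ≠ 0 := by
    intro h1 h2
    apply h1
    rw [← h2]
    refine Finset.sum_congr rfl fun g _ => ?_
    rw [Complex.ofReal_one, one_mul]
    rfl
  have hred2 : (∑ g : Perm (Fin n), ((hw n κ).character g ^ 2 + ((-1 : ℝ) : ℂ) * (hw n κ).character (g ^ 2)) / 2 *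
      W.character g⁻¹ ≠ 0) → (∑ g : Perm (Fin n), ((U.character g ^ 2 - U.character (g ^ 2)) / 2) *
          W.character g⁻¹) ≠ 0 := by
    intro h1 h2
    apply h1
    rw [← h2]
    refine Finset.sum_congr rfl fun g _ => ?_
    rw [Complex.ofReal_neg, Complex.ofReal_one, neg_one_mul, ← sub_eq_add_neg]
    rfl
  rcases le_or_gt (d + 6) (CC (hw n κ)).card with hsmall | hbig
  · refine ⟨hred1 (shallow_sym (hw n κ) W.ρ hd hsmall), fun hno => hred2 (shallow_alt (by omega) (hw n κ) W.ρ hd hsmall ?_)⟩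
    intro w hw
    by_contra hw0
    obtain ⟨g, hg, hgw⟩ := hno w hw0
    exact hgw (hw g fun i hi => (hg i).1 hi)
  · have hdl : Real.sqrt n / 2 ≤ d := by
      have h2 : ((CC (hw n κ)).card : ℝ) ≤ d + 5 := by
        have : (CC (hw n κ)).card ≤ d + 5 := by omega
        exact_mod_cast this
      linarith
    have hdpos : 0 < d := by
      rcases Nat.eq_zero_or_pos d with h | h
      · rw [h] at hdl
        push_cast at hdl
        linarith
      · exact h
    rcases le_or_gt (d : ℝ) (δ₁ * n) with hmid | hlarge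
    · have key := hrows n hn1 N hN κ hκ hconj hWF W hW d hd hdl hmid
      exact ⟨hred1 (key 1 (by norm_num)), fun _ => hred2 (key (-1) (by norm_num))⟩
    · rcases le_or_gt (d' : ℝ) (δ₂ * n) with hmid' | hlarge'
      · have hd'0 : 0 < d' := by
          rcases Nat.eq_zero_or_pos d' with h | h
          · exfalso
            rw [h] at hd'
            obtain ⟨g, w, hgw⟩ := hne
            exact hgw (sign_of_depth_zero W hW hd' g w)
          · exact h
        have key := hcols n hn2 N hN κ hκ hconj hWF hCC1 W hW d' hd' hd'0 hmid'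
        exact ⟨hred1 (key 1 (by norm_num)), fun _ => hred2 (key (-1) (by norm_num))⟩
      · have hdn : d ≤ n := hd.1
        have hdn' : d' ≤ n := hd'.1
        have hd'pos : 0 < d' := by
          rcases Nat.eq_zero_or_pos d' with h | h
          · rw [h] at hlarge'
            push_cast at hlarge'
            have : 0 < δ₂ * n := by positivity
            linarith
          · exact h
        set k : ℕ := max (n - (d - 1)) (n - (d' - 1)) with hk
        have hkn : k ≤ n := max_le (Nat.sub_le _ _) (Nat.sub_le _ _)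
        have hδn1 : δ * n ≤ δ₁ * n := by nlinarith
        have hδn2 : δ * n ≤ δ₂ * n := by nlinarith
        have hk2 : (k : ℝ) ≤ (1 - δ / 2) * n := by
          have h1 : (((n - (d - 1) : ℕ) : ℕ) : ℝ) ≤ (1 - δ / 2) * n := by
            rw [Nat.cast_sub (by omega), Nat.cast_sub (by omega)]
            push_cast
            nlinarith
          have h2 : (((n - (d' - 1) : ℕ) : ℕ) : ℝ) ≤ (1 - δ / 2) * n := by
            rw [Nat.cast_sub (by omega), Nat.cast_sub (by omega)]
            push_cast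
            nlinarith
          rw [hk, Nat.cast_max]
          exact max_le h1 h2
        set K₀ : Finset (Fin n) := Finset.univ.filter (fun i : Fin n => (i : ℕ) < k) with hK₀
        have hKc : K₀.card = k := card_Ik70 n k hkn
        have hfix : inv W.ρ K₀ = ⊥ := by
          refine inv_bot_of_card W.ρ K₀ (TT n (d - 1)) ?_ (hd.2.2 (d - 1) (by omega))
          rw [card_TT70, hKc]
          exact le_max_left _ _
        have hfix' : inv (tw W.ρ) K₀ = ⊥ := by
          refine inv_bot_of_card (tw W.ρ) K₀ (TT n (d' - 1)) ?_ (hd'.2.2 (d' - 1) (by omega))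
          rw [card_TT70, hKc]
          exact le_max_right _ _
        have hB : Bal W.ρ K₀.card := by
          refine bal_conj W.ρ K₀ (fun v hv => ?_) (fun v hv => ?_)
          · have h1 : v ∈ inv W.ρ K₀ := hv
            rw [hfix, Submodule.mem_bot] at h1
            exact h1
          · have h1 : v ∈ inv (tw W.ρ) K₀ := by
              intro x hx
              rw [tw_apply, hv x hx, smul_smul, ← Int.cast_mul, Int.units_coe_mul_self, Int.cast_one, one_smul]
            rw [hfix', Submodule.mem_bot] at h1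
            exact h1
        have h1 := hmain n hn4 U hUs hsum hdim K₀.card (by rw [hKc]; exact hk2) W hW hB
        exact ⟨h1.1, fun _ => h1.2⟩

/-- **Theorem F.** -/
theorem final : ∃ N : ℕ, ∀ n ≥ N,
    ∃ V : FDRep ℂ (Perm (Fin n)), Simple V ∧ (∀ g, V.character g = ((Perm.sign g : ℤ) : ℂ) * V.character g) ∧
      ∀ W : FDRep ℂ (Perm (Fin n)), Simple W →
        (∑ g : Perm (Fin n), V.character g ^ 2 * W.character g⁻¹) ≠ 0 ∧
        ((∃ (g : Perm (Fin n)) (w : W), W.ρ g w ≠ ((Perm.sign g : ℤ) : ℂ) • w) →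
          (∑ g : Perm (Fin n), ((V.character g ^ 2 + V.character (g ^ 2)) / 2) *
            W.character g⁻¹) ≠ 0 ∧
          ((∑ g : Perm (Fin n), ((V.character g ^ 2 - V.character (g ^ 2)) / 2) * W.character g⁻¹) ≠ 0 ↔
            ∀ w : W, w ≠ 0 → ∃ g : Perm (Fin n), (∀ i : Fin n, (i : ℕ) < 2 ↔ (g i : ℕ) < 2) ∧ W.ρ g w ≠ w)) := by
  obtain ⟨N, hN⟩ := final_pos
  refine ⟨max N 2, fun n hn => ?_⟩
  obtain ⟨V, hV, hself, h⟩ := hN n ((le_max_left _ _).trans hn)
  refine ⟨V, hV, hself, fun W hW => ?_⟩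
  have hirrV := irr_of_simple V hV
  have hirrW := irr_of_simple W hW
  have hpart : (∃ (g : Perm (Fin n)) (w : W), W.ρ g w ≠ ((Perm.sign g : ℤ) : ℂ) • w) →
          (∑ g : Perm (Fin n), ((V.character g ^ 2 + V.character (g ^ 2)) / 2) *
            W.character g⁻¹) ≠ 0 ∧
          ((∑ g : Perm (Fin n), ((V.character g ^ 2 - V.character (g ^ 2)) / 2) * W.character g⁻¹) ≠ 0 ↔
            ∀ w : W, w ≠ 0 → ∃ g : Perm (Fin n), (∀ i : Fin n, (i : ℕ) < 2 ↔ (g i : ℕ) < 2) ∧ W.ρ g w ≠ w) := by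
    intro hne
    obtain ⟨h1, h2⟩ := h W hW hne
    refine ⟨h1, fun h3 w hw0 => ?_, h2⟩
    by_contra hcon
    push Not at hcon
    exact h3 (alt_no ((le_max_right _ _).trans hn) V.ρ W.ρ w hw0 hcon)
  refine ⟨?_, hpart⟩
  have hPm : ∀ b : Bil V, pe (-1) (pe (-1) b) = pe (-1) b := pe_idem (-1) (by norm_num)
  have hcm : ∀ (h : Perm (Fin n)) (b : Bil V), pe (-1) (bil V.ρ h b) = bil V.ρ h (pe (-1) b) :=
    fun h b => pe_pb (-1) (V.ρ h⁻¹) b
  have hPp : ∀ b : Bil V, pe (1) (pe (1) b) = pe (1) b := pe_idem (1) (by norm_num)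
  have hcp : ∀ (h : Perm (Fin n)) (b : Bil V), pe (1) (bil V.ρ h b) = bil V.ρ h (pe (1) b) :=
    fun h b => pe_pb (1) (V.ρ h⁻¹) b
  by_cases hne : ∃ (g : Perm (Fin n)) (w : W), W.ρ g w ≠ ((Perm.sign g : ℤ) : ℂ) • w
  · -- `χ² = S² + A²`
    have h1 := (h W hW hne).1
    have hdm := dim_hom W.ρ (bil V.ρ) (pe (-1)) hPm hcm
    have hdp := dim_hom W.ρ (bil V.ρ) (pe (1)) hPp hcp
    have ep : ∑ g : Perm (Fin n), LinearMap.trace ℂ (Bil V) (bil V.ρ g ∘ₗ pe 1) * Representation.character W.ρ g⁻¹ =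
        ∑ g : Perm (Fin n), ((V.character g ^ 2 + V.character (g ^ 2)) / 2) * W.character g⁻¹ := by
      refine Finset.sum_congr rfl fun g _ => ?_
      rw [trace_bil_pe, inv_pow, char_perm_inv V.ρ g, char_perm_inv V.ρ (g ^ 2), one_mul]
      rfl
    have em : ∑ g : Perm (Fin n), LinearMap.trace ℂ (Bil V) (bil V.ρ g ∘ₗ pe (-1)) * Representation.character W.ρ g⁻¹ =
        ∑ g : Perm (Fin n), ((V.character g ^ 2 - V.character (g ^ 2)) / 2) * W.character g⁻¹ := by
      refine Finset.sum_congr rfl fun g _ => ?_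
      rw [trace_bil_pe, inv_pow, char_perm_inv V.ρ g, char_perm_inv V.ρ (g ^ 2), neg_one_mul, ← sub_eq_add_neg]
      rfl
    rw [ep] at hdp
    rw [em] at hdm
    have hsum : ∑ g : Perm (Fin n), V.character g ^ 2 * W.character g⁻¹ =
        (Fintype.card (Perm (Fin n)) : ℂ) * ((finrank ℂ (HomP W.ρ (bil V.ρ) (pe 1)) +
          finrank ℂ (HomP W.ρ (bil V.ρ) (pe (-1))) : ℕ) : ℂ) := by
      push_cast
      rw [mul_add, hdp, hdm, ← Finset.sum_add_distrib]
      refine Finset.sum_congr rfl fun g _ => ?_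
      ring
    rw [hsum]
    rw [← hdp] at h1
    have hfp : finrank ℂ (HomP W.ρ (bil V.ρ) (pe 1)) ≠ 0 := by
      intro h0
      rw [h0, Nat.cast_zero, mul_zero] at h1
      exact h1 rfl
    refine mul_ne_zero (Nat.cast_ne_zero.2 Fintype.card_ne_zero) ?_
    have : finrank ℂ (HomP W.ρ (bil V.ρ) (pe 1)) + finrank ℂ (HomP W.ρ (bil V.ρ) (pe (-1))) ≠ 0 := by omega
    exact_mod_cast this
  · -- `W` is the sign
    push Not at hne
    have hW1 : ∀ g : Perm (Fin n), W.character g⁻¹ = ((Perm.sign g : ℤ) : ℂ) * (finrank ℂ W : ℂ) := by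
      intro g
      have h1 : W.ρ g⁻¹ = ((Perm.sign g : ℤ) : ℂ) • (1 : W →ₗ[ℂ] W) := by
        refine LinearMap.ext fun w => ?_
        rw [hne g⁻¹ w, Perm.sign_inv]
        rfl
      have h2 : W.character g⁻¹ = LinearMap.trace ℂ W (W.ρ g⁻¹) := rfl
      rw [h2, h1, map_smul, LinearMap.trace_one, smul_eq_mul]
    have h3 : ∑ g : Perm (Fin n), V.character g ^ 2 * W.character g⁻¹ =
        (∑ g : Perm (Fin n), Representation.character V.ρ g ^ 2) * (finrank ℂ W : ℂ) := by
      rw [Finset.sum_mul]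
      refine Finset.sum_congr rfl fun g _ => ?_
      rw [hW1]
      have h4 : V.character g ^ 2 * ((Perm.sign g : ℤ) : ℂ) = V.character g ^ 2 := by
        rw [pow_two, mul_assoc, mul_comm (V.character g) ((Perm.sign g : ℤ) : ℂ), ← hself g]
      rw [← mul_assoc, h4]
      rfl
    rw [h3, Pool.Agent.Helper51.TN.norm_one]
    have h5 : 0 < finrank ℂ W := finrank_pos_of_irr W hW
    exact mul_ne_zero (by exact_mod_cast n.factorial_ne_zero) (by exact_mod_cast h5.ne')

end Pool.Agent.Helper70.TG
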