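import Pool.Agent.Helper70.TG.TH2
import Pool.Agent.Helper51.TN.B3
import Pool.Agent.Helper1.TS.A0

/-!
TG-TH3 (helper70): the irreducible representations with a nonzero vector fixed by the stabilizer of a 2-subset are those with the
characters `1`, `f - 1`, `π - f` (`f` the number of the fixed points, `π` the number of the fixed 2-subsets).
-/

set_option autoImplicit false

open Finset Equiv Module Pool.Agent.Helper1.TS

namespace Pool.Agent.Helper70.TG

variable {V : Type} [AddCommGroup V] [Module ℂ V] [FiniteDimensional ℂ V]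

private theorem norm_re {n : ℕ} (ρ : Representation ℂ (Perm (Fin n)) V) [ρ.IsIrreducible] :
    ∑ g : Perm (Fin n), ((ρ.character g).re) ^ 2 = (n.factorial : ℝ) := by
  have h := Pool.Agent.Helper51.TN.norm_one ρ
  have h' : ((∑ g : Perm (Fin n), ((ρ.character g).re) ^ 2 : ℝ) : ℂ) = ((n.factorial : ℝ) : ℂ) := by
    push_cast
    rw [← h]
    refine sum_congr rfl fun g _ => ?_
    rw [← char_perm_real ρ g]
  exact_mod_cast h'

/-- A function of norm at most `1` whose inner product with an irreducible character is at least `1` is this character. -/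
private theorem eq_of_inner {n : ℕ} (ρ : Representation ℂ (Perm (Fin n)) V) [ρ.IsIrreducible] (ψ : Perm (Fin n) → ℝ)
    (h1 : ∑ g, ψ g ^ 2 ≤ (n.factorial : ℝ)) (h2 : (n.factorial : ℝ) ≤ ∑ g, ψ g * (ρ.character g).re) (g : Perm (Fin n)) :
    ρ.character g = (ψ g : ℂ) := by
  have h4 : ∑ g : Perm (Fin n), (ψ g - (ρ.character g).re) ^ 2 ≤ 0 := by
    have h5 : ∑ g : Perm (Fin n), (ψ g - (ρ.character g).re) ^ 2 =
        ∑ g, ψ g ^ 2 - 2 * ∑ g, ψ g * (ρ.character g).re + ∑ g : Perm (Fin n), ((ρ.character g).re) ^ 2 := by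
      rw [mul_sum, ← sum_sub_distrib, ← sum_add_distrib]
      refine sum_congr rfl fun g _ => ?_
      ring
    rw [h5, norm_re ρ]
    linarith
  have h5 := (sum_eq_zero_iff_of_nonneg (fun g _ => sq_nonneg _)).1
    (le_antisymm h4 (sum_nonneg fun g _ => sq_nonneg _)) g (mem_univ g)
  have h7 : (ρ.character g).re = ψ g := by
    have h8 := pow_eq_zero_iff (two_ne_zero) |>.1 h5
    linarith
  rw [char_perm_real ρ g, h7]

private theorem mom {n j k : ℕ} (hk : k ≤ j) (hn : j + k ≤ n) :
    ∑ g : Perm (Fin n), (fx n j g : ℝ) * (fx n k g : ℝ) = ((k : ℝ) + 1) * n.factorial := by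
  have h := sum_fx_fx hk hn
  exact_mod_cast h

private theorem mom_char {n k : ℕ} (hk : k ≤ n) (ρ : Representation ℂ (Perm (Fin n)) V) :
    ∑ g : Perm (Fin n), (fx n k g : ℝ) * (ρ.character g).re = (n.factorial : ℝ) * (finrank ℂ (hfix ρ k) : ℝ) := by
  have h := sum_fx_char hk ρ
  have h' : ((∑ g : Perm (Fin n), (fx n k g : ℝ) * (ρ.character g).re : ℝ) : ℂ) =
      (((n.factorial : ℝ) * (finrank ℂ (hfix ρ k) : ℝ) : ℝ) : ℂ) := by
    push_cast
    rw [← h]
    refine sum_congr rfl fun g _ => ?_
    rw [← char_perm_real ρ g]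
  exact_mod_cast h'

theorem three_chars {n : ℕ} (hn : 4 ≤ n) (ρ : Representation ℂ (Perm (Fin n)) V) [ρ.IsIrreducible] :
    hfix ρ 2 ≠ ⊥ ↔ ((ρ.character = fun _ => 1) ∨ (ρ.character = fun g => (fx n 1 g : ℂ) - 1) ∨
      (ρ.character = fun g => (fx n 2 g : ℂ) - (fx n 1 g : ℂ))) := by
  have hf : (0 : ℝ) < n.factorial := by exact_mod_cast n.factorial_pos
  have m00 := mom (n := n) (j := 0) (k := 0) (by omega) (by omega)
  have m10 := mom (n := n) (j := 1) (k := 0) (by omega) (by omega)
  have m11 := mom (n := n) (j := 1) (k := 1) (by omega) (by omega)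
  have m20 := mom (n := n) (j := 2) (k := 0) (by omega) (by omega)
  have m21 := mom (n := n) (j := 2) (k := 1) (by omega) (by omega)
  have m22 := mom (n := n) (j := 2) (k := 2) (by omega) (by omega)
  have c0 := mom_char (k := 0) (by omega) ρ
  have c1 := mom_char (k := 1) (by omega) ρ
  have c2 := mom_char (k := 2) (by omega) ρ
  simp only [fx_zero, Nat.cast_one, Nat.cast_zero, Nat.cast_ofNat, one_mul, mul_one, zero_add] at m00 m10 m11 m20 m21 m22 c0 c1 c2
  have hfr : hfix ρ 2 ≠ ⊥ ↔ 0 < finrank ℂ (hfix ρ 2) := by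
    rw [Nat.pos_iff_ne_zero, Ne, Ne, Submodule.finrank_eq_zero]
  rw [hfr]
  constructor
  · intro h2
    have h2' : (1 : ℝ) ≤ finrank ℂ (hfix ρ 2) := by exact_mod_cast h2
    rcases Nat.eq_zero_or_pos (finrank ℂ (hfix ρ 0)) with h0 | h0
    · rw [h0, Nat.cast_zero, mul_zero] at c0
      rcases Nat.eq_zero_or_pos (finrank ℂ (hfix ρ 1)) with h1 | h1
      · rw [h1, Nat.cast_zero, mul_zero] at c1
        refine Or.inr (Or.inr (funext fun g => ?_))
        have key := eq_of_inner ρ (fun g => (fx n 2 g : ℝ) - (fx n 1 g : ℝ)) ?_ ?_ g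
        · rw [key]
          push_cast
          rfl
        · have e : ∑ g : Perm (Fin n), ((fx n 2 g : ℝ) - (fx n 1 g : ℝ)) ^ 2 =
              ∑ g : Perm (Fin n), (fx n 2 g : ℝ) * (fx n 2 g : ℝ) - 2 * ∑ g : Perm (Fin n), (fx n 2 g : ℝ) * (fx n 1 g : ℝ) +
                ∑ g : Perm (Fin n), (fx n 1 g : ℝ) * (fx n 1 g : ℝ) := by
            rw [mul_sum, ← sum_sub_distrib, ← sum_add_distrib]
            refine sum_congr rfl fun g _ => ?_
            ring
          rw [e, m22, m21, m11]
          linarith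
        · have e : ∑ g : Perm (Fin n), ((fx n 2 g : ℝ) - (fx n 1 g : ℝ)) * (ρ.character g).re =
              ∑ g : Perm (Fin n), (fx n 2 g : ℝ) * (ρ.character g).re - ∑ g : Perm (Fin n), (fx n 1 g : ℝ) * (ρ.character g).re := by
            rw [← sum_sub_distrib]
            refine sum_congr rfl fun g _ => ?_
            ring
          rw [e, c2, c1]
          nlinarith
      · have h1' : (1 : ℝ) ≤ finrank ℂ (hfix ρ 1) := by exact_mod_cast h1
        refine Or.inr (Or.inl (funext fun g => ?_))
        have key := eq_of_inner ρ (fun g => (fx n 1 g : ℝ) - 1) ?_ ?_ g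
        · rw [key]
          push_cast
          rfl
        · have e : ∑ g : Perm (Fin n), ((fx n 1 g : ℝ) - 1) ^ 2 =
              ∑ g : Perm (Fin n), (fx n 1 g : ℝ) * (fx n 1 g : ℝ) - 2 * ∑ g : Perm (Fin n), (fx n 1 g : ℝ) +
                ∑ g : Perm (Fin n), (1 : ℝ) := by
            rw [mul_sum, ← sum_sub_distrib, ← sum_add_distrib]
            refine sum_congr rfl fun g _ => ?_
            ring
          rw [e, m11, m10, m00]
          linarith
        · have e : ∑ g : Perm (Fin n), ((fx n 1 g : ℝ) - 1) * (ρ.character g).re =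
              ∑ g : Perm (Fin n), (fx n 1 g : ℝ) * (ρ.character g).re - ∑ g : Perm (Fin n), (ρ.character g).re := by
            rw [← sum_sub_distrib]
            refine sum_congr rfl fun g _ => ?_
            ring
          rw [e, c1, c0]
          nlinarith
    · have h0' : (1 : ℝ) ≤ finrank ℂ (hfix ρ 0) := by exact_mod_cast h0
      refine Or.inl (funext fun g => ?_)
      have key := eq_of_inner ρ (fun _ => 1) ?_ ?_ g
      · rw [key]
        push_cast
        rfl
      · simp only [one_pow]
        rw [m00]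
      · simp only [one_mul]
        rw [c0]
        nlinarith
  · intro h
    have hne : (0 : ℝ) < (n.factorial : ℝ) * (finrank ℂ (hfix ρ 2) : ℝ) := by
      rw [← c2]
      rcases h with h | h | h
      · rw [h]
        simp only [Complex.one_re, mul_one]
        rw [m20]
        exact hf
      · rw [h]
        have e : ∑ g : Perm (Fin n), (fx n 2 g : ℝ) * ((fx n 1 g : ℂ) - 1).re =
            ∑ g : Perm (Fin n), (fx n 2 g : ℝ) * (fx n 1 g : ℝ) - ∑ g : Perm (Fin n), (fx n 2 g : ℝ) := by
          rw [← sum_sub_distrib]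
          refine sum_congr rfl fun g _ => ?_
          rw [Complex.sub_re, Complex.natCast_re, Complex.one_re]
          ring
        rw [e, m21, m20]
        linarith
      · rw [h]
        have e : ∑ g : Perm (Fin n), (fx n 2 g : ℝ) * ((fx n 2 g : ℂ) - (fx n 1 g : ℂ)).re =
            ∑ g : Perm (Fin n), (fx n 2 g : ℝ) * (fx n 2 g : ℝ) - ∑ g : Perm (Fin n), (fx n 2 g : ℝ) * (fx n 1 g : ℝ) := by
          rw [← sum_sub_distrib]
          refine sum_congr rfl fun g _ => ?_
          rw [Complex.sub_re, Complex.natCast_re, Complex.natCast_re]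
          ring
        rw [e, m22, m21]
        linarith
    have h1 : (0 : ℝ) < finrank ℂ (hfix ρ 2) := by
      rcases (mul_pos_iff_of_pos_left hf).1 hne with h
      exact h
    exact_mod_cast h1

end Pool.Agent.Helper70.TG
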