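import Pool.Agent.Helper70.TG.FIN
import Pool.Agent.Helper70.TG.TH3

/-!
TG-OPT (helper70): the two statements of Theorem F in terms of characters.
-/

set_option autoImplicit false

open Module Equiv CategoryTheory Pool.Agent.Helper1.TS Pool.Agent.Helper70.TU Pool.Agent.Helper51.TN

namespace Pool.Agent.Helper70.TG

/-- An irreducible representation on which the group acts by the sign has the sign as its character. -/
private theorem exists_ne_sign {n : ℕ} (W : FDRep ℂ (Perm (Fin n))) (hW : Simple W)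
    (hne : W.character ≠ (fun g : Perm (Fin n) => ((Perm.sign g : ℤ) : ℂ))) :
    ∃ (g : Perm (Fin n)) (w : W), W.ρ g w ≠ ((Perm.sign g : ℤ) : ℂ) • w := by
  by_contra hcon
  push Not at hcon
  have hirr := irr_of_simple W hW
  have h0 : ∃ w : W, w ≠ 0 := by
    have h1 : 0 < finrank ℂ W := finrank_pos_of_irr W hW
    have h2 : Nontrivial W := finrank_pos_iff.1 h1
    exact exists_ne 0
  obtain ⟨v, hv⟩ := h0
  let p : Subrepresentation W.ρ :=
    { toSubmodule := Submodule.span ℂ {v}
      apply_mem_toSubmodule := fun y z hz => by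
        rw [hcon y z]
        exact Submodule.smul_mem _ _ hz }
  have hp : p = ⊤ := by
    rcases hirr.eq_bot_or_eq_top p with h | h
    · exfalso
      have h2 : v ∈ p.toSubmodule := Submodule.mem_span_singleton_self v
      rw [h] at h2
      exact hv ((Submodule.mem_bot ℂ).1 h2)
    · exact h
  have hspan : Submodule.span ℂ {v} = (⊤ : Submodule ℂ W) := by
    have h1 := congrArg (fun q : Subrepresentation W.ρ => q.toSubmodule) hp
    exact h1
  have hfr : finrank ℂ W = 1 := by
    rw [← finrank_top ℂ W, ← hspan]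
    exact finrank_span_singleton hv
  apply hne
  funext g
  have h1 : W.ρ g = ((Perm.sign g : ℤ) : ℂ) • (1 : W →ₗ[ℂ] W) := by
    refine LinearMap.ext fun w => ?_
    rw [hcon g w]
    rfl
  have h2 : W.character g = LinearMap.trace ℂ W (W.ρ g) := rfl
  rw [h2, h1, map_smul, LinearMap.trace_one, hfr, Nat.cast_one, smul_eq_mul, mul_one]

/-- **Theorem F**, the symmetric square. -/
theorem s_optimal : ∃ N : ℕ, ∀ n ≥ N,
    ∃ V : FDRep ℂ (Perm (Fin n)), Simple V ∧ (∀ g, V.character g = ((Perm.sign g : ℤ) : ℂ) * V.character g) ∧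
      ∀ W : FDRep ℂ (Perm (Fin n)), Simple W →
        W.character ≠ (fun g : Perm (Fin n) => ((Perm.sign g : ℤ) : ℂ)) →
          (∑ g : Perm (Fin n), ((V.character g ^ 2 + V.character (g ^ 2)) / 2) * W.character g⁻¹) ≠ 0 := by
  obtain ⟨N, hN⟩ := final
  refine ⟨N, fun n hn => ?_⟩
  obtain ⟨V, hV, hs, h⟩ := hN n hn
  exact ⟨V, hV, hs, fun W hW hne => ((h W hW).2 (exists_ne_sign W hW hne)).1⟩

/-- **Theorem F**, the exterior square. -/
theorem a_optimal : ∃ N : ℕ, ∀ n ≥ N,
    ∃ V : FDRep ℂ (Perm (Fin n)), Simple V ∧ (∀ g, V.character g = ((Perm.sign g : ℤ) : ℂ) * V.character g) ∧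
      ∀ W : FDRep ℂ (Perm (Fin n)), Simple W →
        W.character ≠ (fun g : Perm (Fin n) => ((Perm.sign g : ℤ) : ℂ)) →
          ((∑ g : Perm (Fin n), ((V.character g ^ 2 - V.character (g ^ 2)) / 2) * W.character g⁻¹) = 0 ↔
            ((W.character = fun _ => 1) ∨
              (W.character = fun g : Perm (Fin n) => ((Finset.univ.filter (fun i : Fin n => g i = i)).card : ℂ) - 1) ∨
              (W.character = fun g : Perm (Fin n) => ((((Finset.univ : Finset (Fin n)).powersetCard 2).filter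
                  (fun s => s.image g = s)).card : ℂ) - ((Finset.univ.filter (fun i : Fin n => g i = i)).card : ℂ)))) := by
  obtain ⟨N, hN⟩ := final
  refine ⟨max N 4, fun n hn => ?_⟩
  obtain ⟨V, hV, hs, h⟩ := hN n ((le_max_left _ _).trans hn)
  refine ⟨V, hV, hs, fun W hW hne => ?_⟩
  have hirr := irr_of_simple W hW
  have h1 := ((h W hW).2 (exists_ne_sign W hW hne)).2
  have h3 := three_chars ((le_max_right _ _).trans hn) W.ρ
  simp only [fx_one] at h3
  have h4 : hfix W.ρ 2 ≠ ⊥ ↔
      ¬ ∀ w : W, w ≠ 0 → ∃ g : Perm (Fin n), (∀ i : Fin n, (i : ℕ) < 2 ↔ (g i : ℕ) < 2) ∧ W.ρ g w ≠ w := by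
    rw [Submodule.ne_bot_iff]
    push Not
    constructor
    · rintro ⟨w, hw, hw0⟩
      exact ⟨w, hw0, hw⟩
    · rintro ⟨w, hw0, hw⟩
      exact ⟨w, hw, hw0⟩
  rw [← not_iff_not, ← Ne, h1, ← not_not (a := ∀ w : W, _), ← h4, h3]
  rfl

end Pool.Agent.Helper70.TG
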