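import Pool.Agent.Helper70.TG.W5
import Pool.Agent.Helper70.TG.W9

/-!
BLOCK TG-W10 (about 220 lines). The bound for Frobenius' sum.

Proof in words.
* `Fro_bound`: by `PC_integral` at the radius `ρ₂` and `int_pow` (`k ≥ 2`) `-(2 π i) k Fro k κ = ∮_{‖w‖ = ρ₂} (PC k κ (T (w + w⁻¹)) - (T w)^k) (T (1 - w⁻²)) dw`. The integrand is bounded on the circle by `(T ρ₂)^k D · T · 2`, `D = 2 (k (2 δ + 2 (k/T)/(1 - ρ⁻¹)))`: by `PC_near` at the points with `w.im ≠ 0`, and at the two real points by continuity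
  (`PC_continuous`; the points of the circle with `w.im ≠ 0` are dense in the circle: `w e^{iθ}`, `θ → 0`). So `2 π k |Fro| ≤ 2 π ρ₂ · 2 T (T ρ₂)^k D` (`circleIntegral.norm_integral_le_of_norm_le_const`).
* `Fro_T`: `T = √n`, `δ = C/√n`, `B = (2 + θ) √n`, `k^5 ≤ n`. `PC_integral` needs `B + k + 1 < T (ρ₂ + ρ₂⁻¹)`: `2 + θ < ρ + ρ⁻¹ < ρ₂ + ρ₂⁻¹`, fine for large `n` as `k ≤ n^{1/5}`. `hk`: `k/T ≤ n^{1/5}/√n → 0`.
  `hs`: `k (2 C/√n + 2 (k/√n)/(1 - ρ⁻¹)) ≤ C' k²/√n ≤ C' n^{-1/10} → 0`. Then `k |Fro| ≤ 2 ρ₂ T (Tρ₂)^k · 2 k (2 C/√n + 2 (k/√n)/(1 - ρ⁻¹)) ≤ C'' k² (T ρ₂)^k`.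
-/

set_option autoImplicit false

open Module Equiv Pool.Agent.Helper51.TF

namespace Pool.Agent.Helper70.TG

theorem Fro_bound {M n : ℕ} (κ : Fin M → ℕ) (hκ : κ ∈ PP M n) (ρ ρ₂ δ T B : ℝ) (k : ℕ) (hk2 : 2 ≤ k) (hρ : 1 < ρ)
    (hρ₂ : ρ < ρ₂) (hT : 0 < T) (hδ : 0 ≤ δ)
    (hδ1 : δ ≤ 1 / 2) (hk : ρ + ρ⁻¹ + k / T ≤ ρ₂ + ρ₂⁻¹) (hsc : SC ρ δ T κ)
    (hs : k * (2 * δ + 2 * (k / T) / (1 - ρ⁻¹)) ≤ 1) (hB : Sml κ B) (hBk : B + k + 1 < T * (ρ₂ + ρ₂⁻¹)) :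
    k * |Fro k κ| ≤ ρ₂ * (2 * T) * ((T * ρ₂) ^ k * (2 * (k * (2 * δ + 2 * (k / T) / (1 - ρ⁻¹))))) := by
  have hρ₂0 : 0 < ρ₂ := by linarith
  have hρ₂1 : 1 < ρ₂ := by linarith
  have hinv : 0 < 1 - ρ⁻¹ := by
    have : ρ⁻¹ < 1 := inv_lt_one_of_one_lt₀ hρ
    linarith
  set D : ℝ := 2 * (k * (2 * δ + 2 * (k / T) / (1 - ρ⁻¹))) with hD
  have hD0 : 0 ≤ D := by positivity
  set E : ℝ := (T * ρ₂) ^ k * D with hE
  have hE0 : 0 ≤ E := by positivity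
  have hne : ∀ w ∈ Metric.sphere (0 : ℂ) ρ₂, w ≠ 0 := by
    intro w hw h0
    rw [h0] at hw
    simp only [mem_sphere_iff_norm, sub_self, norm_zero] at hw
    linarith
  have hPC : ContinuousOn (fun w : ℂ => PC k κ (T * (w + w⁻¹))) (Metric.sphere 0 ρ₂) :=
    (PC_continuous κ k T ρ₂ B hT hρ₂1 hB hBk).mono fun w hw => by
      simp only [mem_sphere_iff_norm, sub_zero] at hw
      exact hw.ge
  have hpw : Continuous (fun w : ℂ => ((T : ℂ) * w) ^ k) := by fun_prop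
  have hfac : ContinuousOn (fun w : ℂ => (T : ℂ) * (1 - (w ^ 2)⁻¹)) (Metric.sphere 0 ρ₂) := by
    refine continuousOn_const.mul (continuousOn_const.sub (ContinuousOn.inv₀ (by fun_prop) fun w hw => ?_))
    exact pow_ne_zero 2 (hne w hw)
  -- the bound on the whole circle
  have hbd : ∀ w ∈ Metric.sphere (0 : ℂ) ρ₂, ‖PC k κ (T * (w + w⁻¹)) - (T * w) ^ k‖ ≤ E := by
    intro w hw
    have hw' : ‖w‖ = ρ₂ := by simpa using hw
    by_cases hi : w.im = 0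
    · have hre : w.re ≠ 0 := fun h => hne w hw (Complex.ext h hi)
      have hmem : ∀ t : ℝ, w * Complex.exp (t * Complex.I) ∈ Metric.sphere (0 : ℂ) ρ₂ := by
        intro t
        rw [mem_sphere_iff_norm, sub_zero, norm_mul, Complex.norm_exp_ofReal_mul_I, mul_one, hw']
      have hcont : Continuous fun t : ℝ => ‖PC k κ (T * (w * Complex.exp (t * Complex.I) +
          (w * Complex.exp (t * Complex.I))⁻¹)) - (T * (w * Complex.exp (t * Complex.I))) ^ k‖ := by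
        have h1 : ContinuousOn (fun w : ℂ => ‖PC k κ (T * (w + w⁻¹)) - ((T : ℂ) * w) ^ k‖)
            (Metric.sphere 0 ρ₂) := (hPC.sub hpw.continuousOn).norm
        exact h1.comp_continuous (by fun_prop) hmem
      have h2 := (hcont.tendsto 0).mono_left (nhdsWithin_le_nhds (s := Set.Ioi (0 : ℝ)))
      simp only [Complex.ofReal_zero, zero_mul, Complex.exp_zero, mul_one] at h2
      refine le_of_tendsto h2 ?_
      filter_upwards [Ioo_mem_nhdsGT Real.pi_pos] with t ht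
      refine PC_near κ ρ ρ₂ δ T k hρ hρ₂ hT hδ hδ1 hk hsc hs _ (by simpa using hmem t) ?_
      rw [Complex.mul_im, Complex.exp_ofReal_mul_I_im, hi, zero_mul, add_zero]
      exact mul_ne_zero hre (Real.sin_pos_of_pos_of_lt_pi ht.1 ht.2).ne'
    · exact PC_near κ ρ ρ₂ δ T k hρ hρ₂ hT hδ hδ1 hk hsc hs w hw' hi
  have hfb : ∀ w ∈ Metric.sphere (0 : ℂ) ρ₂, ‖(T : ℂ) * (1 - (w ^ 2)⁻¹)‖ ≤ 2 * T := by
    intro w hw
    have hw' : ‖w‖ = ρ₂ := by simpa using hw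
    rw [norm_mul, Complex.norm_real, Real.norm_eq_abs, abs_of_pos hT]
    have h1 : ‖(1 : ℂ) - (w ^ 2)⁻¹‖ ≤ 1 + 1 := by
      refine (norm_sub_le _ _).trans ?_
      rw [norm_one, norm_inv, norm_pow, hw']
      have : (ρ₂ ^ 2)⁻¹ ≤ 1 := inv_le_one_of_one_le₀ (by nlinarith)
      linarith
    nlinarith
  have hF : CircleIntegrable (fun w : ℂ => PC k κ (T * (w + w⁻¹)) * (T * (1 - (w ^ 2)⁻¹))) 0 ρ₂ :=
    (hPC.mul hfac).circleIntegrable hρ₂0.le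
  have hG : CircleIntegrable (fun w : ℂ => (T * w) ^ k * (T * (1 - (w ^ 2)⁻¹))) 0 ρ₂ :=
    (hpw.continuousOn.mul hfac).circleIntegrable hρ₂0.le
  have hG0 : (∮ w in C(0, ρ₂), (T * w) ^ k * (T * (1 - (w ^ 2)⁻¹))) = 0 := by
    have h1 : ∀ w : ℂ, ((T : ℂ) * w) ^ k * (T * (1 - (w ^ 2)⁻¹)) =
        ((T : ℂ) ^ k * T) * (w ^ k * (1 - (w ^ 2)⁻¹)) := by
      intro w
      rw [mul_pow]
      ring
    simp only [h1]
    rw [circleIntegral.integral_const_mul, int_pow k hk2 ρ₂ hρ₂0, mul_zero]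
  have hI := PC_integral κ hκ k T ρ₂ B hT hρ₂1 hB hBk
  have hsub := circleIntegral.integral_sub hF hG
  rw [hG0, hI, sub_zero] at hsub
  have hnorm := circleIntegral.norm_integral_le_of_norm_le_const (c := (0 : ℂ)) (R := ρ₂)
    (C := E * (2 * T))
    (f := fun w : ℂ => PC k κ (T * (w + w⁻¹)) * (T * (1 - (w ^ 2)⁻¹)) - (T * w) ^ k * (T * (1 - (w ^ 2)⁻¹)))
    hρ₂0.le (fun w hw => by
      rw [← sub_mul, norm_mul]
      exact mul_le_mul (hbd w hw) (hfb w hw) (norm_nonneg _) hE0)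
  rw [hsub, norm_neg] at hnorm
  have h2 : ‖(2 * Real.pi * Complex.I * (k * Fro k κ : ℝ) : ℂ)‖ = 2 * Real.pi * (k * |Fro k κ|) := by
    rw [norm_mul, norm_mul, norm_mul, Complex.norm_I, Complex.norm_real, Complex.norm_real,
      Real.norm_eq_abs, Real.norm_eq_abs, abs_of_pos Real.pi_pos, abs_mul, Nat.abs_cast]
    simp
  rw [h2] at hnorm
  have hpi := Real.pi_pos
  have h3 : 2 * Real.pi * (k * |Fro k κ|) ≤ 2 * Real.pi * (ρ₂ * (2 * T) * E) := by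
    calc 2 * Real.pi * (k * |Fro k κ|) ≤ 2 * Real.pi * ρ₂ * (E * (2 * T)) := hnorm
      _ = _ := by ring
  exact le_of_mul_le_mul_left h3 (by positivity)

theorem Fro_T (ρ ρ₂ θ C : ℝ) (hρ : 1 < ρ) (hρ₂ : ρ < ρ₂) (hθ : 0 < θ) (hθρ : 2 + θ < ρ + ρ⁻¹) (hC : 0 < C) :
    ∃ C' : ℝ, 0 < C' ∧ ∃ n₀ : ℕ, ∀ n ≥ n₀, ∀ M : ℕ, ∀ κ ∈ PP M n,
      Sml κ ((2 + θ) * Real.sqrt n) → SC ρ (C / Real.sqrt n) (Real.sqrt n) κ →
        ∀ k : ℕ, 2 ≤ k → (k : ℝ) ^ 5 ≤ n → |Fro k κ| ≤ C' * k * (Real.sqrt n * ρ₂) ^ k := by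
  have hρ0 : 0 < ρ := by linarith
  have hρ₂0 : 0 < ρ₂ := by linarith
  have hinv : 0 < 1 - ρ⁻¹ := by
    have : ρ⁻¹ < 1 := inv_lt_one_of_one_lt₀ hρ
    linarith
  have hg : 0 < (ρ₂ + ρ₂⁻¹) - (ρ + ρ⁻¹) := by
    have h1 : (ρ₂ + ρ₂⁻¹) - (ρ + ρ⁻¹) = (ρ₂ - ρ) * (ρ * ρ₂ - 1) / (ρ * ρ₂) := by
      field_simp
      ring
    rw [h1]
    have h2 : 0 < ρ * ρ₂ - 1 := by nlinarith
    have h3 : 0 < ρ₂ - ρ := by linarith
    positivity
  set g : ℝ := (ρ₂ + ρ₂⁻¹) - (ρ + ρ⁻¹) with hgd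
  set K : ℝ := 2 * C + 2 / (1 - ρ⁻¹) with hK
  have hK0 : 0 < K := by positivity
  set ε : ℝ := min g K⁻¹ with hε
  have hε0 : 0 < ε := lt_min hg (inv_pos.2 hK0)
  set L : ℝ := max (max 1 (2 * C)) ((ε ^ 5)⁻¹) with hL
  have hL0 : 0 ≤ L := le_trans zero_le_one ((le_max_left _ _).trans (le_max_left _ _))
  refine ⟨4 * ρ₂ * K, by positivity, ⌈L ^ 2⌉₊, ?_⟩
  intro n hn M κ hκ hSml hSC k hk2 hk5
  have hnL : L ≤ Real.sqrt n := by
    refine Real.le_sqrt_of_sq_le ?_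
    exact (Nat.le_ceil _).trans (by exact_mod_cast hn)
  have hT1 : 1 ≤ Real.sqrt n := ((le_max_left _ _).trans (le_max_left _ _)).trans hnL
  have hT2 : 2 * C ≤ Real.sqrt n := ((le_max_right _ _).trans (le_max_left _ _)).trans hnL
  have hT3 : (ε ^ 5)⁻¹ ≤ Real.sqrt n := (le_max_right _ _).trans hnL
  set T : ℝ := Real.sqrt n with hTd
  have hT0 : 0 < T := by linarith
  have hTT : T ^ 2 = n := Real.sq_sqrt (Nat.cast_nonneg n)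
  have hkR : (2 : ℝ) ≤ k := by exact_mod_cast hk2
  -- the main smallness
  have hkk : (k : ℝ) ^ 2 ≤ ε * T := by
    have h1 : ((k : ℝ) ^ 2) ^ 5 ≤ (ε * T) ^ 5 := by
      have h2 : (1 : ℝ) ≤ ε ^ 5 * T := by
        have := mul_le_mul_of_nonneg_left hT3 (by positivity : (0 : ℝ) ≤ ε ^ 5)
        rwa [mul_inv_cancel₀ (by positivity)] at this
      calc ((k : ℝ) ^ 2) ^ 5 = ((k : ℝ) ^ 5) ^ 2 := by ring
        _ ≤ (n : ℝ) ^ 2 := by gcongr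
        _ = T ^ 4 * 1 := by rw [← hTT]; ring
        _ ≤ T ^ 4 * (ε ^ 5 * T) := by gcongr
        _ = (ε * T) ^ 5 := by ring
    exact le_of_pow_le_pow_left₀ (by norm_num) (by positivity) h1
  have hkg : (k : ℝ) ^ 2 ≤ g * T := hkk.trans (by gcongr; exact min_le_left _ _)
  have hkK : K * (k : ℝ) ^ 2 ≤ T := by
    have h1 : (k : ℝ) ^ 2 ≤ K⁻¹ * T := hkk.trans (by gcongr; exact min_le_right _ _)
    calc K * (k : ℝ) ^ 2 ≤ K * (K⁻¹ * T) := by gcongr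
      _ = T := by field_simp
  have hk1 : (k : ℝ) / T ≤ g := by
    rw [div_le_iff₀ hT0]
    nlinarith
  have hsum : (k : ℝ) * (2 * (C / T) + 2 * (k / T) / (1 - ρ⁻¹)) ≤ K * (k : ℝ) ^ 2 / T := by
    have h1 : (k : ℝ) * (2 * (C / T) + 2 * (k / T) / (1 - ρ⁻¹)) =
        (2 * C * k + 2 / (1 - ρ⁻¹) * k ^ 2) / T := by
      field_simp
    have hk3 : (k : ℝ) ≤ (k : ℝ) ^ 2 := by nlinarith
    have h5 := mul_le_mul_of_nonneg_left hk3 (by positivity : (0 : ℝ) ≤ 2 * C)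
    rw [h1, hK]
    gcongr
    rw [add_mul]
    linarith
  have hB := Fro_bound κ hκ ρ ρ₂ (C / T) T ((2 + θ) * T) k hk2 hρ hρ₂ hT0 (by positivity)
    (by rw [div_le_iff₀ hT0]; linarith) (by linarith) hSC
    (hsum.trans (by rw [div_le_one hT0]; exact hkK)) hSml (by
      have h1 : (2 + θ) * T < (ρ + ρ⁻¹) * T := by gcongr
      have h2 : g * T = T * (ρ₂ + ρ₂⁻¹) - (ρ + ρ⁻¹) * T := by rw [hgd]; ring
      nlinarith)
  have h4 : (k : ℝ) * |Fro k κ| ≤ k * (4 * ρ₂ * K * k * (T * ρ₂) ^ k) := by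
    refine hB.trans ?_
    calc ρ₂ * (2 * T) * ((T * ρ₂) ^ k * (2 * (k * (2 * (C / T) + 2 * (k / T) / (1 - ρ⁻¹)))))
        ≤ ρ₂ * (2 * T) * ((T * ρ₂) ^ k * (2 * (K * (k : ℝ) ^ 2 / T))) := by gcongr
      _ = k * (4 * ρ₂ * K * k * (T * ρ₂) ^ k) := by
        field_simp
        ring
  exact le_of_mul_le_mul_left h4 (by linarith)

end Pool.Agent.Helper70.TG
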