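import Pool.Agent.Helper1.DL.Glue
import Pool.Agent.Helper1.DL.Final
import Pool.Agent.Helper67.DP.R2
import Pool.Agent.Helper67.DP.D2
import Pool.Agent.Helper97.TF6.Main
import Pool.Agent.Helper70.TG.W10
import Pool.Agent.Helper51.TF.H11
import Pool.Agent.Helper51.TF.R2

/-!
TG-SHP (helper70): existence of the partition used for Theorem F, from the parts of helper1, helper67, helper97.
-/

set_option autoImplicit false

open Module Equiv Pool.Agent.Helper1.TS Pool.Agent.Helper70.TU Pool.Agent.Helper51.TN Pool.Agent.Helper51.TF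
  Pool.Agent.Helper1.DL Pool.Agent.Helper67.DP

namespace Pool.Agent.Helper70.TG

private theorem log_small (L : ℝ) : ∃ n₀ : ℕ, ∀ n ≥ n₀, ∀ k : ℕ, (k : ℝ) ≤ L * Real.log n → (k : ℝ) ^ 5 ≤ n := by
  have h1 := (Real.isLittleO_pow_log_id_atTop (n := 5)).bound (show (0 : ℝ) < 1 / (|L| + 1) ^ 5 by positivity)
  have h3 : ∀ᶠ x : ℝ in Filter.atTop, (1 : ℝ) ≤ x := Filter.eventually_ge_atTop 1
  obtain ⟨n₀, hn₀⟩ := Filter.eventually_atTop.1 ((tendsto_natCast_atTop_atTop (R := ℝ)).eventually (h1.and h3))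
  refine ⟨n₀, fun n hn k hk => ?_⟩
  obtain ⟨e1, e2⟩ := hn₀ n hn
  have hn1 : (0 : ℝ) < n := by linarith
  have e3 : 0 ≤ Real.log n := Real.log_nonneg e2
  rw [id, Real.norm_of_nonneg (by positivity), Real.norm_of_nonneg hn1.le] at e1
  have h4 : (k : ℝ) ≤ (|L| + 1) * Real.log n := by
    refine hk.trans (mul_le_mul_of_nonneg_right ?_ e3)
    have := le_abs_self L
    linarith
  have h5 := pow_le_pow_left₀ (Nat.cast_nonneg k) h4 5
  refine h5.trans ?_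
  rw [mul_pow]
  have h6 : (|L| + 1) ^ 5 * (1 / (|L| + 1) ^ 5 * (n : ℝ)) = n := by
    have : (|L| + 1) ^ 5 ≠ 0 := by positivity
    field_simp
  exact (mul_le_mul_of_nonneg_left e1 (by positivity)).trans h6.le

/-- The partition. -/
theorem exists_shape (w u : ℝ) (hw0 : 0 < w) (hw1 : w < 1) (hu0 : 0 < u) (hu1 : u < 1) :
    ∃ A : ℝ, 1 ≤ A ∧ ∃ n₀ : ℕ, ∀ n ≥ n₀, ∃ N ≥ n, ∃ κ : Fin N → ℕ, κ ∈ PP N n ∧ conjP κ = κ ∧ WF N n κ ∧
      (∀ (V : Type) [AddCommGroup V] [Module ℂ V] [FiniteDimensional ℂ V] (ρ : Representation ℂ (Perm (Fin n)) V),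
        Lab ρ κ → Real.sqrt n ≤ (CC ρ).card) ∧
      ∑ g : Perm (Fin n), (rr (hw n κ) g) ^ 2 * w ^ g.support.card ≤ A ∧
      (n.factorial : ℝ) * u ^ n ≤ A * (ff n κ) ^ 2 := by
  obtain ⟨C, hC, n₁, hgood⟩ := exists_good
  obtain ⟨K, n₂, hRR⟩ := RR_le C
  obtain ⟨η, hη, L0, hL0, u', hu'0, hu'1, hS6⟩ := Pool.Agent.Helper97.TF6.S6 hw0 hw1 (K : ℝ)
  set ρ : ℝ := Real.exp (η / 4) with hρd
  set ρ₂ : ℝ := Real.exp (η / 2) with hρ₂d
  have hρ : 1 < ρ := by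
    rw [hρd]
    exact Real.one_lt_exp_iff.2 (by linarith)
  have hρ₂ : ρ < ρ₂ := by
    rw [hρd, hρ₂d]
    exact Real.exp_lt_exp.2 (by linarith)
  have hsum : 2 < ρ + ρ⁻¹ := by
    have h0 : 0 < ρ := by linarith
    have h1 : ρ + ρ⁻¹ - 2 = (ρ - 1) ^ 2 / ρ := by
      field_simp
      ring
    have h2 : 0 < (ρ - 1) ^ 2 / ρ := div_pos (pow_pos (by linarith) 2) h0
    linarith
  set θ : ℝ := (ρ + ρ⁻¹ - 2) / 2 with hθd
  have hθ : 0 < θ := by rw [hθd]; linarith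
  have hθρ : 2 + θ < ρ + ρ⁻¹ := by rw [hθd]; linarith
  obtain ⟨K', hK', n₃, hSC⟩ := shp_SC hC ρ hρ
  obtain ⟨n₄, hSml⟩ := shp_Sml hC θ hθ
  obtain ⟨C', hC', n₅, hFro⟩ := Fro_T ρ ρ₂ θ K' hρ hρ₂ hθ hθρ hK'
  obtain ⟨A₀, hA₀, n₆, hdim⟩ := dim_le C u' hu'0 hu'1
  obtain ⟨A₁, hA₁, n₇, hdim'⟩ := dim_le C u hu0 hu1
  obtain ⟨n₈, hcomb⟩ := shp_comb hC
  obtain ⟨n₉, hlog⟩ := log_small L0
  set A₂ : ℝ := max 1 (max (C' * (2 / η)) A₀) with hA₂
  obtain ⟨A', hA'1, n₁₀, hfin⟩ := hS6 A₂ (le_max_left _ _)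
  refine ⟨max A' A₁, hA'1.trans (le_max_left _ _),
    max (max (max n₁ n₂) (max n₃ n₄)) (max (max (max n₅ n₆) (max n₇ n₈)) (max (max n₉ n₁₀) 1)), fun n hn => ?_⟩
  simp only [ge_iff_le, max_le_iff] at hn
  obtain ⟨⟨⟨hn1, hn2⟩, hn3, hn4⟩, ⟨⟨hn5, hn6⟩, hn7, hn8⟩, ⟨hn9, hn10⟩, hn11⟩ := hn
  obtain ⟨A, hA⟩ := hgood n hn1
  have hN : n < n + 1 := Nat.lt_succ_self n
  obtain ⟨hmem, hconj, hWF, hCC⟩ := hcomb n hn8 (n + 1) hN A hA
  have hanti := (mem_PP.1 hmem).1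
  have hnR : (0 : ℝ) < n := by exact_mod_cast hn11
  have hs : 0 < Real.sqrt n := Real.sqrt_pos.2 hnR
  have hbs : Pool.Agent.Helper97.TF6.bs (shp (n + 1) A) = XB (n + 1) A := image_bd_shp (hA.lt hN)
  refine ⟨n + 1, Nat.le_succ n, shp (n + 1) A, hmem, hconj, hWF, hCC, ?_, ?_⟩
  · refine le_trans (hfin n hn10 (n + 1) (Nat.le_succ n) (shp (n + 1) A) hmem ?_ ?_ ?_) (le_max_left _ _)
    · intro k hk2 hkL
      rw [Pool.Agent.Helper97.TF6.pk_eq_Fro _ hanti, abs_div, abs_of_pos (pow_pos hs k), div_le_iff₀ (pow_pos hs k)]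
      have h1 := hFro n hn5 (n + 1) (shp (n + 1) A) hmem (hSml n hn4 (n + 1) hN A hA) (hSC n hn3 (n + 1) hN A hA)
        k hk2 (hlog n hn9 k hkL)
      refine h1.trans ?_
      rw [mul_pow]
      have h2 : (k : ℝ) * ρ₂ ^ k ≤ 2 / η * Real.exp (η * k) := by
        have e1 : ρ₂ ^ k = Real.exp (η * k / 2) := by
          rw [hρ₂d, ← Real.exp_nat_mul]
          congr 1
          ring
        have e2 : Real.exp (η * k) = Real.exp (η * k / 2) * Real.exp (η * k / 2) := by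
          rw [← Real.exp_add]
          congr 1
          ring
        have e3 : η * k / 2 ≤ Real.exp (η * k / 2) := by
          have := Real.add_one_le_exp (η * k / 2)
          linarith
        rw [e1, e2]
        have e4 : (k : ℝ) ≤ 2 / η * Real.exp (η * k / 2) := by
          rw [div_mul_eq_mul_div, le_div_iff₀ hη]
          linarith
        have e5 := mul_le_mul_of_nonneg_right e4 (Real.exp_pos (η * k / 2)).le
        linarith
      have h3 : C' * (2 / η) ≤ A₂ := (le_max_left _ _).trans (le_max_right _ _)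
      calc C' * k * (Real.sqrt n ^ k * ρ₂ ^ k) = C' * (k * ρ₂ ^ k) * Real.sqrt n ^ k := by ring
        _ ≤ C' * (2 / η * Real.exp (η * k)) * Real.sqrt n ^ k := by
            gcongr
        _ = C' * (2 / η) * Real.exp (η * k) * Real.sqrt n ^ k := by ring
        _ ≤ A₂ * Real.exp (η * k) * Real.sqrt n ^ k := by
            gcongr
    · rw [hbs, Real.rpow_natCast]
      exact hRR n hn2 (n + 1) hN A hA
    · refine (hdim n hn6 (n + 1) hN A hA).trans (mul_le_mul_of_nonneg_right ?_ (sq_nonneg _))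
      exact (le_max_right _ _).trans (le_max_right _ _)
  · refine (hdim' n hn7 (n + 1) hN A hA).trans (mul_le_mul_of_nonneg_right (le_max_right _ _) (sq_nonneg _))

end Pool.Agent.Helper70.TG
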