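import Mathlib

/-!
BLOCK TG-TH1 (about 120 lines). Only Mathlib. Burnside for pairs of subsets.

Proof in words.
* `exists_perm_sets`: the map `x ↦ (x ∈ A, x ∈ B)` to `Bool × Bool` (or `Prop`-valued with `decide`) and the same map for `A', B'`
  have fibres of equal cardinalities: `|A ∩ B|`, `|A| - |A ∩ B|`, `|B| - |A ∩ B|`, `n - |A ∪ B|`. `Equiv.ofFiberEquiv` with
  `Fintype.equivOfCardEq` on the fibres gives `g`.
* `sum_fx_fx`: Burnside (`MulAction.sum_card_fixedBy_eq_card_orbits_mul_card_group`) for the action of `Perm (Fin n)` on the set of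
  pairs `(A, B)`, `|A| = j`, `|B| = k` (a subtype of `Finset (Fin n) × Finset (Fin n)`, action by `image`; define the `MulAction` by hand);
  the fixed points of `g` are the product of the two sets counted by `fx`. The orbits are in bijection with `Fin (k+1)` by
  `(A, B) ↦ |A ∩ B|`: well defined, injective by `exists_perm_sets`, surjective: take `A` the first `j` points and `B` the union of
  `i` points of `A` and `k - i` points of the complement (`j + k ≤ n`).
-/

set_option autoImplicit false

open Finset Equiv

namespace Pool.Agent.Helper70.TG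

/-- The number of `k`-element subsets fixed by `g`. -/
def fx (n k : ℕ) (g : Perm (Fin n)) : ℕ :=
  (((univ : Finset (Fin n)).powersetCard k).filter (fun s => s.image g = s)).card

theorem fx_zero (n : ℕ) (g : Perm (Fin n)) : fx n 0 g = 1 := by
  unfold fx
  rw [Finset.powersetCard_zero, Finset.filter_singleton]
  simp

theorem fx_one (n : ℕ) (g : Perm (Fin n)) : fx n 1 g = (univ.filter (fun i : Fin n => g i = i)).card := by
  unfold fx
  rw [Finset.powersetCard_one, Finset.filter_map, Finset.card_map]
  congr 1
  ext i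
  simp

theorem fx_inv (n k : ℕ) (g : Perm (Fin n)) : fx n k g⁻¹ = fx n k g := by
  unfold fx
  congr 1
  refine Finset.filter_congr fun s _ => ?_
  have h1 : ∀ g : Perm (Fin n), s.image g = s → s.image (g⁻¹ : Perm (Fin n)) = s := by
    intro g h
    conv_lhs => rw [← h]
    rw [Finset.image_image]
    have h2 : ((g⁻¹ : Perm (Fin n)) : Fin n → Fin n) ∘ (g : Fin n → Fin n) = id := by
      funext x
      simp
    rw [h2, Finset.image_id]
  constructor
  · intro h
    have h2 := h1 g⁻¹ h
    rwa [inv_inv] at h2
  · exact h1 g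

private def ty67 {n : ℕ} (A B : Finset (Fin n)) (x : Fin n) : Bool × Bool := (decide (x ∈ A), decide (x ∈ B))

private theorem card_fib67 {n : ℕ} (A B : Finset (Fin n)) (c : Bool × Bool) :
    Fintype.card {x // ty67 A B x = c} =
      match c with
      | (true, true) => (A ∩ B).card
      | (true, false) => A.card - (A ∩ B).card
      | (false, true) => B.card - (A ∩ B).card
      | (false, false) => n - (A.card + B.card - (A ∩ B).card) := by
  rw [Fintype.card_subtype]
  rcases c with ⟨a, b⟩
  cases a <;> cases b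
  · have h1 : (univ.filter fun x => ty67 A B x = (false, false)) = (A ∪ B)ᶜ := by
      ext x
      simp [ty67]
    rw [h1, Finset.card_compl, Fintype.card_fin]
    have h2 := Finset.card_union_add_card_inter A B
    show n - (A ∪ B).card = n - (A.card + B.card - (A ∩ B).card)
    congr 1
    omega
  · have h1 : (univ.filter fun x => ty67 A B x = (false, true)) = B \ A := by
      ext x
      simp [ty67, and_comm]
    rw [h1]
    have h2 := Finset.card_sdiff_add_card_inter B A
    rw [Finset.inter_comm B A] at h2
    show (B \ A).card = B.card - (A ∩ B).card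
    omega
  · have h1 : (univ.filter fun x => ty67 A B x = (true, false)) = A \ B := by
      ext x
      simp [ty67]
    rw [h1]
    have h2 := Finset.card_sdiff_add_card_inter A B
    show (A \ B).card = A.card - (A ∩ B).card
    omega
  · have h1 : (univ.filter fun x => ty67 A B x = (true, true)) = A ∩ B := by
      ext x
      simp [ty67]
    rw [h1]

theorem exists_perm_sets {n : ℕ} (A B A' B' : Finset (Fin n)) (hA : A.card = A'.card) (hB : B.card = B'.card)
    (hAB : (A ∩ B).card = (A' ∩ B').card) : ∃ g : Perm (Fin n), A.image g = A' ∧ B.image g = B' := by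
  have hc : ∀ c, Fintype.card {x // ty67 A B x = c} = Fintype.card {x // ty67 A' B' x = c} := by
    intro c
    rw [card_fib67, card_fib67, hA, hB, hAB]
  let g : Perm (Fin n) := Equiv.ofFiberEquiv (f := ty67 A B) (g := ty67 A' B') fun c =>
    Fintype.equivOfCardEq (hc c)
  have hg : ∀ x, ty67 A' B' (g x) = ty67 A B x := fun x => Equiv.ofFiberEquiv_map _ x
  have hgA : ∀ x, g x ∈ A' ↔ x ∈ A := by
    intro x
    have h1 := congrArg Prod.fst (hg x)
    simpa [ty67] using h1
  have hgB : ∀ x, g x ∈ B' ↔ x ∈ B := by
    intro x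
    have h1 := congrArg Prod.snd (hg x)
    simpa [ty67] using h1
  refine ⟨g, ?_, ?_⟩
  · ext y
    rw [Finset.mem_image]
    constructor
    · rintro ⟨x, hx, rfl⟩
      exact (hgA x).2 hx
    · intro hy
      refine ⟨g.symm y, ?_, g.apply_symm_apply y⟩
      rw [← hgA, g.apply_symm_apply]
      exact hy
  · ext y
    rw [Finset.mem_image]
    constructor
    · rintro ⟨x, hx, rfl⟩
      exact (hgB x).2 hx
    · intro hy
      refine ⟨g.symm y, ?_, g.apply_symm_apply y⟩
      rw [← hgB, g.apply_symm_apply]
      exact hy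

private def PS67 (n j k : ℕ) : Type :=
  {p : Finset (Fin n) × Finset (Fin n) // p.1.card = j ∧ p.2.card = k}

private instance (n j k : ℕ) : DecidableEq (PS67 n j k) := by
  unfold PS67; infer_instance

private instance (n j k : ℕ) : Fintype (PS67 n j k) := by
  unfold PS67; infer_instance

private instance (n j k : ℕ) : MulAction (Perm (Fin n)) (PS67 n j k) where
  smul g p := ⟨(p.1.1.image g, p.1.2.image g), by
    rw [Finset.card_image_of_injective _ g.injective, Finset.card_image_of_injective _ g.injective]
    exact p.2⟩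
  one_smul p := by
    refine Subtype.ext (Prod.ext ?_ ?_)
    · show p.1.1.image (1 : Perm (Fin n)) = p.1.1
      rw [Equiv.Perm.coe_one, Finset.image_id]
    · show p.1.2.image (1 : Perm (Fin n)) = p.1.2
      rw [Equiv.Perm.coe_one, Finset.image_id]
  mul_smul g h p := by
    refine Subtype.ext (Prod.ext ?_ ?_)
    · show p.1.1.image (g * h : Perm (Fin n)) = (p.1.1.image h).image g
      rw [Finset.image_image, Equiv.Perm.coe_mul]
    · show p.1.2.image (g * h : Perm (Fin n)) = (p.1.2.image h).image g
      rw [Finset.image_image, Equiv.Perm.coe_mul]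

private theorem smul_fst67 {n j k : ℕ} (g : Perm (Fin n)) (p : PS67 n j k) : (g • p).1.1 = p.1.1.image g := rfl

private theorem smul_snd67 {n j k : ℕ} (g : Perm (Fin n)) (p : PS67 n j k) : (g • p).1.2 = p.1.2.image g := rfl

private theorem card_fixedBy67 {n j k : ℕ} (g : Perm (Fin n)) :
    Fintype.card (MulAction.fixedBy (PS67 n j k) g) = fx n j g * fx n k g := by
  unfold fx
  rw [← Finset.card_product, ← Fintype.card_coe]
  refine Fintype.card_congr ⟨fun p => ⟨p.1.1, ?_⟩, fun q => ⟨⟨q.1, ?_⟩, ?_⟩, fun p => rfl, fun q => rfl⟩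
  · have h1 : g • p.1 = p.1 := p.2
    rw [Finset.mem_product, Finset.mem_filter, Finset.mem_filter, Finset.mem_powersetCard, Finset.mem_powersetCard]
    refine ⟨⟨⟨Finset.subset_univ _, p.1.2.1⟩, ?_⟩, ⟨⟨Finset.subset_univ _, p.1.2.2⟩, ?_⟩⟩
    · rw [← smul_fst67, h1]
    · rw [← smul_snd67, h1]
  · have h1 := q.2
    rw [Finset.mem_product, Finset.mem_filter, Finset.mem_filter, Finset.mem_powersetCard,
      Finset.mem_powersetCard] at h1
    exact ⟨h1.1.1.2, h1.2.1.2⟩
  · have h1 := q.2
    rw [Finset.mem_product, Finset.mem_filter, Finset.mem_filter, Finset.mem_powersetCard,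
      Finset.mem_powersetCard] at h1
    exact Subtype.ext (Prod.ext h1.1.2 h1.2.2)

private theorem card_Ico67 {n a b : ℕ} (hb : b ≤ n) :
    ((univ : Finset (Fin n)).filter fun x : Fin n => a ≤ (x : ℕ) ∧ (x : ℕ) < b).card = b - a := by
  have h1 : ((univ : Finset (Fin n)).filter fun x : Fin n => a ≤ (x : ℕ) ∧ (x : ℕ) < b).map Fin.valEmbedding =
      Finset.Ico a b := by
    ext x
    simp only [Finset.mem_map, Finset.mem_filter, Finset.mem_univ, true_and, Fin.valEmbedding_apply,
      Finset.mem_Ico]
    constructor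
    · rintro ⟨y, hy, rfl⟩
      exact hy
    · intro hx
      exact ⟨⟨x, by omega⟩, hx, rfl⟩
  rw [← Finset.card_map Fin.valEmbedding, h1, Nat.card_Ico]

private theorem card_orb67 {n j k : ℕ} (hk : k ≤ j) (hn : j + k ≤ n)
    [Fintype (Quotient (MulAction.orbitRel (Perm (Fin n)) (PS67 n j k)))] :
    Fintype.card (Quotient (MulAction.orbitRel (Perm (Fin n)) (PS67 n j k))) = k + 1 := by
  have hinv : ∀ (g : Perm (Fin n)) (p : PS67 n j k), ((g • p).1.1 ∩ (g • p).1.2).card = (p.1.1 ∩ p.1.2).card := by
    intro g p
    rw [smul_fst67, smul_snd67, ← Finset.image_inter _ _ g.injective,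
      Finset.card_image_of_injective _ g.injective]
  have hlt : ∀ p : PS67 n j k, (p.1.1 ∩ p.1.2).card < k + 1 := by
    intro p
    have h1 := Finset.card_le_card (Finset.inter_subset_right (s₁ := p.1.1) (s₂ := p.1.2))
    rw [p.2.2] at h1
    omega
  let φ : Quotient (MulAction.orbitRel (Perm (Fin n)) (PS67 n j k)) → Fin (k + 1) :=
    Quotient.lift (fun p => ⟨(p.1.1 ∩ p.1.2).card, hlt p⟩) (by
      intro p q hpq
      obtain ⟨g, hg⟩ := MulAction.orbitRel_apply.1 hpq
      refine Fin.ext ?_
      show (p.1.1 ∩ p.1.2).card = (q.1.1 ∩ q.1.2).card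
      rw [← hg]
      exact hinv g q)
  have hφ : Function.Bijective φ := by
    constructor
    · intro x y
      refine Quotient.inductionOn₂ x y fun p q hpq => ?_
      refine Quotient.sound ?_
      have h1 : (p.1.1 ∩ p.1.2).card = (q.1.1 ∩ q.1.2).card := congrArg Fin.val hpq
      obtain ⟨g, hg1, hg2⟩ := exists_perm_sets q.1.1 q.1.2 p.1.1 p.1.2 (q.2.1.trans p.2.1.symm)
        (q.2.2.trans p.2.2.symm) h1.symm
      exact MulAction.orbitRel_apply.2 ⟨g, Subtype.ext (Prod.ext hg1 hg2)⟩
    · intro i
      have hi : (i : ℕ) ≤ k := Nat.lt_succ_iff.1 i.2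
      let A : Finset (Fin n) := univ.filter fun x : Fin n => 0 ≤ (x : ℕ) ∧ (x : ℕ) < j
      let B : Finset (Fin n) := univ.filter fun x : Fin n => j - i ≤ (x : ℕ) ∧ (x : ℕ) < j - i + k
      have hA : A.card = j := by
        rw [card_Ico67 (by omega)]
        omega
      have hB : B.card = k := by
        rw [card_Ico67 (by omega)]
        omega
      have hAB : (A ∩ B).card = i := by
        have h1 : A ∩ B = univ.filter fun x : Fin n => j - i ≤ (x : ℕ) ∧ (x : ℕ) < j := by
          ext x
          simp only [A, B, Finset.mem_inter, Finset.mem_filter, Finset.mem_univ, true_and]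
          omega
        rw [h1, card_Ico67 (by omega)]
        omega
      refine ⟨Quotient.mk _ ⟨(A, B), hA, hB⟩, ?_⟩
      exact Fin.ext hAB
  rw [Fintype.card_of_bijective hφ, Fintype.card_fin]

theorem sum_fx_fx {n j k : ℕ} (hk : k ≤ j) (hn : j + k ≤ n) :
    ∑ g : Perm (Fin n), fx n j g * fx n k g = (k + 1) * n.factorial := by
  classical
  have h1 := MulAction.sum_card_fixedBy_eq_card_orbits_mul_card_group (Perm (Fin n)) (PS67 n j k)
  rw [card_orb67 hk hn, Fintype.card_perm, Fintype.card_fin] at h1
  rw [← h1]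
  refine Finset.sum_congr rfl fun g _ => ?_
  rw [← card_fixedBy67]

end Pool.Agent.Helper70.TG
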