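import Pool.Agent.Helper70.TG.TH1

/-!
BLOCK TG-TH2 (about 100 lines). Vectors fixed by the stabilizer of a subset. Only Mathlib (and `fx`, `exists_perm_sets` of `TH1`).

Proof in words. `H` = the subgroup of the `g` with `i < k ↔ g i < k` for all `i` (the stabilizer of the set `S₀` of the first `k` points).
The average of the character of `ρ` over `H` is the dimension of the invariants of `ρ.comp H.subtype`
(`FDRep.average_char_eq_finrank_invariants` or its version for `Representation`), which are `hfix ρ k`. So
`∑_{g ∈ H} χ(g) = |H| finrank (hfix ρ k)`.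
`∑_g fx(g) χ(g) = ∑_{S, |S| = k} ∑_{g : g S = S} χ(g)`; for each `S` there is `x` with `x S₀ = S` (`exists_perm_sets` with `A = B`), and
`g ↦ x g x⁻¹` maps `H` onto `{g : g S = S}`; `χ(x g x⁻¹) = χ(g)`. So the sum is `binom(n, k) |H| finrank (hfix ρ k)`, and
`binom(n, k) |H| = n!`: the same identity for the trivial representation... or directly: `n! = ∑_S #{g : g S₀ = S}`
and each of these sets is a coset of `H`.
-/

set_option autoImplicit false

open Finset Equiv Module

namespace Pool.Agent.Helper70.TG

variable {V : Type} [AddCommGroup V] [Module ℂ V] [FiniteDimensional ℂ V]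

/-- The vectors fixed by the permutations which preserve the set of the first `k` points. -/
def hfix {n : ℕ} (ρ : Representation ℂ (Perm (Fin n)) V) (k : ℕ) : Submodule ℂ V where
  carrier := {v | ∀ g : Perm (Fin n), (∀ i : Fin n, (i : ℕ) < k ↔ (g i : ℕ) < k) → ρ g v = v}
  add_mem' := fun ha hb g hg => by rw [map_add, ha g hg, hb g hg]
  zero_mem' := fun g _ => map_zero _
  smul_mem' := fun c v hv g hg => by rw [map_smul, hv g hg]

private def S26 (n k : ℕ) : Finset (Fin n) := univ.filter fun i : Fin n => (i : ℕ) < k

private theorem card_S26 {n k : ℕ} (hk : k ≤ n) : (S26 n k).card = k := by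
  have h1 : (S26 n k).map Fin.valEmbedding = Finset.range k := by
    ext x
    simp only [S26, Finset.mem_map, Finset.mem_filter, Finset.mem_univ, true_and,
      Fin.valEmbedding_apply, Finset.mem_range]
    constructor
    · rintro ⟨y, hy, rfl⟩
      exact hy
    · intro hx
      exact ⟨⟨x, by omega⟩, hx, rfl⟩
  rw [← Finset.card_map Fin.valEmbedding, h1, Finset.card_range]

private theorem image_iff26 {n k : ℕ} (g : Perm (Fin n)) :
    (S26 n k).image g = S26 n k ↔ ∀ i : Fin n, (i : ℕ) < k ↔ (g i : ℕ) < k := by
  constructor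
  · intro h i
    have h1 : g i ∈ (S26 n k).image g ↔ i ∈ S26 n k := by
      rw [Finset.mem_image]
      constructor
      · rintro ⟨j, hj, hji⟩
        rwa [← g.injective hji]
      · intro hi
        exact ⟨i, hi, rfl⟩
    rw [h] at h1
    simpa [S26] using h1.symm
  · intro h
    refine Finset.eq_of_subset_of_card_le ?_ ?_
    · intro y hy
      rw [Finset.mem_image] at hy
      obtain ⟨x, hx, rfl⟩ := hy
      simp only [S26, Finset.mem_filter, Finset.mem_univ, true_and] at hx ⊢
      exact (h x).1 hx
    · rw [Finset.card_image_of_injective _ g.injective]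

private def H26 (n k : ℕ) : Subgroup (Perm (Fin n)) where
  carrier := {g | ∀ i : Fin n, (i : ℕ) < k ↔ (g i : ℕ) < k}
  mul_mem' := fun {a b} ha hb i => by
    rw [Equiv.Perm.mul_apply]
    exact (hb i).trans (ha (b i))
  one_mem' := fun i => Iff.rfl
  inv_mem' := fun {a} ha i => by
    have h := ha (a⁻¹ i)
    have h2 : a (a⁻¹ i) = i := a.apply_symm_apply i
    rw [h2] at h
    exact h.symm

private theorem image_mul26 {n : ℕ} (S : Finset (Fin n)) (g h : Perm (Fin n)) :
    S.image (g * h : Perm (Fin n)) = (S.image h).image g := by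
  rw [Finset.image_image, Equiv.Perm.coe_mul]

private theorem image_inv26 {n : ℕ} (S : Finset (Fin n)) (g : Perm (Fin n)) :
    (S.image g).image (g⁻¹ : Perm (Fin n)) = S := by
  rw [← image_mul26, inv_mul_cancel, Equiv.Perm.coe_one, Finset.image_id]

private theorem conj_iff26 {n : ℕ} (S : Finset (Fin n)) (x h : Perm (Fin n)) :
    (S.image x).image (x * h * x⁻¹ : Perm (Fin n)) = S.image x ↔ S.image h = S := by
  rw [image_mul26, image_inv26, image_mul26]
  exact Finset.image_injective x.injective |>.eq_iff

omit [FiniteDimensional ℂ V] in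
private theorem sum_conj26 {n k : ℕ} (hk : k ≤ n) (ρ : Representation ℂ (Perm (Fin n)) V)
    {S : Finset (Fin n)} (hS : S.card = k) :
    (∑ g : Perm (Fin n), if S.image g = S then ρ.character g else 0) =
      ∑ h : Perm (Fin n), if (S26 n k).image h = S26 n k then ρ.character h else 0 := by
  obtain ⟨x, hx, -⟩ := exists_perm_sets (S26 n k) (S26 n k) S S ((card_S26 hk).trans hS.symm)
    ((card_S26 hk).trans hS.symm) (by rw [Finset.inter_self, Finset.inter_self, card_S26 hk, hS])
  refine (Fintype.sum_equiv (MulAut.conj x).toEquiv _ _ fun h => ?_).symm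
  have h1 : (MulAut.conj x).toEquiv h = x * h * x⁻¹ := rfl
  rw [h1, ← hx, Representation.char_conj]
  by_cases h2 : (S26 n k).image h = S26 n k
  · rw [if_pos h2, if_pos ((conj_iff26 _ _ _).2 h2)]
  · rw [if_neg h2, if_neg (fun h3 => h2 ((conj_iff26 _ _ _).1 h3))]

private theorem card_H26 {n k : ℕ} (hk : k ≤ n) :
    n.choose k * (univ.filter fun h : Perm (Fin n) => (S26 n k).image h = S26 n k).card =
      n.factorial := by
  have h1 := Finset.card_eq_sum_card_fiberwise (s := (univ : Finset (Perm (Fin n))))
    (t := (univ : Finset (Fin n)).powersetCard k) (f := fun g : Perm (Fin n) => (S26 n k).image g) (by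
      intro g _
      rw [Finset.mem_coe, Finset.mem_powersetCard]
      refine ⟨Finset.subset_univ _, ?_⟩
      show ((S26 n k).image g).card = k
      rw [Finset.card_image_of_injective _ g.injective, card_S26 hk])
  rw [Finset.card_univ, Fintype.card_perm, Fintype.card_fin] at h1
  rw [h1, Finset.sum_congr rfl (g := fun _ =>
    (univ.filter fun h : Perm (Fin n) => (S26 n k).image h = S26 n k).card), Finset.sum_const,
    Finset.card_powersetCard, Finset.card_univ, Fintype.card_fin, smul_eq_mul]
  intro S hS
  rw [Finset.mem_powersetCard] at hS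
  obtain ⟨x, hx, -⟩ := exists_perm_sets (S26 n k) (S26 n k) S S ((card_S26 hk).trans hS.2.symm)
    ((card_S26 hk).trans hS.2.symm) (by rw [Finset.inter_self, Finset.inter_self, card_S26 hk, hS.2])
  refine (Finset.card_equiv (Equiv.mulLeft x) fun h => ?_).symm
  simp only [Finset.mem_filter, Finset.mem_univ, true_and, Equiv.coe_mulLeft]
  rw [image_mul26, ← hx]
  exact (Finset.image_injective x.injective |>.eq_iff).symm

private theorem sum_H26 {n k : ℕ} (ρ : Representation ℂ (Perm (Fin n)) V) :
    (∑ h : Perm (Fin n), if (S26 n k).image h = S26 n k then ρ.character h else 0) =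
      ((univ.filter fun h : Perm (Fin n) => (S26 n k).image h = S26 n k).card : ℂ) *
        (finrank ℂ (hfix ρ k) : ℂ) := by
  classical
  have hmem : ∀ h : Perm (Fin n), h ∈ H26 n k ↔ (S26 n k).image h = S26 n k := fun h =>
    (image_iff26 h).symm
  have hcard : Nat.card (H26 n k) =
      (univ.filter fun h : Perm (Fin n) => (S26 n k).image h = S26 n k).card := by
    rw [Nat.card_eq_fintype_card, Fintype.card_subtype]
    congr 1
    ext h
    simp only [Finset.mem_filter, Finset.mem_univ, true_and, hmem]
  have hne : (Nat.card (H26 n k) : ℂ) ≠ 0 := by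
    exact_mod_cast Nat.card_pos.ne'
  let _ : Invertible (Nat.card (H26 n k) : ℂ) := invertibleOfNonzero hne
  have h1 := Representation.card_inv_mul_sum_char_eq_finrank (ρ.comp (H26 n k).subtype)
  have h2 : Representation.invariants (ρ.comp (H26 n k).subtype) = hfix ρ k := by
    ext v
    rw [Representation.mem_invariants]
    constructor
    · intro h g hg
      exact h ⟨g, hg⟩
    · intro h g
      exact h g.1 g.2
  rw [h2] at h1
  have h3 : ∑ g : H26 n k, Representation.character (ρ.comp (H26 n k).subtype) g =
      ∑ h : Perm (Fin n), if (S26 n k).image h = S26 n k then ρ.character h else 0 := by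
    rw [← Finset.sum_filter]
    symm
    refine Finset.sum_subtype _ (fun h => ?_) (fun h => ρ.character h)
    rw [Finset.mem_filter, hmem]
    simp
  rw [h3, hcard] at h1
  rw [hcard] at hne
  rw [← h1, mul_inv_cancel_left₀ hne]

theorem sum_fx_char {n k : ℕ} (hk : k ≤ n) (ρ : Representation ℂ (Perm (Fin n)) V) :
    ∑ g : Perm (Fin n), (fx n k g : ℂ) * ρ.character g = (n.factorial : ℂ) * (finrank ℂ (hfix ρ k) : ℂ) := by
  have h1 : ∀ g : Perm (Fin n), (fx n k g : ℂ) * ρ.character g =
      ∑ S ∈ (univ : Finset (Fin n)).powersetCard k, if S.image g = S then ρ.character g else 0 := by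
    intro g
    rw [← Finset.sum_filter, Finset.sum_const, nsmul_eq_mul]
    rfl
  rw [Finset.sum_congr rfl fun g _ => h1 g, Finset.sum_comm,
    Finset.sum_congr rfl fun S hS => sum_conj26 hk ρ (Finset.mem_powersetCard.1 hS).2,
    Finset.sum_const, Finset.card_powersetCard, Finset.card_univ, Fintype.card_fin, sum_H26,
    nsmul_eq_mul, ← mul_assoc]
  congr 1
  exact_mod_cast card_H26 hk

end Pool.Agent.Helper70.TG
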