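import Pool.Agent.Helper70.TG.Defs
import Pool.Agent.Helper51.TF.H10

/-!
BLOCK TG-V0. Branching of characters (helper51's `char_branch`), and `∑ ff² = m!` (the regular representation).
-/

set_option autoImplicit false

open Module Equiv Pool.Agent.Helper1.TS Pool.Agent.Helper70.TU Pool.Agent.Helper51.TN Pool.Agent.Helper51.TF

namespace Pool.Agent.Helper70.TG

open Classical in
theorem char_branch {N m : ℕ} (hN : m + 1 ≤ N) {κ : Fin N → ℕ} (h : κ ∈ PP N (m + 1)) (g : Perm (Fin m)) :
    (hw (m + 1) κ).character (res1 m g) =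
      ∑ a ∈ Finset.univ.filter (fun a : Fin N => IsRem κ a), (hw m (subE κ a)).character g :=
  Pool.Agent.Helper51.TF.char_branch hN h g

open Classical in
theorem ff_branch {N m : ℕ} (hN : m + 1 ≤ N) {κ : Fin N → ℕ} (h : κ ∈ PP N (m + 1)) :
    ff (m + 1) κ = ∑ a ∈ Finset.univ.filter (fun a : Fin N => IsRem κ a), ff m (subE κ a) := by
  have h1 := char_branch hN h 1
  rw [map_one, Representation.char_one] at h1
  simp only [Representation.char_one] at h1
  unfold ff
  exact_mod_cast h1

theorem ff_pos {N m : ℕ} (hN : m ≤ N) {κ : Fin N → ℕ} (h : κ ∈ PP N m) : 0 < ff m κ := by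
  have h2 : Nontrivial (HW m κ) := Submodule.nontrivial_iff_ne_bot.2 (HW_ne_bot m κ (mem_PP.1 h).1 (mem_PP.1 h).2)
  unfold ff
  exact_mod_cast (Module.finrank_pos (R := ℂ) (M := HW m κ))

/-- the regular representation -/
private noncomputable def reg58 (G : Type) [Group G] : Representation ℂ G (G → ℂ) where
  toFun h := LinearMap.funLeft ℂ ℂ (fun x => x * h)
  map_one' := by
    ext f x
    simp [LinearMap.funLeft]
  map_mul' h h' := by
    ext f x
    simp [LinearMap.funLeft, mul_assoc]

private theorem reg_char58 (G : Type) [Group G] [Fintype G] [DecidableEq G] (h : G) :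
    (reg58 G).character h = if h = 1 then (Fintype.card G : ℂ) else 0 := by
  unfold Representation.character
  rw [LinearMap.trace_eq_matrix_trace ℂ (Pi.basisFun ℂ G), Matrix.trace]
  have h1 : ∀ x : G, (LinearMap.toMatrix (Pi.basisFun ℂ G) (Pi.basisFun ℂ G) (reg58 G h)).diag x =
      if h = 1 then (1 : ℂ) else 0 := by
    intro x
    rw [Matrix.diag_apply, LinearMap.toMatrix_apply, Pi.basisFun_apply, Pi.basisFun_repr]
    show (Pi.single x (1 : ℂ) : G → ℂ) (x * h) = _
    rw [Pi.single_apply]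
    simp
  rw [Finset.sum_congr rfl fun x _ => h1 x]
  by_cases hh : h = 1
  · simp [hh]
  · simp [hh]

theorem sum_sq {N m : ℕ} (hN : m ≤ N) : ∑ κ ∈ PP N m, (ff m κ) ^ 2 = m.factorial := by
  classical
  have h1 := finrank_expand hN (reg58 (Perm (Fin m)))
  rw [Module.finrank_fintype_fun_eq_card, Fintype.card_perm, Fintype.card_fin] at h1
  have h2 : ∀ κ ∈ PP N m, finrank ℂ (HomP (hw m κ) (reg58 (Perm (Fin m))) LinearMap.id) = finrank ℂ (HW m κ) := by
    intro κ _
    have h3 := dim_hom (hw m κ) (reg58 (Perm (Fin m))) LinearMap.id (fun _ => rfl) (fun _ _ => rfl)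
    have h4 : ∑ h : Perm (Fin m), LinearMap.trace ℂ (Perm (Fin m) → ℂ) (reg58 (Perm (Fin m)) h ∘ₗ LinearMap.id) *
        (hw m κ).character h⁻¹ = (Fintype.card (Perm (Fin m)) : ℂ) * finrank ℂ (HW m κ) := by
      rw [Finset.sum_eq_single 1]
      · have h5 := reg_char58 (Perm (Fin m)) 1
        rw [if_pos rfl] at h5
        rw [LinearMap.comp_id, inv_one, Representation.char_one]
        congr 1
      · intro h _ hne
        have h5 := reg_char58 (Perm (Fin m)) h
        rw [if_neg hne] at h5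
        rw [LinearMap.comp_id]
        have h6 : LinearMap.trace ℂ (Perm (Fin m) → ℂ) (reg58 (Perm (Fin m)) h) = 0 := h5
        rw [h6, zero_mul]
      · intro h
        exact absurd (Finset.mem_univ _) h
    rw [h4] at h3
    have h7 : (Fintype.card (Perm (Fin m)) : ℂ) ≠ 0 := by
      exact_mod_cast Fintype.card_ne_zero
    exact_mod_cast mul_left_cancel₀ h7 h3
  rw [Finset.sum_congr rfl fun κ hκ => by rw [h2 κ hκ]] at h1
  unfold ff
  have h8 : ∑ κ ∈ PP N m, ((finrank ℂ (HW m κ) : ℝ)) ^ 2 = ((∑ κ ∈ PP N m, finrank ℂ (HW m κ) * finrank ℂ (HW m κ) : ℕ) : ℝ) := by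
    push_cast
    exact Finset.sum_congr rfl fun κ _ => by ring
  rw [h8, ← h1]

end Pool.Agent.Helper70.TG
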