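import Pool.Agent.Helper70.TG.V2

/-!
BLOCK TG-V3 (about 200 lines). Frobenius' sum for integer vectors.

`Frz k x = ∑_i fz (x - k e_i)`.

Proof in words.
* `Frz_step`: `∑ x = m + 1 + k + N(N-1)/2`: `Frz k x = ∑_i ∑_a fz (x - k e_i - e_a)` (`fz_step` for `x - k e_i`, whose sum is `m + 1 + N(N-1)/2`) `= ∑_a Frz k (x - e_a)` (`update` commutes: for `a = i` both are `x i - k - 1`).
* `Frz_swap`, `Frz_eq_zero`: `Frz k (x ∘ swap b c) = - Frz k x` (reindex the sum by `swap b c`, `fz_swap`); so it is `0` if `x b = x c`, `b ≠ c` (then `x ∘ swap b c = x`).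
* `Frz_neg`: if some `x b < 0` then all `x - k e_i` have a negative coordinate.
* `Frz_eq`: `κ ∈ PP N n`, `x = bd κ`, `k ≤ n ≤ N`. For `x i < k` the term `fz (x - k e_i)` is `0` and so is `(x i).descFactorial k`. For `x i ≥ k` by `VV_update` (`x` is strictly decreasing, so all `x i - x j ≠ 0`)
  `fz (x - k e_i) = (n-k)! VV x ∏_{j≠i} (x i - k - x j)/(x i - x j) · (x i)!/(x i - k)! / ∏ (x j)!`, and `(x i)!/(x i - k)! = (x i).descFactorial k`, `n.descFactorial k = n!/(n-k)!`. So `n.descFactorial k * Frz k x = fz x * Fro k κ`.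
-/

set_option autoImplicit false

open Module Equiv Pool.Agent.Helper1.TS Pool.Agent.Helper70.TU Pool.Agent.Helper51.TN Pool.Agent.Helper51.TF

namespace Pool.Agent.Helper70.TG

/-- Frobenius' sum. -/
noncomputable def Frz {N : ℕ} (k : ℕ) (x : Fin N → ℤ) : ℝ := ∑ i, fz (Function.update x i (x i - k))

private theorem sum_upd93 {N : ℕ} (x : Fin N → ℤ) (i : Fin N) (t : ℤ) :
    ∑ j, Function.update x i t j = ∑ j, x j - x i + t := by
  rw [Finset.sum_update_of_mem (Finset.mem_univ i), ← Finset.add_sum_erase Finset.univ x (Finset.mem_univ i),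
    Finset.sdiff_singleton_eq_erase]
  ring

theorem Frz_step {N : ℕ} (k : ℕ) (x : Fin N → ℤ) (m : ℕ) (hx : ∑ i, x i = m + 1 + k + (N : ℤ) * (N - 1) / 2) :
    Frz k x = ∑ a, Frz k (Function.update x a (x a - 1)) := by
  unfold Frz
  rw [Finset.sum_comm]
  refine Finset.sum_congr rfl fun i _ => ?_
  rw [fz_step _ m (by rw [sum_upd93, hx]; ring)]
  refine Finset.sum_congr rfl fun a _ => ?_
  congr 1
  funext j
  by_cases h1 : j = a
  · subst h1
    by_cases h2 : j = i
    · subst h2
      simp only [Function.update_self]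
      ring
    · simp only [Function.update_self, Function.update_of_ne h2]
  · by_cases h2 : j = i
    · subst h2
      simp only [Function.update_self, Function.update_of_ne h1]
    · simp only [Function.update_of_ne h1, Function.update_of_ne h2]

private theorem Frz_swap93 {N : ℕ} (k : ℕ) (x : Fin N → ℤ) {b c : Fin N} (h : b ≠ c) :
    Frz k (x ∘ Equiv.swap b c) = - Frz k x := by
  unfold Frz
  rw [← Finset.sum_neg_distrib, ← Equiv.sum_comp (Equiv.swap b c) (fun i => - fz (Function.update x i (x i - k)))]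
  refine Finset.sum_congr rfl fun i _ => ?_
  rw [← fz_swap _ h]
  congr 1
  funext j
  rw [Function.comp_apply, Function.comp_apply]
  by_cases h1 : j = i
  · subst h1
    rw [Function.update_self, Function.update_self]
  · rw [Function.update_of_ne h1, Function.update_of_ne (fun h2 => h1 ((Equiv.swap b c).injective h2)), Function.comp_apply]

theorem Frz_eq_zero {N : ℕ} (k : ℕ) (x : Fin N → ℤ) {b c : Fin N} (h : b ≠ c) (hx : x b = x c) : Frz k x = 0 := by
  have h1 := Frz_swap93 k x h
  have h2 : x ∘ Equiv.swap b c = x := by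
    funext j
    rw [Function.comp_apply]
    by_cases hb : j = b
    · rw [hb, Equiv.swap_apply_left, hx]
    · by_cases hc : j = c
      · rw [hc, Equiv.swap_apply_right, hx]
      · rw [Equiv.swap_apply_of_ne_of_ne hb hc]
  rw [h2] at h1
  linarith

theorem Frz_neg {N : ℕ} (k : ℕ) (x : Fin N → ℤ) {b : Fin N} (h : x b < 0) : Frz k x = 0 := by
  unfold Frz
  refine Finset.sum_eq_zero fun i _ => fz_neg (b := b) _ ?_
  by_cases hb : b = i
  · subst hb
    rw [Function.update_self]
    omega
  · rw [Function.update_of_ne hb]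
    exact h

private theorem bd_strict93 {N : ℕ} {κ : Fin N → ℕ} (h : Antitone κ) {i j : Fin N} (hij : i < j) : bd κ j < bd κ i := by
  unfold bd
  have h1 := h hij.le
  have h2 : (i : ℕ) < j := hij
  have h3 := j.isLt
  omega

private theorem bd_ne93 {N : ℕ} {κ : Fin N → ℕ} (h : Antitone κ) {i j : Fin N} (hij : i ≠ j) : bd κ i ≠ bd κ j := by
  rcases lt_or_gt_of_ne hij with h1 | h1
  · exact (bd_strict93 h h1).ne'
  · exact (bd_strict93 h h1).ne

private theorem sum_bd93 {N n : ℕ} {κ : Fin N → ℕ} (h : κ ∈ PP N n) :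
    ∑ i, (bd κ i : ℤ) = n + (N : ℤ) * (N - 1) / 2 := by
  have h1 : ∑ i : Fin N, (N - 1 - (i : ℕ)) = N * (N - 1) / 2 := by
    rw [Fin.sum_univ_eq_sum_range (fun i => N - 1 - i) N, Finset.sum_range_reflect (fun i => i) N, Finset.sum_range_id]
  have h2 : ∑ i, bd κ i = n + N * (N - 1) / 2 := by
    unfold bd
    rw [Finset.sum_add_distrib, h1, (mem_PP.1 h).2]
  have h3 : ((N * (N - 1) / 2 : ℕ) : ℤ) = (N : ℤ) * (N - 1) / 2 := by
    rcases Nat.eq_zero_or_pos N with h0 | h0
    · subst h0; simp
    · rw [Int.natCast_div, Nat.cast_mul, Nat.cast_sub h0, Nat.cast_one, Nat.cast_ofNat]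
  rw [← h3, ← Nat.cast_sum, h2]
  push_cast
  rfl

theorem Frz_eq {N n k : ℕ} (hN : n ≤ N) (hk : k ≤ n) {κ : Fin N → ℕ} (h : κ ∈ PP N n) :
    (n.descFactorial k : ℝ) * Frz k (fun i => (bd κ i : ℤ)) = ff n κ * Fro k κ := by
  have hA := (mem_PP.1 h).1
  unfold Frz Fro
  rw [Finset.mul_sum, Finset.mul_sum]
  refine Finset.sum_congr rfl fun i _ => ?_
  beta_reduce
  rcases Nat.lt_or_ge (bd κ i) k with hlt | hge
  · rw [Nat.descFactorial_of_lt hlt, fz_neg (b := i) _ (by rw [Function.update_self]; omega)]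
    simp
  · have hff := ff_eq_prod hN h
    have hpos : ∀ j, 0 ≤ Function.update (fun i => (bd κ i : ℤ)) i ((bd κ i : ℤ) - k) j := by
      intro j
      by_cases hj : j = i
      · subst hj
        rw [Function.update_self]
        omega
      · rw [Function.update_of_ne hj]
        positivity
    have hsum : ((∑ j, Function.update (fun i => (bd κ i : ℤ)) i ((bd κ i : ℤ) - k) j) - (N : ℤ) * (N - 1) / 2).toNat = n - k := by
      rw [sum_upd93, sum_bd93 h]
      omega
    have hVcast : (fun j => ((Function.update (fun i => (bd κ i : ℤ)) i ((bd κ i : ℤ) - k) j : ℤ) : ℝ)) =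
        Function.update (fun j => (bd κ j : ℝ)) i ((bd κ i : ℝ) - k) := by
      funext j
      by_cases hj : j = i
      · subst hj
        rw [Function.update_self, Function.update_self]
        push_cast
        rfl
      · rw [Function.update_of_ne hj, Function.update_of_ne hj]
        push_cast
        rfl
    have hne : ∏ j ∈ Finset.univ.erase i, ((bd κ i : ℝ) - bd κ j) ≠ 0 := by
      refine Finset.prod_ne_zero_iff.mpr fun j hj => sub_ne_zero.mpr ?_
      exact_mod_cast bd_ne93 hA (Finset.ne_of_mem_erase hj).symm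
    have hVV := VV_update (fun j => (bd κ j : ℝ)) i ((bd κ i : ℝ) - k)
    have hVV' : VV (Function.update (fun j => (bd κ j : ℝ)) i ((bd κ i : ℝ) - k)) =
        VV (fun j => (bd κ j : ℝ)) * ∏ j ∈ Finset.univ.erase i, ((bd κ i : ℝ) - k - bd κ j) / ((bd κ i : ℝ) - bd κ j) := by
      rw [Finset.prod_div_distrib, ← mul_div_assoc, eq_div_iff hne]
      exact hVV
    have hprod : ∏ j, ((Function.update (fun i => (bd κ i : ℤ)) i ((bd κ i : ℤ) - k) j).toNat.factorial : ℝ) =
        ((bd κ i - k).factorial : ℝ) * ∏ j ∈ Finset.univ.erase i, ((bd κ j).factorial : ℝ) := by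
      rw [← Finset.mul_prod_erase Finset.univ _ (Finset.mem_univ i), Function.update_self]
      congr 1
      · congr 2
        omega
      · refine Finset.prod_congr rfl fun j hj => ?_
        rw [Function.update_of_ne (Finset.ne_of_mem_erase hj), Int.toNat_natCast]
    have hprod2 : ∏ j, ((bd κ j).factorial : ℝ) =
        ((bd κ i).factorial : ℝ) * ∏ j ∈ Finset.univ.erase i, ((bd κ j).factorial : ℝ) := by
      rw [← Finset.mul_prod_erase Finset.univ _ (Finset.mem_univ i)]
    have hd1 : ((bd κ i).factorial : ℝ) = ((bd κ i - k).factorial : ℝ) * ((bd κ i).descFactorial k : ℝ) := by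
      exact_mod_cast (Nat.factorial_mul_descFactorial hge).symm
    have hd2 : (n.factorial : ℝ) = ((n - k).factorial : ℝ) * (n.descFactorial k : ℝ) := by
      exact_mod_cast (Nat.factorial_mul_descFactorial hk).symm
    have hfz : fz (Function.update (fun i => (bd κ i : ℤ)) i ((bd κ i : ℤ) - k)) =
        ((n - k).factorial : ℝ) * (VV (fun j => (bd κ j : ℝ)) *
          ∏ j ∈ Finset.univ.erase i, ((bd κ i : ℝ) - k - bd κ j) / ((bd κ i : ℝ) - bd κ j)) /
        (((bd κ i - k).factorial : ℝ) * ∏ j ∈ Finset.univ.erase i, ((bd κ j).factorial : ℝ)) := by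
      unfold fz
      rw [if_pos hpos, hsum, hVcast, hVV', hprod]
    have hVVd : ∏ i : Fin N, ∏ j ∈ Finset.Ioi i, ((bd κ i : ℝ) - bd κ j) = VV (fun j => (bd κ j : ℝ)) := rfl
    rw [hfz, hff, hVVd, hprod2, hd1, hd2]
    have n1 : ((bd κ i - k).factorial : ℝ) ≠ 0 := by exact_mod_cast (Nat.factorial_pos _).ne'
    have n2 : ∏ j ∈ Finset.univ.erase i, ((bd κ j).factorial : ℝ) ≠ 0 :=
      Finset.prod_ne_zero_iff.mpr fun j _ => by exact_mod_cast (Nat.factorial_pos _).ne'
    have n3 : ((bd κ i).descFactorial k : ℝ) ≠ 0 := by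
      have := (Nat.descFactorial_pos.mpr hge).ne'
      exact_mod_cast this
    field_simp

end Pool.Agent.Helper70.TG
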