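import Pool.Agent.Helper70.TG.V2
import Pool.Agent.Helper1.TS.JUC
import Pool.Agent.Helper1.TS.DEG

/-!
BLOCK TG-V4 (about 200 lines). The product of the contents: `∑_g q^{#cycles(g)} r_κ(g) = ∏_{boxes} (q + c)`.

Proof in words.
* `exists_je`: induction on `n`. `κ ∈ PP N (n+1)`: there is a removable `a` (e.g. from `ff_branch`, `ff_pos`, or the last nonzero row), `F : HW n (subE κ a) → HW (n+1) κ` nonzero (`branch_all`), injective (`inj_of_ne`, `hw_irr`). Take `w`, `c'` from the induction, `v = F w`, `c = Fin.cons (κ a - 1 - a) c'`: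
  `jm 0 v = (κ a - 1 - a) v` (`jm_zero` in `TF/H8`), `jm (succ i) v = F (jm i w) = c' i v` (the transpositions `(succ i, succ j)` are `res1 n (swap i j)`), and `cprod h κ = cprod h (subE κ a) * h (κ a - 1 - a)` (`cprod_subE`, `Finset.prod_range_succ`).
* `fix_sum`: `∑_g fixN q g • ρ g` is a scalar on the irreducible `hw n κ` (it commutes with all `ρ x` because `fixN q` is a class function; Schur); by `jucys` for `v` the scalar is `∏ (q + c i) = cprod (q + ·) κ`; take traces and divide by the dimension (see the proof in `Helper1/TS/DEG.lean`, which does this).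
-/

set_option autoImplicit false

open Module Equiv Pool.Agent.Helper1.TS Pool.Agent.Helper70.TU Pool.Agent.Helper51.TN Pool.Agent.Helper51.TF

namespace Pool.Agent.Helper70.TG

theorem cprod_subE {N : ℕ} {A : Type*} [CommMonoid A] (h : ℤ → A) (κ : Fin N → ℕ) (a : Fin N) (ha : 0 < κ a) :
    cprod h κ = cprod h (subE κ a) * h ((κ a : ℤ) - 1 - ((a : ℕ) : ℤ)) := by
  unfold cprod
  have h1 : ∀ i : Fin N, ∏ b ∈ Finset.range (κ i), h ((b : ℤ) - ((i : ℕ) : ℤ)) =
      (∏ b ∈ Finset.range (subE κ a i), h ((b : ℤ) - ((i : ℕ) : ℤ))) *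
        (if i = a then h ((κ a : ℤ) - 1 - ((a : ℕ) : ℤ)) else 1) := by
    intro i
    by_cases hi : i = a
    · subst hi
      obtain ⟨k, hk⟩ : ∃ k, κ i = k + 1 := ⟨κ i - 1, by omega⟩
      have h2 : subE κ i i = k := by
        unfold subE
        rw [if_pos rfl, hk, Nat.add_sub_cancel]
      rw [if_pos rfl, h2, hk, Finset.prod_range_succ]
      congr 2
      push_cast
      ring
    · have h2 : subE κ a i = κ i := by
        unfold subE
        rw [if_neg hi, Nat.sub_zero]
      rw [if_neg hi, h2, mul_one]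
  rw [Finset.prod_congr rfl fun i _ => h1 i, Finset.prod_mul_distrib, Finset.prod_ite_eq' Finset.univ a,
    if_pos (Finset.mem_univ a)]

private theorem res1_zero93 {m : ℕ} (g : Perm (Fin m)) : res1 m g 0 = 0 :=
  jT_apply_of_lt (Nat.le_add_left 1 m) g (0 : Fin (m + 1)) (by simp)

private theorem res1_succ93 {m : ℕ} (g : Perm (Fin m)) (q : Fin m) : res1 m g q.succ = (g q).succ := by
  have h2 := jT_apply (Nat.le_add_left 1 m) g q.succ (by simp)
  refine h2.trans ?_
  refine Fin.ext ?_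
  rfl

private theorem res1_swap93 {m : ℕ} (i j : Fin m) : res1 m (Equiv.swap i j) = Equiv.swap i.succ j.succ := by
  ext x
  refine Fin.cases ?_ (fun x => ?_) x
  · rw [res1_zero93, Equiv.swap_apply_of_ne_of_ne (Fin.succ_ne_zero i).symm (Fin.succ_ne_zero j).symm]
  · rw [res1_succ93]
    by_cases h1 : x = i
    · rw [h1, Equiv.swap_apply_left, Equiv.swap_apply_left]
    · by_cases h2 : x = j
      · rw [h2, Equiv.swap_apply_right, Equiv.swap_apply_right]
      · rw [Equiv.swap_apply_of_ne_of_ne h1 h2, Equiv.swap_apply_of_ne_of_ne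
          (fun h => h1 (Fin.succ_injective _ h)) (fun h => h2 (Fin.succ_injective _ h))]

private theorem jm_succ93 {N m : ℕ} {κ ν : Fin N → ℕ} (F : HW m ν →ₗ[ℂ] HW (m + 1) κ)
    (hF : ∀ g v, F (hw m ν g v) = hw (m + 1) κ (res1 m g) (F v)) (i : Fin m) (w : HW m ν) :
    jm (hw (m + 1) κ) i.succ (F w) = F (jm (hw m ν) i w) := by
  unfold jm
  rw [LinearMap.sum_apply, LinearMap.sum_apply, map_sum, Finset.sum_filter, Finset.sum_filter, Fin.sum_univ_succ,
    if_neg (by simp), zero_add]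
  refine Finset.sum_congr rfl fun j _ => ?_
  simp only [Fin.succ_lt_succ_iff]
  split_ifs with h
  · rw [hF, res1_swap93]
  · rfl

theorem exists_je {N n : ℕ} (hN : n ≤ N) {κ : Fin N → ℕ} (h : κ ∈ PP N n) :
    ∃ (c : Fin n → ℤ) (v : HW n κ), IsJE (hw n κ) (fun i => (c i : ℝ)) v ∧
      ∀ f : ℤ → ℝ, ∏ i, f (c i) = cprod f κ := by
  induction n generalizing κ with
  | zero =>
    obtain ⟨hA, hs⟩ := mem_PP.1 h
    have hb := HW_ne_bot 0 κ hA hs
    obtain ⟨v, hv, hv0⟩ := Submodule.exists_mem_ne_zero_of_ne_bot hb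
    refine ⟨fun i => i.elim0, ⟨v, hv⟩, ⟨fun h0 => hv0 (congrArg Subtype.val h0), fun i => i.elim0⟩, fun f => ?_⟩
    have hz : ∀ i, κ i = 0 := fun i => by
      have := Finset.single_le_sum (f := κ) (fun _ _ => Nat.zero_le _) (Finset.mem_univ i)
      omega
    unfold cprod
    rw [Finset.univ_eq_empty, Finset.prod_empty]
    symm
    refine Finset.prod_eq_one fun i _ => ?_
    rw [hz i, Finset.range_zero, Finset.prod_empty]
  | succ n ih =>
    obtain ⟨a, ha⟩ := exists_rem h
    obtain ⟨F, hF0, hF⟩ := branch_all hN h a ha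
    have hmem := Pool.Agent.Helper51.TF.subE_mem h a ha
    have hirr : (hw n (subE κ a)).IsIrreducible := (hw_irr (by omega)).1 _ hmem
    have hinj : Function.Injective F := inj_of_ne (hw n (subE κ a)) ((hw (n + 1) κ).comp (res1 n)) F hF hF0
    obtain ⟨c', w, hw', hc'⟩ := ih (by omega) hmem
    refine ⟨Fin.cons ((κ a : ℤ) - 1 - ((a : ℕ) : ℤ)) c', F w, ⟨?_, ?_⟩, fun f => ?_⟩
    · intro h0
      exact hw'.1 (hinj (by rw [h0, map_zero]))
    · intro i
      refine Fin.cases ?_ (fun i => ?_) i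
      · rw [jm_zero a ha.1 F hF w]
        simp only [Fin.cons_zero, Complex.ofReal_intCast]
      · rw [jm_succ93 F hF i w, hw'.2 i, map_smul]
        simp only [Fin.cons_succ]
    · rw [Fin.prod_univ_succ, cprod_subE f κ a ha.1, ← hc' f, mul_comm]
      simp only [Fin.cons_zero, Fin.cons_succ]

private theorem fixN_conj93 (k : ℕ) {m : ℕ} (g x : Perm (Fin m)) : fixN k (x * g * x⁻¹) = fixN k g := by
  unfold fixN
  refine Finset.card_bij' (fun f _ => f ∘ x) (fun f _ => f ∘ ⇑x⁻¹) ?_ ?_ ?_ ?_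
  · intro f hf
    rw [Finset.mem_filter] at hf ⊢
    refine ⟨Finset.mem_univ _, ?_⟩
    funext p
    have h := congrFun hf.2 (x p)
    simpa [Perm.mul_apply] using h
  · intro f hf
    rw [Finset.mem_filter] at hf ⊢
    refine ⟨Finset.mem_univ _, ?_⟩
    funext p
    have h := congrFun hf.2 (x⁻¹ p)
    simpa [Perm.mul_apply] using h
  · intro f _
    funext p
    simp
  · intro f _
    funext p
    simp

theorem fix_sum {N n : ℕ} (hN : n ≤ N) {κ : Fin N → ℕ} (h : κ ∈ PP N n) (q : ℕ) :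
    ∑ g : Perm (Fin n), (fixN q g : ℝ) * rr (hw n κ) g = cprod (fun c => (q : ℝ) + (c : ℝ)) κ := by
  obtain ⟨c, v, hv, hc⟩ := exists_je hN h
  have hirr : (hw n κ).IsIrreducible := (hw_irr hN).1 κ h
  set P : ℝ := cprod (fun c => (q : ℝ) + (c : ℝ)) κ with hP
  have hPC : (∏ i, ((q : ℂ) + (((c i : ℤ) : ℝ) : ℂ))) = (P : ℂ) := by
    rw [hP, ← hc]
    push_cast
    rfl
  set Θ : HW n κ →ₗ[ℂ] HW n κ := ∑ g : Perm (Fin n), (fixN q g : ℂ) • hw n κ g with hΘ
  have hΘv : Θ v = (P : ℂ) • v := by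
    rw [← hPC, ← jucys q (hw n κ) (fun i => (c i : ℝ)) v hv.2, hΘ, LinearMap.sum_apply]
    rfl
  have hcomm : ∀ (x : Perm (Fin n)) (w : HW n κ), Θ (hw n κ x w) = hw n κ x (Θ w) := by
    intro x w
    rw [hΘ, LinearMap.sum_apply, LinearMap.sum_apply, map_sum]
    refine (Fintype.sum_equiv (MulAut.conj x).toEquiv _ _ (fun g => ?_)).symm
    simp only [LinearMap.smul_apply, map_smul]
    have e : (MulAut.conj x).toEquiv g = x * g * x⁻¹ := rfl
    rw [e, fixN_conj93]
    congr 1
    rw [← Module.End.mul_apply, ← Module.End.mul_apply, ← map_mul, ← map_mul]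
    congr 2
    group
  let S : Subrepresentation (hw n κ) :=
    { toSubmodule := Module.End.eigenspace Θ (P : ℂ)
      apply_mem_toSubmodule := by
        intro g w hw'
        rw [Module.End.mem_eigenspace_iff] at hw' ⊢
        rw [hcomm, hw', map_smul] }
  have hvU : v ∈ Module.End.eigenspace Θ (P : ℂ) := Module.End.mem_eigenspace_iff.2 hΘv
  have htop : Module.End.eigenspace Θ (P : ℂ) = ⊤ := by
    rcases IsSimpleOrder.eq_bot_or_eq_top S with h1 | h1
    · have h2 : Module.End.eigenspace Θ (P : ℂ) = ⊥ := congrArg Subrepresentation.toSubmodule h1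
      rw [h2, Submodule.mem_bot] at hvU
      exact absurd hvU hv.1
    · exact congrArg Subrepresentation.toSubmodule h1
  have e : Θ = (P : ℂ) • LinearMap.id := by
    refine LinearMap.ext fun w => ?_
    have hw' : w ∈ Module.End.eigenspace Θ (P : ℂ) := htop ▸ Submodule.mem_top
    exact Module.End.mem_eigenspace_iff.1 hw'
  have htr := congrArg (LinearMap.trace ℂ (HW n κ)) e
  rw [hΘ, map_sum, map_smul, LinearMap.trace_id, smul_eq_mul] at htr
  have : Nontrivial (HW n κ) := ⟨⟨v, 0, hv.1⟩⟩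
  have hd : (0 : ℝ) < finrank ℂ (HW n κ) := by exact_mod_cast (finrank_pos (R := ℂ) (M := HW n κ))
  have h1 : ∑ g : Perm (Fin n), (fixN q g : ℝ) * ((hw n κ).character g).re = P * finrank ℂ (HW n κ) := by
    have h2 := congrArg Complex.re htr
    rw [Complex.re_sum] at h2
    have h3 : ((P : ℂ) * ((finrank ℂ (HW n κ) : ℕ) : ℂ)).re = P * finrank ℂ (HW n κ) := by
      rw [← Complex.ofReal_natCast, ← Complex.ofReal_mul, Complex.ofReal_re]
    rw [h3] at h2
    rw [← h2]
    refine Finset.sum_congr rfl fun g _ => ?_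
    rw [map_smul, smul_eq_mul, ← Complex.ofReal_natCast, Complex.re_ofReal_mul]
    rfl
  have h4 : ∑ g : Perm (Fin n), (fixN q g : ℝ) * rr (hw n κ) g =
      (∑ g : Perm (Fin n), (fixN q g : ℝ) * ((hw n κ).character g).re) / finrank ℂ (HW n κ) := by
    rw [Finset.sum_div]
    refine Finset.sum_congr rfl fun g _ => ?_
    unfold rr
    rw [mul_div_assoc]
  rw [h4, h1, mul_div_assoc, div_self hd.ne', mul_one]

end Pool.Agent.Helper70.TG
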