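import Pool.Agent.Helper70.TG.V3
import Pool.Agent.Helper70.TG.V4
import Pool.Agent.Helper1.TS.A0

/-!
BLOCK TG-V5 (about 300 lines). The character value at the full cycle of `S_k`.

Proof in words. `κ ∈ PP N k`, `2 ≤ k ≤ N`, `g` a cycle with support of size `k` in `S_k`.
* `fixN q g' = q^{number of cycles of g'}` (fixed points included) (`fixN_eq` or the like in `Helper1/TS/JUC.lean`/`CHI`), and the permutations with exactly one cycle are the `(k-1)!` conjugates of `g`
  (`Equiv.Perm.card_of_cycleType` or a count of the conjugacy class of `g`; `r` is a class function). So as polynomials in `q` (`fix_sum` for all natural `q`; `Polynomial.eq_of_infinite_eval_eq`) the coefficient of `q^1` gives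
  `(k-1)! rr (hw k κ) g = coefficient of q in cprod (q + c) κ`.
* `κ` not a hook (`1 < κ 1`, where `1 : Fin N` is the second row): two boxes `(0,0)`, `(1,1)` have content `0`, so the coefficient is `0`: the character value is `0`. And `Frz k (bd κ) = 0`: `x = bd κ` has `x 0 > x 1 ≥ N`; each `y = x - k e_i` has sum `N(N-1)/2` and
  some coordinate `≥ N`; if all its coordinates were `≥ 0` and distinct, the sum of the `N` distinct naturals, one of them `≥ N`, would be `> N(N-1)/2`. So `fz y = 0` (`fz_neg`, `fz_eq_zero`).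
* `κ` a hook: `κ 0 = a + 1`, `κ i = 1` for `1 ≤ i ≤ b`, `0` for `i > b`, `a + b + 1 = k`. The product is `q ∏_{c=1}^a (q + c) ∏_{c=1}^b (q - c)`, the coefficient `(-1)^b a! b!`. `ff k κ = (a+b)!/(a! b!)` (by induction on `k` from `ff_branch`: the removable boxes of the hook `(a, b)` give the hooks `(a-1, b)`, `(a, b-1)`, Pascal's rule;
  or from `ff_eq_prod`). So the character value is `(-1)^b`. `Frz`: the beads are `N + a`, `N - 1, …, N - b`, `N - b - 2, …, 0`; for `i ≠ 0` `y = x - k e_i` contains the coordinate `N + a ≥ N` and `fz y = 0` as above. For `i = 0` `y 0 = N + a - k = N - 1 - b`, so `y` is the vector `N - 1 - b, N - 1, …, N - b, N - b - 2, …, 0`, which is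
  obtained from `N - 1, N - 2, …, 0` by `b` adjacent transpositions: `fz y = (-1)^b` (`fz_swap` `b` times, `VV_bd0`; induction on `b`).
-/

set_option autoImplicit false

open Module Equiv Pool.Agent.Helper1.TS Pool.Agent.Helper70.TU Pool.Agent.Helper51.TN Pool.Agent.Helper51.TF

namespace Pool.Agent.Helper70.TG

/-- The number of cycles, fixed points included. -/
private noncomputable def nc86 {k : ℕ} (g : Perm (Fin k)) : ℕ :=
  Nat.card (Quotient (Equiv.Perm.SameCycle.setoid g))

private theorem fixN_pow86 {k : ℕ} (q : ℕ) (g : Perm (Fin k)) : fixN q g = q ^ nc86 g := by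
  classical
  have e : {f : Fin k → Fin q // f ∘ g = f} ≃ (Quotient (Equiv.Perm.SameCycle.setoid g) → Fin q) :=
    { toFun := fun f => Quotient.lift f.1 (by
        intro a b hab
        obtain ⟨i, hi⟩ := (hab : g.SameCycle a b)
        have h0 : ∀ x, f.1 (g x) = f.1 x := fun x => congrFun f.2 x
        have h1 : ∀ (n : ℕ) (x : Fin k), f.1 ((g ^ n) x) = f.1 x := by
          intro n
          induction n with
          | zero => intro x; rfl
          | succ n ih =>
            intro x
            rw [pow_succ, Perm.mul_apply, ih, h0]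
        rcases Int.eq_nat_or_neg i with ⟨n, rfl | rfl⟩
        · rw [zpow_natCast] at hi
          rw [← hi, h1]
        · rw [zpow_neg, zpow_natCast, Perm.inv_eq_iff_eq] at hi
          rw [hi, h1])
      invFun := fun F => ⟨fun x => F (Quotient.mk _ x), by
        funext x
        change F (Quotient.mk _ (g x)) = F (Quotient.mk _ x)
        congr 1
        exact Quotient.sound (Perm.sameCycle_apply_left.2 (Perm.SameCycle.refl g x))⟩
      left_inv := by
        intro f
        rfl
      right_inv := by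
        intro F
        funext x
        induction x using Quotient.inductionOn with
        | h x => rfl }
  have h2 : fixN q g = Nat.card {f : Fin k → Fin q // f ∘ g = f} := by
    unfold fixN
    rw [Nat.card_eq_fintype_card, Fintype.card_subtype]
  rw [h2, Nat.card_congr e, Nat.card_fun, Nat.card_fin]
  rfl

private theorem nc_one86 {k : ℕ} (hk : 2 ≤ k) (g : Perm (Fin k)) : nc86 g = 1 ↔ g.cycleType = {k} := by
  classical
  constructor
  · intro h
    have h1 : ∀ x y : Fin k, g.SameCycle x y := by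
      intro x y
      have h2 := (Nat.card_eq_one_iff_unique.1 h).1
      exact Quotient.exact (Subsingleton.elim (Quotient.mk (Equiv.Perm.SameCycle.setoid g) x) (Quotient.mk _ y))
    have h3 : ∀ x : Fin k, g x ≠ x := by
      intro x hx
      have h4 : ∀ y, y = x := by
        intro y
        obtain ⟨i, hi⟩ := h1 x y
        rw [Perm.zpow_apply_eq_self_of_apply_eq_self hx] at hi
        exact hi.symm
      have h5 := (h4 ⟨0, by omega⟩).trans (h4 ⟨1, by omega⟩).symm
      simp at h5
    have h6 : g.IsCycle := ⟨⟨0, by omega⟩, h3 _, fun y _ => h1 _ y⟩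
    have h7 : g.support = Finset.univ := by
      ext x
      simp [h3 x]
    rw [h6.cycleType, h7, Finset.card_univ, Fintype.card_fin]
  · intro h
    have h1 : g.IsCycle := by
      rw [← Perm.card_cycleType_eq_one, h]
      rfl
    have h2 : g.support.card = k := by
      have h3 := h1.cycleType
      rw [h] at h3
      exact (Multiset.singleton_inj.1 h3).symm
    have h4 : g.support = Finset.univ := by
      rw [← Finset.card_eq_iff_eq_univ, h2, Fintype.card_fin]
    have h5 : ∀ x, g x ≠ x := fun x => by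
      rw [← Perm.mem_support, h4]
      exact Finset.mem_univ x
    unfold nc86
    rw [Nat.card_eq_one_iff_unique]
    refine ⟨⟨fun a b => ?_⟩, ⟨Quotient.mk _ ⟨0, by omega⟩⟩⟩
    induction a using Quotient.inductionOn with
    | h x =>
      induction b using Quotient.inductionOn with
      | h y => exact Quotient.sound (h1.sameCycle (h5 x) (h5 y))

private theorem rr_conj86 {k : ℕ} {V : Type*} [AddCommGroup V] [Module ℂ V] (ρ : Representation ℂ (Perm (Fin k)) V)
    {g g' : Perm (Fin k)} (h : IsConj g g') : rr ρ g = rr ρ g' := by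
  obtain ⟨c, hc⟩ := isConj_iff.1 h
  unfold rr
  rw [← hc, Representation.char_conj]

private theorem coeff86 {N k : ℕ} (hN : k ≤ N) (hk : 2 ≤ k) {κ : Fin N → ℕ} (h : κ ∈ PP N k) (g : Perm (Fin k))
    (hg : g.IsCycle) (hs : g.support.card = k) :
    ((k - 1).factorial : ℝ) * rr (hw k κ) g =
      (cprod (fun c => (Polynomial.X + Polynomial.C (c : ℝ) : Polynomial ℝ)) κ).coeff 1 := by
  classical
  set Q : Polynomial ℝ := cprod (fun c => (Polynomial.X + Polynomial.C (c : ℝ) : Polynomial ℝ)) κ with hQ
  set P : Polynomial ℝ := ∑ x : Perm (Fin k), Polynomial.C (rr (hw k κ) x) * Polynomial.X ^ nc86 x with hP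
  have h1 : P = Q := by
    refine Polynomial.eq_of_infinite_eval_eq P Q ?_
    refine (Set.infinite_range_of_injective (Nat.cast_injective (R := ℝ))).mono ?_
    rintro _ ⟨q, rfl⟩
    rw [Set.mem_ofPred_eq, hP, hQ, Polynomial.eval_finsetSum]
    have h2 := fix_sum hN h q
    unfold cprod at h2 ⊢
    rw [Polynomial.eval_prod]
    simp only [Polynomial.eval_prod]
    simp only [Polynomial.eval_add, Polynomial.eval_X, Polynomial.eval_C, Polynomial.eval_mul, Polynomial.eval_pow]
    rw [← h2]
    refine Finset.sum_congr rfl fun x _ => ?_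
    rw [fixN_pow86]
    push_cast
    ring
  rw [← h1, hP, Polynomial.finsetSum_coeff]
  have h3 : ∀ x : Perm (Fin k), (Polynomial.C (rr (hw k κ) x) * Polynomial.X ^ nc86 x).coeff 1 =
      if x.cycleType = {k} then rr (hw k κ) g else 0 := by
    intro x
    rw [Polynomial.coeff_C_mul, Polynomial.coeff_X_pow]
    by_cases hx : x.cycleType = {k}
    · rw [if_pos ((nc_one86 hk x).2 hx).symm, if_pos hx, mul_one]
      refine rr_conj86 _ (Perm.isConj_iff_cycleType_eq.2 ?_)
      rw [hx, hg.cycleType, hs]
    · rw [if_neg (fun h4 => hx ((nc_one86 hk x).1 h4.symm)), if_neg hx, mul_zero]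
  rw [Finset.sum_congr rfl fun x _ => h3 x, ← Finset.sum_filter, Finset.sum_const, nsmul_eq_mul,
    Perm.card_of_cycleType_singleton hk (by rw [Fintype.card_fin]), Fintype.card_fin, Nat.choose_self, mul_one]

/-- a set of `m` naturals has sum at least `m (m - 1) / 2` -/
private theorem sum_ge86 (s : Finset ℕ) : s.card * (s.card - 1) / 2 ≤ ∑ x ∈ s, x := by
  have h1 : ∑ x ∈ s, x = ∑ i : Fin s.card, s.orderEmbOfFin rfl i := by
    rw [← Finset.sum_coe_sort s, ← (s.orderIsoOfFin rfl).toEquiv.sum_comp]
    rfl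
  rw [h1, ← Finset.sum_range_id, ← Fin.sum_univ_eq_sum_range (fun i => i)]
  refine Finset.sum_le_sum fun i _ => ?_
  have h2 : ∀ (m : ℕ) (hm : m < s.card), m ≤ s.orderEmbOfFin rfl ⟨m, hm⟩ := by
    intro m
    induction m with
    | zero => exact fun _ => Nat.zero_le _
    | succ m ih =>
      intro hm
      have h3 := ih (by omega)
      have h4 : s.orderEmbOfFin rfl ⟨m, by omega⟩ < s.orderEmbOfFin rfl ⟨m + 1, hm⟩ :=
        (s.orderEmbOfFin rfl).strictMono (by
          rw [Fin.lt_def]
          exact Nat.lt_succ_self m)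
      omega
  exact h2 i i.2

/-- if one coordinate of an injective vector of sum `N (N - 1) / 2` is `≥ N`: contradiction -/
private theorem inj_lt86 {N : ℕ} (y : Fin N → ℕ) (hy : Function.Injective y) (hs : ∑ i, y i = N * (N - 1) / 2) (j : Fin N) :
    y j < N := by
  classical
  by_contra hcon
  push Not at hcon
  have h1 : (Finset.univ.image y).card = N := by
    rw [Finset.card_image_of_injective _ hy, Finset.card_univ, Fintype.card_fin]
  have h2 : ∑ x ∈ Finset.univ.image y, x = N * (N - 1) / 2 := by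
    rw [Finset.sum_image (fun a _ b _ hab => hy hab), hs]
  have h3 : y j ∈ Finset.univ.image y := Finset.mem_image_of_mem _ (Finset.mem_univ j)
  have h4 := Finset.add_sum_erase _ (fun x => x) h3
  have h5 := sum_ge86 ((Finset.univ.image y).erase (y j))
  rw [Finset.card_erase_of_mem h3, h1] at h5
  have hN : 0 < N := lt_of_le_of_lt (Nat.zero_le _) j.2
  obtain ⟨n, rfl⟩ : ∃ n, N = n + 1 := ⟨N - 1, by omega⟩
  have h6 : (n + 1) * (n + 1 - 1) / 2 = n * (n - 1) / 2 + n := by
    rw [← Finset.sum_range_id, ← Finset.sum_range_id, Finset.sum_range_succ]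
  rw [h2, h6] at h4
  simp only [Nat.add_sub_cancel] at h5
  omega

private theorem sum_bd86 {N k : ℕ} {κ : Fin N → ℕ} (h : κ ∈ PP N k) : ∑ i, bd κ i = k + N * (N - 1) / 2 := by
  have h1 := (mem_PP.1 h).2
  unfold bd
  rw [Finset.sum_add_distrib, h1]
  congr 1
  rw [← Finset.sum_range_id, Fin.sum_univ_eq_sum_range (fun i => N - 1 - i), Finset.sum_range_reflect (fun i => i)]

private theorem bd_inj86 {N k : ℕ} {κ : Fin N → ℕ} (h : κ ∈ PP N k) : Function.Injective (bd κ) := by
  have key : ∀ i j : Fin N, i < j → bd κ j < bd κ i := by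
    intro i j hij
    have h1 := (mem_PP.1 h).1 hij.le
    have h2 : (i : ℕ) < j := hij
    have h3 := j.2
    unfold bd
    omega
  intro i j hij
  rcases lt_trichotomy i j with h1 | h1 | h1
  · exact absurd hij (key i j h1).ne'
  · exact h1
  · exact absurd hij (key j i h1).ne

private theorem term_zero86 {N k : ℕ} {κ : Fin N → ℕ} (h : κ ∈ PP N k) (i j : Fin N) (hij : j ≠ i) (hj : N ≤ bd κ j) :
    ((bd κ i).descFactorial k : ℝ) *
      ∏ j ∈ Finset.univ.erase i, ((bd κ i : ℝ) - k - bd κ j) / ((bd κ i : ℝ) - bd κ j) = 0 := by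
  classical
  by_cases hi : bd κ i < k
  · rw [Nat.descFactorial_eq_zero_iff_lt.2 hi]
    simp
  · push Not at hi
    by_contra hcon
    have h1 : ∀ l, l ≠ i → bd κ i - k ≠ bd κ l := by
      intro l hl heq
      apply hcon
      rw [Finset.prod_eq_zero (Finset.mem_erase.2 ⟨hl, Finset.mem_univ l⟩), mul_zero]
      have h2 : (bd κ i : ℝ) - k - bd κ l = 0 := by
        rw [← heq, Nat.cast_sub hi]
        ring
      rw [h2, zero_div]
    have hy : Function.Injective (Function.update (bd κ) i (bd κ i - k)) := by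
      intro a b hab
      by_cases ha : a = i
      · by_cases hb : b = i
        · rw [ha, hb]
        · rw [ha, Function.update_self, Function.update_of_ne hb] at hab
          exact absurd hab (h1 b hb)
      · by_cases hb : b = i
        · rw [hb, Function.update_self, Function.update_of_ne ha] at hab
          exact absurd hab.symm (h1 a ha)
        · rw [Function.update_of_ne ha, Function.update_of_ne hb] at hab
          exact bd_inj86 h hab
    have hsum : ∑ l, Function.update (bd κ) i (bd κ i - k) l = N * (N - 1) / 2 := by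
      have h3 := sum_bd86 h
      rw [Finset.sum_update_of_mem (Finset.mem_univ i)]
      have h4 := Finset.sum_sdiff (f := bd κ) (Finset.subset_univ {i})
      rw [Finset.sum_singleton] at h4
      omega
    have h5 := inj_lt86 _ hy hsum j
    rw [Function.update_of_ne hij] at h5
    omega

private theorem initial86 {n : ℕ} (p : Fin n → Prop) [DecidablePred p] (hp : ∀ i j, i ≤ j → p j → p i) (i : Fin n) :
    p i ↔ (i : ℕ) < (Finset.univ.filter p).card := by
  constructor
  · intro hi
    have h1 : Finset.Iic i ⊆ Finset.univ.filter p := by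
      intro j hj
      rw [Finset.mem_Iic] at hj
      exact Finset.mem_filter.2 ⟨Finset.mem_univ j, hp j i hj hi⟩
    have h2 := Finset.card_le_card h1
    rw [Fin.card_Iic] at h2
    omega
  · intro hi
    by_contra hcon
    have h1 : Finset.univ.filter p ⊆ Finset.Iio i := by
      intro j hj
      rw [Finset.mem_Iio]
      by_contra hji
      exact hcon (hp i j (not_lt.1 hji) (Finset.mem_filter.1 hj).2)
    have h2 := Finset.card_le_card h1
    rw [Fin.card_Iio] at h2
    omega

private theorem hook86 {n k : ℕ} {κ : Fin (n + 1) → ℕ} (h : κ ∈ PP (n + 1) k) (h1 : ∀ i : Fin n, κ i.succ ≤ 1) :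
    ∃ b, b ≤ n ∧ k = κ 0 + b ∧ ∀ i : Fin n, κ i.succ = if (i : ℕ) < b then 1 else 0 := by
  obtain ⟨hanti, hsum⟩ := mem_PP.1 h
  have h2 := initial86 (fun i : Fin n => κ i.succ = 1) (by
    intro i j hij hj
    have h3 : κ j.succ ≤ κ i.succ := hanti (Fin.succ_le_succ_iff.2 hij)
    have h4 := h1 i
    change κ i.succ = 1
    change κ j.succ = 1 at hj
    omega)
  refine ⟨(Finset.univ.filter (fun i : Fin n => κ i.succ = 1)).card, ?_, ?_, ?_⟩
  · refine (Finset.card_le_univ _).trans ?_
    rw [Fintype.card_fin]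
  · rw [Fin.sum_univ_succ] at hsum
    rw [← hsum, Finset.card_filter]
    congr 1
    refine Finset.sum_congr rfl fun i _ => ?_
    have h3 := h1 i
    split_ifs <;> omega
  · intro i
    have h3 := h2 i
    have h4 := h1 i
    split_ifs with h5
    · exact h3.2 h5
    · have h6 : ¬ κ i.succ = 1 := fun h7 => h5 (h3.1 h7)
      omega

private theorem erase_prod86 {n : ℕ} (F : Fin (n + 1) → ℝ) :
    ∏ j ∈ Finset.univ.erase (0 : Fin (n + 1)), F j = ∏ i : Fin n, F i.succ := by
  classical
  have h1 : (Finset.univ.erase (0 : Fin (n + 1))) = Finset.univ.image Fin.succ := by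
    ext j
    rw [Finset.mem_erase, Finset.mem_image]
    constructor
    · rintro ⟨h, -⟩
      exact ⟨j.pred h, Finset.mem_univ _, Fin.succ_pred j h⟩
    · rintro ⟨i, -, rfl⟩
      exact ⟨Fin.succ_ne_zero i, Finset.mem_univ _⟩
  rw [h1, Finset.prod_image (fun a _ b _ hab => Fin.succ_injective n hab)]

/-- the product over the beads of the lower rows of a hook -/
private theorem beads86 {t b : ℕ} (x : Fin (t + b) → ℕ) (hx : ∀ i : Fin (t + b), x i = if (i : ℕ) < b then t + b - i else t + b - 1 - i)
    (F : ℕ → ℝ) : ∏ i, F (x i) = ∏ y ∈ (Finset.range (t + b + 1)).erase t, F y := by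
  classical
  have hinj : Function.Injective x := by
    intro i j hij
    have h1 := hx i
    have h2 := hx j
    have h3 := i.2
    have h4 := j.2
    apply Fin.ext
    split_ifs at h1 h2 <;> omega
  have h1 : Finset.univ.image x = (Finset.range (t + b + 1)).erase t := by
    refine Finset.eq_of_subset_of_card_le ?_ ?_
    · intro y hy
      rw [Finset.mem_image] at hy
      obtain ⟨i, -, rfl⟩ := hy
      rw [Finset.mem_erase, Finset.mem_range]
      have h1 := hx i
      have h3 := i.2
      split_ifs at h1 <;> omega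
    · rw [Finset.card_image_of_injective _ hinj, Finset.card_univ, Fintype.card_fin,
        Finset.card_erase_of_mem (Finset.mem_range.2 (by omega)), Finset.card_range]
      omega
  rw [← h1, Finset.prod_image (fun a _ b _ hab => hinj hab)]

private theorem neg_fact86 (b : ℕ) : ∏ j ∈ Finset.range b, (-((j : ℝ) + 1)) = (-1) ^ b * (b.factorial : ℝ) := by
  induction b with
  | zero => simp
  | succ b ih =>
    rw [Finset.prod_range_succ, ih, Nat.factorial_succ]
    push_cast
    ring

private theorem pos_fact86 (a : ℕ) : ∏ j ∈ Finset.range a, ((j : ℝ) + 1) = (a.factorial : ℝ) := by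
  induction a with
  | zero => simp
  | succ b ih =>
    rw [Finset.prod_range_succ, ih, Nat.factorial_succ]
    push_cast
    ring

private theorem num86 (t b : ℕ) :
    ∏ y ∈ (Finset.range (t + b + 1)).erase t, ((t : ℝ) - y) = t.factorial * ((-1) ^ b * (b.factorial : ℝ)) := by
  classical
  have h1 : ∏ y ∈ (Finset.range (t + b + 1)).erase t, ((t : ℝ) - y) =
      ∏ y ∈ Finset.range (t + b + 1), (if y = t then 1 else (t : ℝ) - y) := by
    rw [← Finset.mul_prod_erase (Finset.range (t + b + 1)) _ (Finset.mem_range.2 (by omega : t < t + b + 1)), if_pos rfl, one_mul]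
    refine Finset.prod_congr rfl fun y hy => ?_
    rw [if_neg (Finset.ne_of_mem_erase hy)]
  rw [h1, show t + b + 1 = (t + 1) + b by ring, Finset.prod_range_add, Finset.prod_range_succ, if_pos rfl, mul_one]
  congr 1
  · rw [← pos_fact86, ← Finset.prod_range_reflect]
    refine Finset.prod_congr rfl fun y hy => ?_
    rw [Finset.mem_range] at hy
    rw [if_neg (by omega), Nat.cast_sub (by omega), Nat.cast_sub (by omega)]
    push_cast
    ring
  · rw [← neg_fact86]
    refine Finset.prod_congr rfl fun y _ => ?_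
    rw [if_neg (by omega)]
    push_cast
    ring

private theorem den86 (t b a : ℕ) :
    (a.factorial : ℝ) * (((a : ℝ) + b + 1) * ∏ y ∈ (Finset.range (t + b + 1)).erase t, (((a + 1 + (t + b) : ℕ) : ℝ) - y)) =
      ((a + 1 + (t + b)).factorial : ℝ) := by
  have h1 : ((a : ℝ) + b + 1) * ∏ y ∈ (Finset.range (t + b + 1)).erase t, (((a + 1 + (t + b) : ℕ) : ℝ) - y) =
      ∏ y ∈ Finset.range (t + b + 1), (((a + 1 + (t + b) : ℕ) : ℝ) - y) := by
    rw [← Finset.mul_prod_erase (Finset.range (t + b + 1)) _ (Finset.mem_range.2 (by omega : t < t + b + 1))]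
    congr 1
    push_cast
    ring
  have h2 : ∏ y ∈ Finset.range (t + b + 1), (((a + 1 + (t + b) : ℕ) : ℝ) - y) =
      (((a + 1 + (t + b)).descFactorial (t + b + 1) : ℕ) : ℝ) := by
    rw [Nat.descFactorial_eq_prod_range]
    push_cast
    refine Finset.prod_congr rfl fun y hy => ?_
    rw [Finset.mem_range] at hy
    rw [Nat.cast_sub (by omega)]
    push_cast
    ring
  rw [h1, h2]
  have h3 := Nat.factorial_mul_descFactorial (show t + b + 1 ≤ a + 1 + (t + b) by omega)
  rw [show a + 1 + (t + b) - (t + b + 1) = a by omega] at h3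
  exact_mod_cast h3

/-- Frobenius' sum has only the first term. -/
private theorem fro_first86 {n k : ℕ} {κ : Fin (n + 1) → ℕ} (h : κ ∈ PP (n + 1) k) (h0 : 0 < κ 0) :
    Fro k κ = ((bd κ 0).descFactorial k : ℝ) *
      ∏ j ∈ Finset.univ.erase (0 : Fin (n + 1)), ((bd κ 0 : ℝ) - k - bd κ j) / ((bd κ 0 : ℝ) - bd κ j) := by
  unfold Fro
  rw [Finset.sum_eq_single (0 : Fin (n + 1))]
  · intro i _ hi
    refine term_zero86 h i 0 (Ne.symm hi) ?_
    unfold bd
    rw [Fin.val_zero]
    omega
  · intro h1
    exact absurd (Finset.mem_univ _) h1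

private theorem fro_hook86 {t b a : ℕ} {κ : Fin (t + b + 1) → ℕ} (h : κ ∈ PP (t + b + 1) (a + b + 1)) (h0 : κ 0 = a + 1)
    (h1 : ∀ i : Fin (t + b), κ i.succ = if (i : ℕ) < b then 1 else 0) :
    Fro (a + b + 1) κ = ((a + b + 1 : ℕ) : ℝ) * ((-1) ^ b * b.factorial * a.factorial) := by
  rw [fro_first86 h (by omega), erase_prod86]
  have hb0 : bd κ 0 = a + 1 + (t + b) := by
    unfold bd
    rw [h0, Fin.val_zero]
    omega
  have hx : ∀ i : Fin (t + b), bd κ i.succ = if (i : ℕ) < b then t + b - i else t + b - 1 - i := by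
    intro i
    have h2 := i.2
    unfold bd
    rw [h1, Fin.val_succ]
    split_ifs <;> omega
  have h2 := beads86 (fun i : Fin (t + b) => bd κ i.succ) hx
    (fun y => (((bd κ 0 : ℝ) - ((a + b + 1 : ℕ) : ℝ) - y) / ((bd κ 0 : ℝ) - y)))
  rw [h2, hb0, Finset.prod_div_distrib]
  have h3 : ∏ y ∈ (Finset.range (t + b + 1)).erase t, (((a + 1 + (t + b) : ℕ) : ℝ) - ((a + b + 1 : ℕ) : ℝ) - y) =
      t.factorial * ((-1) ^ b * (b.factorial : ℝ)) := by
    rw [← num86]
    refine Finset.prod_congr rfl fun y _ => ?_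
    push_cast
    ring
  rw [h3]
  have h4 := den86 t b a
  have h5 := Nat.factorial_mul_descFactorial (show a + b + 1 ≤ a + 1 + (t + b) by omega)
  rw [show a + 1 + (t + b) - (a + b + 1) = t by omega] at h5
  have h6 : (t.factorial : ℝ) * ((a + 1 + (t + b)).descFactorial (a + b + 1) : ℝ) =
      ((a + 1 + (t + b)).factorial : ℝ) := by exact_mod_cast h5
  set D := ∏ y ∈ (Finset.range (t + b + 1)).erase t, (((a + 1 + (t + b) : ℕ) : ℝ) - y) with hD
  have hDne : D ≠ 0 := by
    intro hD0
    rw [hD0, mul_zero, mul_zero] at h4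
    exact (Nat.factorial_ne_zero _) (by exact_mod_cast h4.symm)
  rw [← mul_div_assoc, div_eq_iff hDne]
  push_cast
  linear_combination ((-1) ^ b * (b.factorial : ℝ)) * (h6 - h4)

private theorem coeff_two86 {n : ℕ} {κ : Fin (n + 1) → ℕ} (o : Fin (n + 1)) (ho : (o : ℕ) = 1) (h0 : 0 < κ 0)
    (h1 : 2 ≤ κ o) :
    (cprod (fun c => (Polynomial.X + Polynomial.C (c : ℝ) : Polynomial ℝ)) κ).coeff 1 = 0 := by
  classical
  have hne : (0 : Fin (n + 1)) ≠ o := by
    intro h
    rw [← h] at ho
    simp at ho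
  have hd : (Polynomial.X : Polynomial ℝ) ^ 2 ∣ cprod (fun c => (Polynomial.X + Polynomial.C (c : ℝ) : Polynomial ℝ)) κ := by
    unfold cprod
    refine dvd_trans ?_ (Finset.prod_dvd_prod_of_subset ({0, o} : Finset (Fin (n + 1))) Finset.univ _ (Finset.subset_univ _))
    rw [Finset.prod_pair hne, pow_two]
    refine mul_dvd_mul ?_ ?_
    · refine dvd_trans (dvd_of_eq ?_) (Finset.dvd_prod_of_mem _ (Finset.mem_range.2 h0))
      simp
    · refine dvd_trans (dvd_of_eq ?_) (Finset.dvd_prod_of_mem _ (Finset.mem_range.2 (show 1 < κ o by omega)))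
      rw [ho]
      simp
  exact (Polynomial.X_pow_dvd_iff.1 hd) 1 (by norm_num)

private theorem coeff_hook86 {n a b : ℕ} (hb : b ≤ n) {κ : Fin (n + 1) → ℕ} (h0 : κ 0 = a + 1)
    (h1 : ∀ i : Fin n, κ i.succ = if (i : ℕ) < b then 1 else 0) :
    (cprod (fun c => (Polynomial.X + Polynomial.C (c : ℝ) : Polynomial ℝ)) κ).coeff 1 =
      (-1) ^ b * b.factorial * a.factorial := by
  classical
  unfold cprod
  rw [Fin.prod_univ_succ, h0, Finset.prod_range_succ']
  beta_reduce
  have hX : (Polynomial.X + Polynomial.C (((((0 : ℕ) : ℤ) - (((0 : Fin (n + 1)) : ℕ) : ℤ) : ℤ)) : ℝ) : Polynomial ℝ) =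
      Polynomial.X := by simp
  rw [hX, mul_right_comm, Polynomial.coeff_mul_X, Polynomial.coeff_zero_eq_eval_zero, Polynomial.eval_mul,
    Polynomial.eval_prod, Polynomial.eval_prod]
  simp only [Polynomial.eval_prod, Polynomial.eval_add, Polynomial.eval_X, Polynomial.eval_C, zero_add]
  have h2 : ∏ x ∈ Finset.range a, (((((x + 1 : ℕ) : ℤ) - (((0 : Fin (n + 1)) : ℕ) : ℤ) : ℤ)) : ℝ) = (a.factorial : ℝ) := by
    rw [← pos_fact86]
    refine Finset.prod_congr rfl fun x _ => ?_
    push_cast
    simp
  have h3 : ∏ i : Fin n, ∏ x ∈ Finset.range (κ i.succ), (((((x : ℕ) : ℤ) - ((i.succ : ℕ) : ℤ) : ℤ)) : ℝ) =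
      (-1) ^ b * (b.factorial : ℝ) := by
    have h4 : ∀ i : Fin n, ∏ x ∈ Finset.range (κ i.succ), (((((x : ℕ) : ℤ) - ((i.succ : ℕ) : ℤ) : ℤ)) : ℝ) =
        if (i : ℕ) < b then -(((i : ℕ) : ℝ) + 1) else 1 := by
      intro i
      rw [h1]
      split_ifs with h5
      · rw [Finset.prod_range_one, Fin.val_succ]
        push_cast
        ring
      · rw [Finset.prod_range_zero]
    rw [Finset.prod_congr rfl fun i _ => h4 i,
      Fin.prod_univ_eq_prod_range (fun i => if i < b then -((i : ℝ) + 1) else 1) n, ← Finset.prod_filter]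
    have h6 : (Finset.range n).filter (fun i => i < b) = Finset.range b := by
      ext i
      rw [Finset.mem_filter, Finset.mem_range, Finset.mem_range]
      omega
    rw [h6, neg_fact86]
  rw [h2, h3]
  ring

private theorem fro_main86 {n k : ℕ} (hk : 2 ≤ k) (hn : k ≤ n + 1) {κ : Fin (n + 1) → ℕ} (h : κ ∈ PP (n + 1) k) :
    Fro k κ = k * (cprod (fun c => (Polynomial.X + Polynomial.C (c : ℝ) : Polynomial ℝ)) κ).coeff 1 := by
  obtain ⟨hanti, hsum⟩ := mem_PP.1 h
  have h0 : 0 < κ 0 := by
    by_contra hcon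
    have h1 : ∀ i, κ i = 0 := fun i => by
      have := hanti (Fin.zero_le i)
      omega
    rw [Finset.sum_congr rfl (fun i _ => h1 i)] at hsum
    simp at hsum
    omega
  obtain ⟨o, ho⟩ : ∃ o : Fin (n + 1), (o : ℕ) = 1 := ⟨⟨1, by omega⟩, rfl⟩
  by_cases h2 : 2 ≤ κ o
  · rw [coeff_two86 o ho h0 h2, mul_zero, fro_first86 h h0]
    refine term_zero86 h 0 o ?_ ?_
    · intro h3
      rw [h3] at ho
      simp at ho
    · unfold bd
      rw [ho]
      omega
  · have h1 : ∀ i : Fin n, κ i.succ ≤ 1 := by
      intro i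
      have h3 : κ i.succ ≤ κ o := hanti (by
        rw [Fin.le_def, ho, Fin.val_succ]
        omega)
      omega
    obtain ⟨b, hb, hkb, hb1⟩ := hook86 h h1
    obtain ⟨a, ha⟩ : ∃ a, κ 0 = a + 1 := ⟨κ 0 - 1, by omega⟩
    obtain ⟨t, rfl⟩ : ∃ t, n = t + b := ⟨n - b, by omega⟩
    obtain rfl : k = a + b + 1 := by omega
    rw [fro_hook86 h ha hb1, coeff_hook86 hb ha hb1]

/-- The full cycle. -/
theorem char_full {N k : ℕ} (hN : k ≤ N) (hk : 2 ≤ k) {κ : Fin N → ℕ} (h : κ ∈ PP N k) (g : Perm (Fin k))
    (hg : g.IsCycle) (hs : g.support.card = k) :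
    (hw k κ).character g = ((Frz k (fun i => (bd κ i : ℤ)) : ℝ) : ℂ) := by
  obtain ⟨n, rfl⟩ : ∃ n, N = n + 1 := ⟨N - 1, by omega⟩
  have h1 := fro_main86 hk hN h
  have h2 := coeff86 hN hk h g hg hs
  have h3 := Frz_eq hN le_rfl h
  rw [Nat.descFactorial_self, h1, ← h2] at h3
  have h4 : (k : ℝ) * (((k - 1).factorial : ℝ) * rr (hw k κ) g) = k.factorial * rr (hw k κ) g := by
    have h5 := Nat.mul_factorial_pred (show k ≠ 0 by omega)
    rw [← mul_assoc]
    congr 1
    exact_mod_cast h5
  rw [h4] at h3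
  have h7 : (k.factorial : ℝ) ≠ 0 := by
    exact_mod_cast Nat.factorial_ne_zero k
  have h6 : Frz k (fun i => (bd κ i : ℤ)) = ff k κ * rr (hw k κ) g := by
    apply mul_left_cancel₀ h7
    rw [h3]
    ring
  rw [char_perm_real, h6]
  congr 1
  have h8 := ff_pos hN h
  unfold ff at h8
  unfold rr ff
  rw [mul_div_cancel₀ _ h8.ne']

end Pool.Agent.Helper70.TG
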