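import Pool.Agent.Helper70.TG.V5

/-!
BLOCK TG-V6 (about 150 lines). Frobenius' formula for one cycle.

Proof in words. `char_cycle`: induction on `n ≥ k`. `n = k`: `char_full`. Step `n → n + 1`: `κ ∈ PP N (n+1)`, `g ∈ S_{n+1}` a cycle of length `k ≤ n`. Take a cycle `g'` of length `k` in `S_n` (it exists: e.g. `List.formPerm`, or the conjugate: choose `x` with `g x = x`, conjugate `g` by `swap 0 x`, then it fixes `0` and is
`res1 n g'`; `jT_apply`). `g` and `res1 n g'` are conjugate (`Equiv.Perm.isConj_iff_cycleType_eq`, `Equiv.Perm.IsCycle.cycleType`), so the characters agree. `char_branch`, the induction, and `Frz_step` for `x = bd κ` (`∑ x = n + 1 + N(N-1)/2`, `n + 1 = (n - k) + 1 + k`): the terms `a` with `IsRem κ a` are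
`Frz k (bd (subE κ a))`, the other ones are `0` (`Frz_eq_zero` if `κ (a+1) = κ a`, `Frz_neg` if `a` is the last row and `κ a = 0`; see `ff_eq` in V2 for the same discussion).
`frobenius`: divide by `ff n κ > 0` (`Frz_eq`, `ff_pos`; `rr` is the real part of the character over the dimension).
-/

set_option autoImplicit false

open Module Equiv Pool.Agent.Helper1.TS Pool.Agent.Helper70.TU Pool.Agent.Helper51.TN Pool.Agent.Helper51.TF

namespace Pool.Agent.Helper70.TG

/-- a cycle of length `k` in `S_n` -/
private theorem exists_cycle21 {n k : ℕ} (hk : 2 ≤ k) (hkn : k ≤ n) :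
    ∃ g : Perm (Fin n), g.IsCycle ∧ g.support.card = k := by
  set l : List (Fin n) := List.ofFn (fun i : Fin k => Fin.castLE hkn i) with hl
  have hnd : l.Nodup := List.nodup_ofFn.2 (Fin.castLE_injective hkn)
  have hlen : l.length = k := by rw [hl, List.length_ofFn]
  refine ⟨l.formPerm, List.isCycle_formPerm hnd (by omega), ?_⟩
  rw [List.support_formPerm_of_nodup l hnd, List.toFinset_card_of_nodup hnd, hlen]
  intro x hx
  rw [hx, List.length_singleton] at hlen
  omega

/-- any two cycles of the same length are conjugate; here the second one comes from `S_n` -/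
private theorem char_res21 {N n k : ℕ} {κ : Fin N → ℕ} (g : Perm (Fin (n + 1))) (hg : g.IsCycle)
    (hs : g.support.card = k) (g' : Perm (Fin n)) (hg' : g'.IsCycle) (hs' : g'.support.card = k) :
    (hw (n + 1) κ).character g = (hw (n + 1) κ).character (res1 n g') := by
  have h1 : (res1 n g').cycleType = g'.cycleType := by
    unfold res1 jT
    rw [Perm.extendDomainHom_apply]
    exact Perm.cycleType_extendDomain (eT (Nat.le_add_left 1 n))
  have h2 : g.cycleType = (res1 n g').cycleType := by
    rw [h1, hg.cycleType, hg'.cycleType, hs, hs']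
  obtain ⟨c, hc⟩ := isConj_iff.1 (Perm.isConj_iff_cycleType_eq.2 h2)
  rw [← hc, Representation.char_conj]

private theorem sum_bd21 {N m : ℕ} {κ : Fin N → ℕ} (h : κ ∈ PP N m) :
    ∑ i, (bd κ i : ℤ) = m + (N : ℤ) * (N - 1) / 2 := by
  have h1 : ∑ i : Fin N, (N - 1 - (i : ℕ)) = N * (N - 1) / 2 := by
    rw [Fin.sum_univ_eq_sum_range (fun i => N - 1 - i) N,
      Finset.sum_range_reflect (fun i => i) N, Finset.sum_range_id]
  have h2 : ((N * (N - 1) / 2 : ℕ) : ℤ) = (N : ℤ) * (N - 1) / 2 := by
    rw [Int.natCast_div]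
    congr 1
    rcases N with _ | N
    · simp
    · push_cast
      simp
  have h3 : ∑ i, bd κ i = m + N * (N - 1) / 2 := by
    unfold bd
    rw [Finset.sum_add_distrib, h1, (mem_PP.1 h).2]
  rw [← h2, ← Nat.cast_sum, h3, Nat.cast_add]

private theorem Frz_rem21 {N m k : ℕ} {κ : Fin N → ℕ} (h : κ ∈ PP N (m + 1)) (a : Fin N)
    (ha : ¬ IsRem κ a) :
    Frz k (Function.update (fun i => (bd κ i : ℤ)) a ((bd κ a : ℤ) - 1)) = 0 := by
  rw [isRem_iff h] at ha
  have hanti := (mem_PP.1 h).1
  have ha2 := a.2
  by_cases hl : (a : ℕ) + 1 < N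
  · -- the next row has the same length
    have hb : κ ⟨(a : ℕ) + 1, hl⟩ = κ a := by
      have h1 : κ ⟨(a : ℕ) + 1, hl⟩ ≤ κ a := hanti (by rw [Fin.le_def]; simp)
      by_contra hne
      refine ha ⟨by omega, fun b hb => ?_⟩
      have h2 : b = ⟨(a : ℕ) + 1, hl⟩ := Fin.ext hb
      rw [h2]
      omega
    have hne : a ≠ ⟨(a : ℕ) + 1, hl⟩ := by
      intro h1
      have := congrArg Fin.val h1
      simp at this
    refine Frz_eq_zero k _ hne ?_
    rw [Function.update_self, Function.update_of_ne hne.symm]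
    unfold bd
    rw [hb]
    simp only
    omega
  · have h0 : κ a = 0 := by
      by_contra hne
      refine ha ⟨by omega, fun b hb => ?_⟩
      have := b.2
      omega
    refine Frz_neg k _ (b := a) ?_
    rw [Function.update_self]
    unfold bd
    rw [h0]
    omega

theorem char_cycle {N n k : ℕ} (hN : n ≤ N) (hk : 2 ≤ k) (hkn : k ≤ n) {κ : Fin N → ℕ} (h : κ ∈ PP N n)
    (g : Perm (Fin n)) (hg : g.IsCycle) (hs : g.support.card = k) :
    (hw n κ).character g = ((Frz k (fun i => (bd κ i : ℤ)) : ℝ) : ℂ) := by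
  classical
  induction n, hkn using Nat.le_induction generalizing κ with
  | base => exact char_full hN hk h g hg hs
  | succ n hkn ih =>
    obtain ⟨g', hg', hs'⟩ := exists_cycle21 hk hkn
    rw [char_res21 g hg hs g' hg' hs', char_branch hN h g']
    have h1 : ∑ i, (bd κ i : ℤ) = ((n - k : ℕ) : ℤ) + 1 + k + (N : ℤ) * (N - 1) / 2 := by
      rw [sum_bd21 h]
      push_cast [Nat.cast_sub hkn]
      ring
    rw [Frz_step k (fun i => (bd κ i : ℤ)) (n - k) h1, Complex.ofReal_sum, Finset.sum_filter]
    refine Finset.sum_congr rfl fun a _ => ?_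
    split_ifs with ha
    · rw [ih (by omega) (subE_mem h a ha) g' hg' hs']
      congr 2
      funext i
      by_cases hi : i = a
      · subst hi
        rw [Function.update_self]
        have h2 := ha.1
        unfold bd subE
        rw [if_pos rfl]
        omega
      · rw [Function.update_of_ne hi]
        unfold bd subE
        rw [if_neg hi, Nat.sub_zero]
    · rw [Frz_rem21 h a ha, Complex.ofReal_zero]

theorem frobenius {N n k : ℕ} (hN : n ≤ N) (hk : 2 ≤ k) (hkn : k ≤ n) {κ : Fin N → ℕ} (h : κ ∈ PP N n)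
    (g : Perm (Fin n)) (hg : g.IsCycle) (hs : g.support.card = k) :
    (n.descFactorial k : ℝ) * rr (hw n κ) g = Fro k κ := by
  have hpos := ff_pos hN h
  unfold rr
  rw [char_cycle hN hk hkn h g hg hs, Complex.ofReal_re]
  change (n.descFactorial k : ℝ) * (Frz k (fun i => (bd κ i : ℤ)) / ff n κ) = Fro k κ
  rw [← mul_div_assoc, Frz_eq hN hkn h, mul_div_assoc, mul_comm (ff n κ), div_mul_cancel₀ _ hpos.ne']

end Pool.Agent.Helper70.TG
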