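import Pool.Agent.Helper70.TG.Defs

/-!
BLOCK TG-W1 (about 180 lines). `GC` and `PC` in terms of the beads.

Proof in words.
* `row_prod`: for `v` not one of the integers in question, `∏_{b<k} (v - b)²/((v - b)² - 1) = v (v - (k-1)) / ((v + 1)(v - k))`: induction on `k` (`(v-b)² - 1 = (v-b-1)(v-b+1)`). With `v = z + i` this is the product over row `i`, `k = κ i`.
* `GC_bead`: `l = κ i - i`; row `i` gives `(z + i)/(z + i + 1) · (z - l + 1)/(z - l)` and `∏_{i<M} (z+i)/(z+i+1) = z/(z + M)` (`Finset.prod_range_div'`-like telescoping, `Fin.prod_univ_eq_prod_range`). `bd κ i = κ i + (M - 1 - i)`, so `z + M - bd κ i = z - l + 1`, `z + M - 1 - bd κ i = z - l`.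
  All the denominators are different from `0` by `hz` (the integers involved are between `-M - 1` and `n + 1` in absolute value at most `M + n + 1`).
* `PC_bead`: `GC_bead` at `z - j`, `j < k`, and for fixed `i` the product over `j` of `(z - j + M - 1 - bd κ i)/(z - j + M - bd κ i)` telescopes to `(z + M - k - bd κ i)/(z + M - bd κ i)` (`Finset.prod_range_div'` or induction on `k`).
-/

set_option autoImplicit false

open Module Equiv

namespace Pool.Agent.Helper70.TG

private theorem row38 (v : ℂ) (k : ℕ) (hv : ∀ j : ℤ, -1 ≤ j → j ≤ k → v ≠ (j : ℂ)) :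
    ∏ b ∈ Finset.range k, (v - b) ^ 2 / ((v - b) ^ 2 - 1) = v * (v - k + 1) / ((v + 1) * (v - k)) := by
  induction k with
  | zero =>
    have h0 : v ≠ 0 := by
      have := hv 0 (by norm_num) (by simp)
      simpa using this
    have h1 : v + 1 ≠ 0 := by
      intro h
      refine hv (-1) le_rfl (by simp) ?_
      push_cast
      linear_combination h
    rw [Finset.range_zero, Finset.prod_empty, Nat.cast_zero, sub_zero, mul_comm, div_self (mul_ne_zero h1 h0)]
  | succ k ih =>
    rw [Finset.prod_range_succ, ih (fun j h1 h2 => hv j h1 (by push_cast; omega))]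
    have e1 : v + 1 ≠ 0 := by
      intro h
      refine hv (-1) le_rfl (by push_cast; omega) ?_
      push_cast
      linear_combination h
    have e2 : v - k ≠ 0 := by
      intro h
      refine hv k (by omega) (by push_cast; omega) ?_
      push_cast
      linear_combination h
    have e3 : v - ((k : ℂ) + 1) ≠ 0 := by
      intro h
      refine hv (k + 1) (by omega) (by push_cast; omega) ?_
      push_cast
      linear_combination h
    have e4 : v - k + 1 ≠ 0 := by
      intro h
      refine hv (k - 1) (by omega) (by push_cast; omega) ?_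
      push_cast
      linear_combination h
    have e5 : (v - k) ^ 2 - 1 ≠ 0 := by
      have h5 : (v - k) ^ 2 - 1 = (v - k + 1) * (v - ((k : ℂ) + 1)) := by ring
      rw [h5]
      exact mul_ne_zero e4 e3
    push_cast
    rw [div_mul_div_comm, div_eq_div_iff (mul_ne_zero (mul_ne_zero e1 e2) e5) (mul_ne_zero e1 e3)]
    ring

private theorem tel38 (z : ℂ) (M : ℕ) (hz : ∀ j : ℕ, j ≤ M → z + j ≠ 0) :
    ∏ i : Fin M, (z + ((i : ℕ) : ℂ)) / (z + ((i : ℕ) : ℂ) + 1) = z / (z + M) := by
  rw [Fin.prod_univ_eq_prod_range (fun i : ℕ => (z + (i : ℂ)) / (z + (i : ℂ) + 1)) M]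
  induction M with
  | zero =>
    have h0 : z ≠ 0 := by simpa using hz 0 le_rfl
    rw [Finset.range_zero, Finset.prod_empty, Nat.cast_zero, add_zero, div_self h0]
  | succ M ih =>
    rw [Finset.prod_range_succ, ih fun j hj => hz j (by omega)]
    have h1 := hz M (by omega)
    have h2 := hz (M + 1) le_rfl
    push_cast at h2 ⊢
    have h3 : z + (M : ℂ) + 1 ≠ 0 := by rwa [add_assoc]
    rw [div_mul_div_comm, div_eq_div_iff (mul_ne_zero h1 h3) h2]
    ring

private theorem tel38' (w : ℂ) (k : ℕ) (hw : ∀ j : ℕ, j < k → w - j ≠ 0) :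
    ∏ j ∈ Finset.range k, (w - j - 1) / (w - j) = if k = 0 then 1 else (w - k) / w := by
  induction k with
  | zero => simp
  | succ k ih =>
    rw [Finset.prod_range_succ, ih fun j hj => hw j (by omega), if_neg (Nat.succ_ne_zero k)]
    have h0 : w ≠ 0 := by simpa using hw 0 (by omega)
    have h1 := hw k (by omega)
    by_cases hk : k = 0
    · subst hk
      simp
    · rw [if_neg hk]
      push_cast
      rw [div_mul_div_comm, div_eq_div_iff (mul_ne_zero h0 h1) h0]
      ring

theorem GC_bead {M n : ℕ} (κ : Fin M → ℕ) (hκ : ∀ i, κ i ≤ n) (z : ℂ)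
    (hz : ∀ j : ℤ, |j| ≤ M + n + 1 → z ≠ (j : ℂ)) :
    GC κ z = (z + M)⁻¹ * ∏ i : Fin M, (z + M - bd κ i) / (z + M - 1 - bd κ i) := by
  have hz' : ∀ j : ℤ, |j| ≤ M + n + 1 → z - (j : ℂ) ≠ 0 := fun j hj => sub_ne_zero.2 (hz j hj)
  have h1 : ∀ i : Fin M, ∏ b ∈ Finset.range (κ i), ((z - (((b : ℤ) - ((i : ℕ) : ℤ) : ℤ) : ℂ)) ^ 2 / ((z - (((b : ℤ) - ((i : ℕ) : ℤ) : ℤ) : ℂ)) ^ 2 - 1)) =
      (z + ((i : ℕ) : ℂ)) / (z + ((i : ℕ) : ℂ) + 1) * ((z + M - bd κ i) / (z + M - 1 - bd κ i)) := by
    intro i
    have hi := i.2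
    have hκi := hκ i
    have h2 := row38 (z + ((i : ℕ) : ℂ)) (κ i) (by
      intro j hj1 hj2 h
      refine hz (j - i) ?_ ?_
      · rw [abs_le]
        constructor <;> omega
      · push_cast
        linear_combination h)
    have h3 : ∀ b : ℕ, z - (((b : ℤ) - ((i : ℕ) : ℤ) : ℤ) : ℂ) = z + ((i : ℕ) : ℂ) - b := by
      intro b
      push_cast
      ring
    simp only [h3]
    rw [h2]
    have h4 : ((bd κ i : ℕ) : ℂ) = κ i + (M - 1 - ((i : ℕ) : ℂ)) := by
      unfold bd
      rw [Nat.cast_add, Nat.cast_sub (by omega), Nat.cast_sub (by omega)]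
      push_cast
      ring
    rw [h4, div_mul_div_comm]
    congr 1 <;> ring
  unfold GC cprod
  rw [Finset.prod_congr rfl fun i _ => h1 i, Finset.prod_mul_distrib, tel38 z M ?_, ← mul_assoc]
  · congr 1
    have h0 : z ≠ 0 := by
      have := hz 0 (by simp; positivity)
      simpa using this
    rw [mul_div_assoc', inv_mul_cancel₀ h0, one_div]
  · intro j hj h
    refine hz (-j) ?_ ?_
    · rw [abs_neg, Nat.abs_cast]
      omega
    · push_cast
      linear_combination h

theorem PC_bead {M n k : ℕ} (κ : Fin M → ℕ) (hκ : ∀ i, κ i ≤ n) (z : ℂ)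
    (hz : ∀ j : ℤ, |j| ≤ M + n + k + 1 → z ≠ (j : ℂ)) :
    PC k κ z = (∏ j ∈ Finset.range k, (z + M - j)) * ∏ i : Fin M, (z + M - k - bd κ i) / (z + M - bd κ i) := by
  unfold PC
  have h1 : ∀ j ∈ Finset.range k, (GC κ (z - (j : ℂ)))⁻¹ = (z + M - j) * ∏ i : Fin M, (z + M - bd κ i - j - 1) / (z + M - bd κ i - j) := by
    intro j hj
    rw [Finset.mem_range] at hj
    rw [GC_bead κ hκ (z - (j : ℂ)) ?_]
    · rw [mul_inv, inv_inv, ← Finset.prod_inv_distrib]
      congr 1
      · ring
      · refine Finset.prod_congr rfl fun i _ => ?_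
        rw [inv_div]
        congr 1 <;> ring
    · intro m hm h
      refine hz (m + j) ?_ ?_
      · rw [abs_le] at hm ⊢
        constructor <;> omega
      · push_cast
        linear_combination h
  rw [Finset.prod_congr rfl h1, Finset.prod_mul_distrib, Finset.prod_comm]
  congr 1
  refine Finset.prod_congr rfl fun i _ => ?_
  have hb : bd κ i ≤ M + n := by
    unfold bd
    have := hκ i
    omega
  have hne : ∀ j : ℕ, j ≤ k → z + M - bd κ i - j ≠ 0 := by
    intro j hj h
    refine hz (bd κ i + j - M) ?_ ?_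
    · rw [abs_le]
      constructor <;> omega
    · push_cast
      linear_combination h
  rw [tel38' _ k fun j hj => hne j hj.le]
  split_ifs with hk
  · subst hk
    have := hne 0 le_rfl
    rw [Nat.cast_zero, sub_zero] at this
    rw [Nat.cast_zero, sub_zero, div_self this]
  · congr 1
    ring

end Pool.Agent.Helper70.TG
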