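import Pool.Agent.Helper70.TG.W10
import Pool.Agent.Helper70.TG.V6

/-!
BLOCK TG-W11 (about 120 lines). The bound for the cycles.

Proof in words. Given `η > 0` take `ρ = exp (η/4)`, `ρ₂ = exp (η/2)`, `θ = (ρ + ρ⁻¹ - 2)/2 > 0`, so `2 + θ < ρ + ρ⁻¹`. `Fro_T` gives `|Fro k κ| ≤ C' k (√n ρ₂)^k`, and `k ρ₂^k = k e^{ηk/2} ≤ (2/η) e^{ηk}` (`x ≤ e^x`). `frobenius` (V6) for `κ ∈ PP N n`, `n ≤ N`, `k ≤ n` because `k^5 ≤ n`.
-/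

set_option autoImplicit false

open Module Equiv Pool.Agent.Helper1.TS Pool.Agent.Helper51.TF

namespace Pool.Agent.Helper70.TG

theorem cyc_bound (η : ℝ) (hη : 0 < η) : ∃ ρ θ : ℝ, 1 < ρ ∧ 0 < θ ∧ 2 + θ < ρ + ρ⁻¹ ∧ ∀ C : ℝ, 0 < C →
    ∃ C' : ℝ, 0 < C' ∧ ∃ n₀ : ℕ, ∀ n ≥ n₀, ∀ N ≥ n, ∀ κ : Fin N → ℕ, κ ∈ PP N n →
      Sml κ ((2 + θ) * Real.sqrt n) → SC ρ (C / Real.sqrt n) (Real.sqrt n) κ →
        ∀ k : ℕ, 2 ≤ k → (k : ℝ) ^ 5 ≤ n → ∀ g : Perm (Fin n), g.IsCycle → g.support.card = k →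
          |(n.descFactorial k : ℝ) * rr (hw n κ) g| ≤ C' * Real.exp (η * k) * (Real.sqrt n) ^ k := by
  set ρ : ℝ := Real.exp (η / 4) with hρ
  set ρ₂ : ℝ := Real.exp (η / 2) with hρ₂
  have h1 : 1 < ρ := Real.one_lt_exp_iff.2 (by positivity)
  have h12 : ρ < ρ₂ := Real.exp_lt_exp.2 (by linarith)
  have h0 : 0 < ρ := by linarith
  have hpos : 0 < ρ + ρ⁻¹ - 2 := by
    have e : ρ + ρ⁻¹ - 2 = (ρ - 1) ^ 2 / ρ := by
      field_simp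
      ring
    rw [e]
    have : 0 < ρ - 1 := by linarith
    positivity
  have hθ : 0 < (ρ + ρ⁻¹ - 2) / 2 := by linarith
  have hθρ : 2 + (ρ + ρ⁻¹ - 2) / 2 < ρ + ρ⁻¹ := by linarith
  refine ⟨ρ, (ρ + ρ⁻¹ - 2) / 2, h1, hθ, hθρ, fun C hC => ?_⟩
  obtain ⟨C₀, hC₀, n₀, hF⟩ := Fro_T ρ ρ₂ ((ρ + ρ⁻¹ - 2) / 2) C h1 h12 hθ hθρ hC
  refine ⟨C₀ * (2 / η), by positivity, n₀, fun n hn N hN κ hκ hS hSC k hk hk5 g hg hgs => ?_⟩
  have hkn : k ≤ n := by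
    have h2 : (1 : ℝ) ≤ k := by exact_mod_cast (by omega : 1 ≤ k)
    have h3 : (k : ℝ) ≤ (k : ℝ) ^ 5 := le_self_pow₀ h2 (by norm_num)
    exact_mod_cast h3.trans hk5
  rw [frobenius hN hk hkn hκ g hg hgs]
  refine (hF n hn N κ hκ hS hSC k hk hk5).trans ?_
  have e1 : ρ₂ ^ k = Real.exp (η / 2 * k) := by
    rw [hρ₂, ← Real.exp_nat_mul]
    congr 1
    ring
  have e2 : Real.exp (η * k) = Real.exp (η / 2 * k) * Real.exp (η / 2 * k) := by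
    rw [← Real.exp_add]
    congr 1
    ring
  have h4 : (k : ℝ) ≤ 2 / η * Real.exp (η / 2 * k) := by
    have h5 : η / 2 * k ≤ Real.exp (η / 2 * k) := by
      have := Real.add_one_le_exp (η / 2 * k)
      linarith
    rw [div_mul_eq_mul_div, le_div_iff₀ hη]
    linarith
  rw [mul_pow, e1, e2]
  have h6 : 0 ≤ C₀ * (Real.sqrt n ^ k * Real.exp (η / 2 * k)) := by positivity
  calc C₀ * k * (Real.sqrt n ^ k * Real.exp (η / 2 * k))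
      = (C₀ * (Real.sqrt n ^ k * Real.exp (η / 2 * k))) * k := by ring
    _ ≤ (C₀ * (Real.sqrt n ^ k * Real.exp (η / 2 * k))) * (2 / η * Real.exp (η / 2 * k)) :=
        mul_le_mul_of_nonneg_left h4 h6
    _ = _ := by ring

end Pool.Agent.Helper70.TG
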