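import Pool.Agent.Helper70.TG.Defs

/-!
BLOCK TG-W2 (about 180 lines). Partial fractions.

Proof in words. `x i = bd κ i` are distinct (`κ` antitone). Let `A = ∏_{j<k} (X - j) ∏_i (X - k - x i)`, `B = ∏_i (X - x i)` (monic) in `ℂ[X]`, `A = B Q + R`, `deg R < deg B = M` (`Polynomial.modByMonic`, `EuclideanDomain` or `Polynomial.divByMonic`). `R (x i) = A (x i) = (x i).descFactorial k · (-k) · ∏_{j ≠ i} (x i - k - x j)`
(`∏_{j<k} (x i - j) = (x i).descFactorial k` as numbers, also if `x i < k` (both are `0`)). By Lagrange interpolation (`Lagrange.eq_interpolate_of_eval_eq` / `Lagrange.sum_basis`) `R = ∑_i R(x i) ∏_{j≠i} (X - x j)/(x i - x j)`, so for `y` different from all `x i`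
`A(y)/B(y) = Q(y) + ∑_i R(x i)/(∏_{j≠i} (x i - x j) (y - x i)) = Q(y) - k ∑_i ρ_i/(y - x i)`, `ρ_i = (x i).descFactorial k ∏_{j≠i} (x i - k - x j)/(x i - x j)`. (If you prefer: the identity with `B` cleared is an identity of polynomials; or do induction.)
-/

set_option autoImplicit false

open Module Equiv

namespace Pool.Agent.Helper70.TG

/-- The terms of Frobenius' sum. -/
noncomputable def fterm {M : ℕ} (k : ℕ) (κ : Fin M → ℕ) (i : Fin M) : ℝ :=
  ((bd κ i).descFactorial k : ℝ) *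
    ∏ j ∈ Finset.univ.erase i, ((bd κ i : ℝ) - k - bd κ j) / ((bd κ i : ℝ) - bd κ j)

theorem Fro_eq {M : ℕ} (k : ℕ) (κ : Fin M → ℕ) : Fro k κ = ∑ i, fterm k κ i := rfl

theorem bd_strictAnti {M : ℕ} (κ : Fin M → ℕ) (hκ : Antitone κ) : StrictAnti (bd κ) := by
  intro i j hij
  have h1 : κ j ≤ κ i := hκ hij.le
  have h2 : (i : ℕ) < j := hij
  have h3 := j.isLt
  unfold bd
  omega

open Polynomial in
private theorem pf_general92 {M : ℕ} (x : Fin M → ℂ) (hx : Function.Injective x) (A : Polynomial ℂ) :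
    ∃ Q : Polynomial ℂ, ∀ y : ℂ, (∀ i, y ≠ x i) →
      A.eval y / ∏ i : Fin M, (y - x i) =
        Q.eval y + ∑ i, (∏ j ∈ Finset.univ.erase i, (x i - x j)⁻¹) * (y - x i)⁻¹ * A.eval (x i) := by
  classical
  have hB : (Lagrange.nodal Finset.univ x).Monic := Lagrange.nodal_monic
  refine ⟨A /ₘ (Lagrange.nodal Finset.univ x), fun y hy => ?_⟩
  have h1 : A %ₘ (Lagrange.nodal Finset.univ x) + (Lagrange.nodal Finset.univ x) * (A /ₘ (Lagrange.nodal Finset.univ x)) = A :=
    modByMonic_add_div A _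
  have hdeg : (A %ₘ (Lagrange.nodal Finset.univ x)).degree < (Finset.univ : Finset (Fin M)).card := by
    have := degree_modByMonic_lt A hB
    rwa [Lagrange.degree_nodal] at this
  have hR : ∀ i ∈ (Finset.univ : Finset (Fin M)), (A %ₘ (Lagrange.nodal Finset.univ x)).eval (x i) = A.eval (x i) := by
    intro i hi
    conv_rhs => rw [← h1]
    rw [eval_add, eval_mul, Lagrange.eval_nodal_at_node hi, zero_mul, add_zero]
  have h2 := Lagrange.eq_interpolate_of_eval_eq (fun i => A.eval (x i)) (hx.injOn (s := ((Finset.univ : Finset (Fin M)) : Set (Fin M)))) hdeg hR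
  have h3 : (A %ₘ (Lagrange.nodal Finset.univ x)).eval y =
      (Lagrange.nodal Finset.univ x).eval y *
        ∑ i, (∏ j ∈ Finset.univ.erase i, (x i - x j)⁻¹) * (y - x i)⁻¹ * A.eval (x i) := by
    conv_lhs => rw [h2]
    rw [Lagrange.eval_interpolate_not_at_node _ (fun i _ => hy i)]
    rfl
  have h4 : (Lagrange.nodal Finset.univ x).eval y = ∏ i : Fin M, (y - x i) := by
    rw [Lagrange.eval_nodal]
  have h5 : ∏ i : Fin M, (y - x i) ≠ 0 := Finset.prod_ne_zero_iff.2 fun i _ => sub_ne_zero.2 (hy i)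
  have h6 : A.eval y = (∏ i : Fin M, (y - x i)) *
      ∑ i, (∏ j ∈ Finset.univ.erase i, (x i - x j)⁻¹) * (y - x i)⁻¹ * A.eval (x i) +
      (∏ i : Fin M, (y - x i)) * (A /ₘ (Lagrange.nodal Finset.univ x)).eval y := by
    conv_lhs => rw [← h1]
    rw [eval_add, eval_mul, h3, h4]
  rw [h6, ← mul_add, mul_div_cancel_left₀ _ h5, add_comm]

private theorem desc_cast92 (n k : ℕ) : ((n.descFactorial k : ℕ) : ℂ) = ∏ j ∈ Finset.range k, ((n : ℂ) - j) := by
  induction k with
  | zero => simp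
  | succ k ih =>
    rw [Finset.prod_range_succ, ← ih, Nat.descFactorial_succ]
    rcases Nat.lt_or_ge n k with h | h
    · rw [Nat.descFactorial_of_lt h]
      simp
    · push_cast [Nat.cast_sub h]
      ring

theorem partial_fractions {M : ℕ} (κ : Fin M → ℕ) (hκ : Antitone κ) (k : ℕ) :
    ∃ Q : Polynomial ℂ, ∀ y : ℂ, (∀ i, y ≠ (bd κ i : ℂ)) →
      (∏ j ∈ Finset.range k, (y - j)) * ∏ i : Fin M, (y - k - bd κ i) / (y - bd κ i) =
        Q.eval y - k * ∑ i, (fterm k κ i : ℂ) / (y - bd κ i) := by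
  classical
  have hinj : Function.Injective (fun i => (bd κ i : ℂ)) := fun i j h =>
    (bd_strictAnti κ hκ).injective (Nat.cast_injective h)
  obtain ⟨Q, hQ⟩ := pf_general92 (fun i => (bd κ i : ℂ)) hinj
    ((∏ j ∈ Finset.range k, (Polynomial.X - Polynomial.C (j : ℂ))) *
      ∏ i : Fin M, (Polynomial.X - Polynomial.C (k : ℂ) - Polynomial.C (bd κ i : ℂ)))
  refine ⟨Q, fun y hy => ?_⟩
  have h1 := hQ y hy
  have hev : ∀ z : ℂ, ((∏ j ∈ Finset.range k, (Polynomial.X - Polynomial.C (j : ℂ))) *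
      ∏ i : Fin M, (Polynomial.X - Polynomial.C (k : ℂ) - Polynomial.C (bd κ i : ℂ))).eval z =
      (∏ j ∈ Finset.range k, (z - j)) * ∏ i : Fin M, (z - k - bd κ i) := by
    intro z
    rw [Polynomial.eval_mul, Polynomial.eval_prod, Polynomial.eval_prod]
    simp
  rw [hev] at h1
  have h2 : (∏ j ∈ Finset.range k, (y - j)) * ∏ i : Fin M, (y - k - bd κ i) / (y - bd κ i) =
      (∏ j ∈ Finset.range k, (y - (j : ℂ))) * (∏ i : Fin M, (y - k - bd κ i)) / ∏ i : Fin M, (y - bd κ i) := by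
    rw [Finset.prod_div_distrib, mul_div_assoc]
  rw [h2, h1, sub_eq_add_neg (Q.eval y), Finset.mul_sum, ← Finset.sum_neg_distrib]
  congr 1
  refine Finset.sum_congr rfl fun i _ => ?_
  rw [hev, ← desc_cast92, ← Finset.mul_prod_erase Finset.univ (fun j => ((bd κ i : ℂ) - k - bd κ j)) (Finset.mem_univ i)]
  unfold fterm
  push_cast
  rw [Finset.prod_div_distrib]
  simp only [Finset.prod_inv_distrib]
  ring

end Pool.Agent.Helper70.TG
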