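import Mathlib

/-!
BLOCK TG-W3 (about 200 lines). The Joukowski map `w ↦ w + w⁻¹`.

Proof in words. `w ≠ 0`, `r = ‖w‖`.
* `jk_dist`: write `w = u + i v`, `r² = u² + v²`. `w + w⁻¹ = u (1 + r⁻²) + i v (1 - r⁻²)`. For real `ξ`, `R = r + r⁻¹ ≥ 2`, `x = u/r ∈ [-1, 1]`: `‖w + w⁻¹ - ξ‖² = R² x² - 2 ξ R x + ξ² + (r - r⁻¹)² (1 - x²) = R² - 4 + 4 x² - 2 ξ R x + ξ²`
  (as `(r - r⁻¹)² = R² - 4`). If `|ξ| ≤ 2`: claim `≥ (R - 2)²` when `R ≥ 2`: the difference is `4 x² - 8 - 2ξRx + ξ² + 4R = (ξ - R x)² + (4 - R²) x² - 8 + 4 R ≥ ...`; it is easier to factor: for the two roots `w₁, w₂` of `t² - ξ t + 1` (`w₁ w₂ = 1`) one has `w + w⁻¹ - ξ = (w - w₁)(w - w₂)/w` and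
  `‖w - w₁‖ ‖w - w₂‖ / ‖w‖ ≥ (r - ‖w₁‖)(r - ‖w₂‖)/r = r + r⁻¹ - (‖w₁‖ + ‖w₂‖)` if `r ≥ ‖w₁‖, ‖w₂‖`, and `‖w₁‖ + ‖w₂‖ = max 2 |ξ|` (complex conjugate roots on the unit circle if `|ξ| ≤ 2`, real roots of the same sign otherwise). If `r < max(‖w₁‖, ‖w₂‖)` the right side is negative (`1 ≤ r`; `r + r⁻¹` is increasing for `r ≥ 1`).
* `jk_im`: `(w + w⁻¹).im = w.im (1 - ‖w‖⁻²)`.
* `jk_inv`: a root `t` of `t² - ζ t + 1` (`IsAlgClosed` or `Complex.exists_root`/explicit square root `Complex.cpow`), the other one is `t⁻¹`; one of them has norm `≥ 1`.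
* `jk_foci`: `w + w⁻¹ - 2 = (w - 1)²/w`, `w + w⁻¹ + 2 = (w + 1)²/w`, and `‖w - 1‖² + ‖w + 1‖² = 2 ‖w‖² + 2` (parallelogram).
* `jk_near`: take `w'` from `jk_inv` for `ζ`. `2 (‖w'‖ + ‖w'‖⁻¹) = ‖ζ - 2‖ + ‖ζ + 2‖ ≥ 2 (ρ₂ + ρ₂⁻¹) - 2 δ ≥ 2 (ρ + ρ⁻¹)`, so `‖w'‖ ≥ ρ` (monotonicity of `r + r⁻¹` on `[1, ∞)`). `(w' - w)(1 - (w w')⁻¹) = ζ - (w + w⁻¹)` and `‖1 - (w w')⁻¹‖ ≥ 1 - (ρ ρ₂)⁻¹ ≥ 1 - ρ⁻¹`.
-/

set_option autoImplicit false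

open Complex

namespace Pool.Agent.Helper70.TG

private theorem foci50 (w : ℂ) (hw : w ≠ 0) : ‖w + w⁻¹ - 2‖ + ‖w + w⁻¹ + 2‖ = 2 * (‖w‖ + ‖w‖⁻¹) := by
  have h0 : 0 < ‖w‖ := norm_pos_iff.2 hw
  have e1 : w + w⁻¹ - 2 = (w - 1) * (w - 1) / w := by
    field_simp
    ring
  have e2 : w + w⁻¹ + 2 = (w + 1) * (w + 1) / w := by
    field_simp
    ring
  rw [e1, e2, norm_div, norm_div, norm_mul, norm_mul, ← add_div]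
  have h1 := parallelogram_law_with_norm ℂ w 1
  rw [norm_one] at h1
  have h2 : ‖w - 1‖ * ‖w - 1‖ + ‖w + 1‖ * ‖w + 1‖ = 2 * (‖w‖ * ‖w‖ + 1) := by linarith
  rw [h2]
  field_simp

private theorem sum50 (ξ : ℝ) : |2 - ξ| + |2 + ξ| = 2 * max 2 |ξ| := by
  rcases le_total 2 |ξ| with h | h
  · rw [max_eq_right h]
    rcases abs_cases ξ with ⟨h1, h2⟩ | ⟨h1, h2⟩
    · rw [h1] at h ⊢
      rw [abs_of_nonpos (by linarith), abs_of_nonneg (by linarith)]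
      ring
    · rw [h1] at h ⊢
      rw [abs_of_nonneg (by linarith), abs_of_nonpos (by linarith)]
      ring
  · rw [max_eq_left h]
    rw [abs_le] at h
    rw [abs_of_nonneg (by linarith), abs_of_nonneg (by linarith)]
    ring

theorem jk_dist (w : ℂ) (ξ : ℝ) (hw : 1 ≤ ‖w‖) : ‖w‖ + ‖w‖⁻¹ - max 2 |ξ| ≤ ‖w + w⁻¹ - ξ‖ := by
  have hw0 : w ≠ 0 := by
    rintro rfl
    rw [norm_zero] at hw
    linarith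
  have h1 := foci50 w hw0
  have h2 : ‖w + w⁻¹ - 2‖ ≤ ‖w + w⁻¹ - ξ‖ + |2 - ξ| := by
    have e : w + w⁻¹ - 2 = (w + w⁻¹ - ξ) - ((2 - ξ : ℝ) : ℂ) := by
      push_cast
      ring
    rw [e]
    refine (norm_sub_le _ _).trans ?_
    rw [Complex.norm_real, Real.norm_eq_abs]
  have h3 : ‖w + w⁻¹ + 2‖ ≤ ‖w + w⁻¹ - ξ‖ + |2 + ξ| := by
    have e : w + w⁻¹ + 2 = (w + w⁻¹ - ξ) + ((2 + ξ : ℝ) : ℂ) := by
      push_cast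
      ring
    rw [e]
    refine (norm_add_le _ _).trans ?_
    rw [Complex.norm_real, Real.norm_eq_abs]
  have h4 := sum50 ξ
  linarith

theorem jk_im (w : ℂ) (hw : 1 < ‖w‖) (h : w.im ≠ 0) : (w + w⁻¹).im ≠ 0 := by
  rw [Complex.add_im, Complex.inv_im, Complex.normSq_eq_norm_sq]
  have h1 : 1 < ‖w‖ ^ 2 := by nlinarith
  have h2 : w.im + -w.im / ‖w‖ ^ 2 = w.im * ((‖w‖ ^ 2 - 1) / ‖w‖ ^ 2) := by
    have : ‖w‖ ^ 2 ≠ 0 := by positivity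
    field_simp
    ring
  rw [h2]
  exact mul_ne_zero h (div_pos (by linarith) (by positivity)).ne'

theorem jk_inv (ζ : ℂ) : ∃ w : ℂ, 1 ≤ ‖w‖ ∧ w + w⁻¹ = ζ := by
  obtain ⟨s, hs⟩ := IsAlgClosed.exists_pow_nat_eq (ζ ^ 2 - 4) (n := 2) (by norm_num)
  have ht : ((ζ + s) / 2) * ((ζ - s) / 2) = 1 := by
    linear_combination (-1 / 4) * hs
  have h0 : (ζ + s) / 2 ≠ 0 := left_ne_zero_of_mul_eq_one ht
  have hi : ((ζ + s) / 2)⁻¹ = (ζ - s) / 2 := by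
    rw [inv_eq_iff_eq_inv]
    exact eq_inv_of_mul_eq_one_left ht
  have hsum : (ζ + s) / 2 + ((ζ + s) / 2)⁻¹ = ζ := by
    rw [hi]
    ring
  rcases le_total 1 ‖(ζ + s) / 2‖ with h | h
  · exact ⟨_, h, hsum⟩
  · refine ⟨((ζ + s) / 2)⁻¹, ?_, ?_⟩
    · rw [norm_inv]
      exact (one_le_inv₀ (norm_pos_iff.2 h0)).2 h
    · rw [inv_inv, add_comm]
      exact hsum

theorem jk_foci (w : ℂ) (hw : w ≠ 0) : ‖w + w⁻¹ - 2‖ + ‖w + w⁻¹ + 2‖ = 2 * (‖w‖ + ‖w‖⁻¹) :=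
  foci50 w hw

theorem jk_mono (a b : ℝ) (ha : 1 ≤ a) (hb : 1 ≤ b) (h : a + a⁻¹ ≤ b + b⁻¹) : a ≤ b := by
  by_contra hc
  push Not at hc
  have ha0 : 0 < a := by linarith
  have hb0 : 0 < b := by linarith
  have h1 : 1 < a * b := by nlinarith
  have h2 : a + a⁻¹ - (b + b⁻¹) = (a - b) * (a * b - 1) / (a * b) := by
    field_simp
    ring
  have h3 : 0 < (a - b) * (a * b - 1) / (a * b) := div_pos (mul_pos (by linarith) (by linarith)) (by positivity)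
  linarith

theorem jk_near (ρ ρ₂ δ : ℝ) (hρ : 1 < ρ) (hρ₂ : ρ < ρ₂) (hδ : ρ + ρ⁻¹ + δ ≤ ρ₂ + ρ₂⁻¹) (w ζ : ℂ) (hw : ‖w‖ = ρ₂)
    (hζ : ‖ζ - (w + w⁻¹)‖ ≤ δ) :
    ∃ w' : ℂ, ρ ≤ ‖w'‖ ∧ w' + w'⁻¹ = ζ ∧ ‖w' - w‖ ≤ ‖ζ - (w + w⁻¹)‖ / (1 - ρ⁻¹) := by
  obtain ⟨w', h1, h2⟩ := jk_inv ζ
  have hρ0 : 0 < ρ := by linarith
  have hw0 : w ≠ 0 := by
    rintro rfl
    rw [norm_zero] at hw
    linarith
  have hw'0 : w' ≠ 0 := by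
    rintro rfl
    rw [norm_zero] at h1
    linarith
  have f1 := foci50 w hw0
  have f2 := foci50 w' hw'0
  rw [h2] at f2
  rw [hw] at f1
  have t1 : ‖w + w⁻¹ - 2‖ ≤ ‖ζ - 2‖ + ‖ζ - (w + w⁻¹)‖ := by
    have e : w + w⁻¹ - 2 = (ζ - 2) - (ζ - (w + w⁻¹)) := by ring
    rw [e]
    exact norm_sub_le _ _
  have t2 : ‖w + w⁻¹ + 2‖ ≤ ‖ζ + 2‖ + ‖ζ - (w + w⁻¹)‖ := by
    have e : w + w⁻¹ + 2 = (ζ + 2) - (ζ - (w + w⁻¹)) := by ring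
    rw [e]
    exact norm_sub_le _ _
  have h3 : ρ ≤ ‖w'‖ := jk_mono ρ ‖w'‖ hρ.le h1 (by linarith)
  refine ⟨w', h3, h2, ?_⟩
  have h4 : (w' - w) * (1 - (w * w')⁻¹) = ζ - (w + w⁻¹) := by
    rw [← h2]
    field_simp
    ring
  have hρi : 0 < 1 - ρ⁻¹ := by
    have := inv_lt_one_of_one_lt₀ hρ
    linarith
  rw [le_div_iff₀ hρi, ← h4, norm_mul]
  refine mul_le_mul_of_nonneg_left ?_ (norm_nonneg _)
  have h5 : ‖(1 : ℂ)‖ - ‖(w * w')⁻¹‖ ≤ ‖1 - (w * w')⁻¹‖ := norm_sub_norm_le _ _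
  rw [norm_one, norm_inv, norm_mul, hw] at h5
  have h6 : (ρ₂ * ‖w'‖)⁻¹ ≤ ρ⁻¹ := by
    refine inv_anti₀ hρ0 ?_
    nlinarith
  linarith

end Pool.Agent.Helper70.TG
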