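import Pool.Agent.Helper70.TG.W3

/-!
BLOCK TG-W4 (about 180 lines). Integrals over `‖w‖ = R` of functions of `z = T (w + w⁻¹)`.

Proof in words. `z'(w) = T (1 - w⁻²)`.
* `int_poly`: the integrand is the derivative of `w ↦ P(T (w + w⁻¹))`, `P' = Q` (`P` an antiderivative polynomial; e.g. linearity and `Q = X^j`, `P = X^(j+1)/(j+1)`), on the circle (`w ≠ 0`): `circleIntegral.integral_eq_zero_of_hasDerivWithinAt`.
* `int_inv`: `T (w + w⁻¹) - a = T (w - w₁)(w - w₂)/w`, `w₁ w₂ = 1`, `w₁ + w₂ = a/T`, `‖w₁‖, ‖w₂‖ < R` (by `jk_dist`: if `‖w_1‖ ≥ R` then `0 = ‖w₁ + w₁⁻¹ - a/T‖ ≥ ‖w₁‖ + ‖w₁‖⁻¹ - max 2 |a/T| ≥ R + R⁻¹ - max 2 |a/T| > 0`; `w₁` from `jk_inv`). The integrand is `(1 - w⁻²) w/((w - w₁)(w - w₂)) = (w - w⁻¹)/((w-w₁)(w-w₂)) = 1/(w - w₁) + 1/(w - w₂) - 1/w`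
  (check: `(2w - w₁ - w₂) w - (w - w₁)(w - w₂) = w² - 1`), and each of the three integrals of `1/(w - p)` is `2 π i` (`circleIntegral.integral_sub_inv_of_mem_ball`).
* `int_pow`: `∮ w^k (1 - w⁻²) dw = 0` for `k ≥ 2` (and `k = 0`): `w^k - w^(k-2)` is a polynomial (`circleIntegral.integral_sub_zpow_of_ne` or an antiderivative).
-/

set_option autoImplicit false

open Complex Real

namespace Pool.Agent.Helper70.TG

private theorem exists_anti_h12 (Q : Polynomial ℂ) : ∃ P : Polynomial ℂ, Polynomial.derivative P = Q := by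
  induction Q using Polynomial.induction_on' with
  | add p q hp hq =>
    obtain ⟨P, hP⟩ := hp
    obtain ⟨P', hP'⟩ := hq
    exact ⟨P + P', by rw [Polynomial.derivative_add, hP, hP']⟩
  | monomial n c =>
    refine ⟨Polynomial.monomial (n + 1) (c / ((n : ℂ) + 1)), ?_⟩
    have h : ((n : ℂ) + 1) ≠ 0 := by exact_mod_cast Nat.succ_ne_zero n
    rw [Polynomial.derivative_monomial, Nat.add_sub_cancel]
    congr 1
    push_cast
    field_simp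

private theorem ne_zero_h12 {R : ℝ} (hR : 0 < R) {w : ℂ} (hw : w ∈ Metric.sphere (0 : ℂ) R) :
    w ≠ 0 := by
  rintro rfl
  simp at hw
  exact hR.ne hw

theorem int_poly (Q : Polynomial ℂ) (T R : ℝ) (hR : 1 < R) (b : ℂ) :
    (∮ w in C(0, R), Q.eval (T * (w + w⁻¹) + b) * (T * (1 - (w ^ 2)⁻¹))) = 0 := by
  obtain ⟨P, hP⟩ := exists_anti_h12 Q
  refine circleIntegral.integral_eq_zero_of_hasDerivWithinAt (by linarith)
    (f := fun w => P.eval (T * (w + w⁻¹) + b)) fun w hw => HasDerivAt.hasDerivWithinAt ?_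
  have hw0 := ne_zero_h12 (by linarith) hw
  have h1 : HasDerivAt (fun w : ℂ => (T : ℂ) * (w + w⁻¹) + b) (T * (1 + -(w ^ 2)⁻¹)) w :=
    (((hasDerivAt_id w).add (hasDerivAt_inv hw0)).const_mul (T : ℂ)).add_const b
  have h2 := (P.hasDerivAt (T * (w + w⁻¹) + b)).comp w h1
  rw [hP] at h2
  exact h2

theorem int_inv (T R a : ℝ) (hT : 0 < T) (hR : 1 < R) (ha : |a| < T * (R + R⁻¹)) :
    (∮ w in C(0, R), (T * (w + w⁻¹) - a)⁻¹ * (T * (1 - (w ^ 2)⁻¹))) = 2 * π * I := by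
  have hR0 : 0 < R := by linarith
  obtain ⟨w₁, hw₁, he⟩ := jk_inv ((a / T : ℝ) : ℂ)
  have hw0 : w₁ ≠ 0 := by
    rintro rfl
    simp at hw₁
    linarith
  have hT0 : (T : ℂ) ≠ 0 := by exact_mod_cast hT.ne'
  have h1 := jk_dist w₁ (a / T) hw₁
  rw [he, sub_self, norm_zero] at h1
  have h2 : 2 < R + R⁻¹ := by
    have h3 : R * R⁻¹ = 1 := mul_inv_cancel₀ hR0.ne'
    have h4 : R⁻¹ < 1 := inv_lt_one_of_one_lt₀ hR
    nlinarith
  have h3 : |a / T| < R + R⁻¹ := by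
    rw [abs_div, abs_of_pos hT, div_lt_iff₀ hT, mul_comm]
    exact ha
  have h4 : ‖w₁‖ + ‖w₁‖⁻¹ < R + R⁻¹ := by
    have := max_lt h2 h3
    linarith
  have h5 : ‖w₁‖ < R := by
    refine lt_of_le_of_ne (jk_mono _ _ hw₁ hR.le h4.le) fun h => ?_
    rw [h] at h4
    exact lt_irrefl _ h4
  have h6 : ‖w₁⁻¹‖ < R := by
    rw [norm_inv]
    exact (inv_le_one_of_one_le₀ hw₁).trans_lt hR
  have key : ∀ p : ℂ, ‖p‖ < R → CircleIntegrable (fun w => (w - p)⁻¹) 0 R ∧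
      (∮ w in C(0, R), (w - p)⁻¹) = 2 * π * I := by
    intro p hp
    refine ⟨circleIntegrable_sub_inv_iff.2 (Or.inr fun h => ?_),
      circleIntegral.integral_sub_inv_of_mem_ball (by simpa using hp)⟩
    rw [mem_sphere_zero_iff_norm, abs_of_pos hR0] at h
    exact hp.ne h
  have k1 := key w₁ h5
  have k2 := key w₁⁻¹ h6
  have k3 := key 0 (by simpa using hR0)
  have e : (∮ w in C(0, R), (T * (w + w⁻¹) - a)⁻¹ * (T * (1 - (w ^ 2)⁻¹))) =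
      ∮ w in C(0, R), ((w - w₁)⁻¹ + (w - w₁⁻¹)⁻¹) - (w - 0)⁻¹ := by
    refine circleIntegral.integral_congr hR0.le fun w hw => ?_
    have hw1 := ne_zero_h12 hR0 hw
    rw [mem_sphere_zero_iff_norm] at hw
    have n1 : w - w₁ ≠ 0 := fun h => by
      rw [sub_eq_zero.1 h] at hw
      exact h5.ne hw
    have n2 : w - w₁⁻¹ ≠ 0 := fun h => by
      rw [sub_eq_zero.1 h] at hw
      exact h6.ne hw
    have ea : (a : ℂ) = T * (w₁ + w₁⁻¹) := by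
      rw [he]
      push_cast
      field_simp
    have e1 : (T : ℂ) * (w + w⁻¹) - a = T * ((w - w₁) * (w - w₁⁻¹) * w⁻¹) := by
      rw [ea]
      field_simp
      ring
    have e2 : ((w - w₁) * (w - w₁⁻¹)) * ((w - w₁)⁻¹ + (w - w₁⁻¹)⁻¹ - w⁻¹) = w - w⁻¹ := by
      have e3 : ((w - w₁) * (w - w₁⁻¹)) * ((w - w₁)⁻¹ + (w - w₁⁻¹)⁻¹ - w⁻¹) =
          (w - w₁⁻¹) * ((w - w₁) * (w - w₁)⁻¹) + (w - w₁) * ((w - w₁⁻¹) * (w - w₁⁻¹)⁻¹) -
            (w - w₁) * (w - w₁⁻¹) * w⁻¹ := by ring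
      rw [e3, mul_inv_cancel₀ n1, mul_inv_cancel₀ n2]
      have e4 : w * w⁻¹ = 1 := mul_inv_cancel₀ hw1
      have e5 : w₁ * w₁⁻¹ = 1 := mul_inv_cancel₀ hw0
      linear_combination (-w + w₁ + w₁⁻¹) * e4 - w⁻¹ * e5
    show (T * (w + w⁻¹) - a)⁻¹ * (T * (1 - (w ^ 2)⁻¹)) = (w - w₁)⁻¹ + (w - w₁⁻¹)⁻¹ - (w - 0)⁻¹
    rw [e1, sub_zero]
    have n3 : T * ((w - w₁) * (w - w₁⁻¹) * w⁻¹) ≠ 0 :=
      mul_ne_zero hT0 (mul_ne_zero (mul_ne_zero n1 n2) (inv_ne_zero hw1))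
    rw [inv_mul_eq_iff_eq_mul₀ n3]
    have e6 : T * ((w - w₁) * (w - w₁⁻¹) * w⁻¹) * ((w - w₁)⁻¹ + (w - w₁⁻¹)⁻¹ - w⁻¹) =
        T * w⁻¹ * (((w - w₁) * (w - w₁⁻¹)) * ((w - w₁)⁻¹ + (w - w₁⁻¹)⁻¹ - w⁻¹)) := by ring
    rw [e6, e2]
    field_simp
  have k12 : CircleIntegrable (fun w => (w - w₁)⁻¹ + (w - w₁⁻¹)⁻¹) 0 R := k1.1.add k2.1
  rw [e, circleIntegral.integral_sub k12 k3.1, circleIntegral.integral_add k1.1 k2.1,
    k1.2, k2.2, k3.2]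
  ring

theorem int_pow (k : ℕ) (hk : 2 ≤ k) (R : ℝ) (hR : 0 < R) :
    (∮ w in C(0, R), w ^ k * (1 - (w ^ 2)⁻¹)) = 0 := by
  obtain ⟨m, rfl⟩ := Nat.exists_eq_add_of_le' hk
  refine circleIntegral.integral_eq_zero_of_hasDerivWithinAt hR.le
    (f := fun w => w ^ (m + 3) / ((m : ℂ) + 3) - w ^ (m + 1) / ((m : ℂ) + 1))
    fun w hw => HasDerivAt.hasDerivWithinAt ?_
  have hw0 := ne_zero_h12 hR hw
  have h3 : ((m : ℂ) + 3) ≠ 0 := by exact_mod_cast (Nat.succ_ne_zero (m + 2))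
  have h1 : ((m : ℂ) + 1) ≠ 0 := by exact_mod_cast (Nat.succ_ne_zero m)
  have d := ((hasDerivAt_pow (m + 3) w).div_const ((m : ℂ) + 3)).sub
    ((hasDerivAt_pow (m + 1) w).div_const ((m : ℂ) + 1))
  refine d.congr_deriv ?_
  have e1 : m + 3 - 1 = m + 2 := rfl
  have e2 : m + 1 - 1 = m := rfl
  rw [e1, e2]
  push_cast
  have e3 : ((m : ℂ) + 3) * w ^ (m + 2) / ((m : ℂ) + 3) = w ^ (m + 2) := by
    rw [mul_comm, mul_div_assoc, div_self h3, mul_one]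
  have e4 : ((m : ℂ) + 1) * w ^ m / ((m : ℂ) + 1) = w ^ m := by
    rw [mul_comm, mul_div_assoc, div_self h1, mul_one]
  have e5 : w ^ (m + 2) * (w ^ 2)⁻¹ = w ^ m := by
    rw [pow_add, mul_assoc, mul_inv_cancel₀ (pow_ne_zero 2 hw0), mul_one]
  rw [e3, e4, mul_sub, mul_one, e5]

end Pool.Agent.Helper70.TG
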