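import Pool.Agent.Helper70.TG.W1
import Pool.Agent.Helper70.TG.W2
import Pool.Agent.Helper70.TG.W4

/-!
BLOCK TG-W5 (about 200 lines). The contour integral of `P_k`.

Proof in words. All contents `c` of `κ` satisfy `|c| ≤ B - 1` (`Sml κ B`: content `b - i`, `b + 1 ≤ κ i ≤ B`, `i + 1 ≤ B`).
* `PC_diff`: for `z = T (w + w⁻¹)`, `‖w‖ ≥ ρ`: every real `x` with `|x| ≤ B + k` is different from `z` (`jk_dist` with `ξ = x/T`: `‖z - x‖ ≥ T (‖w‖ + ‖w‖⁻¹ - max 2 (|x|/T)) > 0`, `jk` monotonicity `‖w‖ + ‖w‖⁻¹ ≥ ρ + ρ⁻¹`). `(GC κ (z - j))⁻¹ = (z - j) ∏_c ((z-j-c)² - 1)/(z-j-c)²`, a product of functions which are differentiable at `w`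
  because `z - j - c ≠ 0`. So `w ↦ PC k κ (T (w + w⁻¹)) * (T (1 - w⁻²))` is differentiable at every `w` with `‖w‖ ≥ ρ`.
* `PC_integral`: let `R > ρ` be so large that `T (R - R⁻¹) > M + n + k + 2`; hmm, `‖z‖ ≥ T (‖w‖ - ‖w‖⁻¹)`. The integrals over `‖w‖ = ρ` and `‖w‖ = R` are equal (`Complex.circleIntegral_eq_of_differentiable_on_annulus_off_countable` with the empty or finite countable set). On `‖w‖ = R` the number `z` is not one of the integers `j` with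
  `|j| ≤ M + n + k + 1`, so by `PC_bead` and `partial_fractions` with `y = z + M` (`y ≠ bd κ i`, `bd κ i ≤ M + n`) `PC = Q(z + M) - k ∑_i fterm/(z - (bd κ i - M))`, and `int_poly`, `int_inv` (`|bd κ i - M| ≤ M + n < T (R + R⁻¹)`) give `- k ∑ fterm · 2 π i`.
-/

set_option autoImplicit false

open Complex Real Pool.Agent.Helper51.TF

namespace Pool.Agent.Helper70.TG

private theorem ne53 (T ρ : ℝ) (hT : 0 < T) (hρ : 1 < ρ) (x : ℝ) (hx : |x| < T * (ρ + ρ⁻¹))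
    (w : ℂ) (hw : ρ ≤ ‖w‖) : (T : ℂ) * (w + w⁻¹) ≠ (x : ℂ) := by
  intro h
  have hρ0 : 0 < ρ := by linarith
  have h1 := jk_dist w (x / T) (hρ.le.trans hw)
  have h2 : w + w⁻¹ - ((x / T : ℝ) : ℂ) = 0 := by
    have hT' : (T : ℂ) ≠ 0 := by exact_mod_cast hT.ne'
    rw [Complex.ofReal_div, sub_eq_zero, eq_div_iff hT', mul_comm]
    exact h
  rw [h2, norm_zero] at h1
  have h3 : ρ + ρ⁻¹ ≤ ‖w‖ + ‖w‖⁻¹ := by
    by_contra hlt
    have hlt' := not_le.1 hlt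
    have h4 := jk_mono ‖w‖ ρ (hρ.le.trans hw) hρ.le hlt'.le
    have h5 : ‖w‖ = ρ := le_antisymm h4 hw
    rw [h5] at hlt'
    exact lt_irrefl _ hlt'
  have h4 : 2 < ρ + ρ⁻¹ := by
    by_contra hlt
    have hlt' := not_lt.1 hlt
    have h5 : ρ * ρ⁻¹ = 1 := mul_inv_cancel₀ hρ0.ne'
    nlinarith [mul_le_mul_of_nonneg_left hlt' hρ0.le]
  have h5 : |x / T| < ρ + ρ⁻¹ := by
    rw [abs_div, abs_of_pos hT, div_lt_iff₀ hT, mul_comm]
    exact hx
  have h6 := max_lt h4 h5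
  linarith

private theorem GCinv53 {M : ℕ} (κ : Fin M → ℕ) (z : ℂ) : (GC κ z)⁻¹ = z * ∏ i : Fin M,
    ∏ b ∈ Finset.range (κ i), ((z - ((((b : ℤ) - ((i : ℕ) : ℤ)) : ℤ) : ℂ)) ^ 2 - 1) /
      (z - ((((b : ℤ) - ((i : ℕ) : ℤ)) : ℤ) : ℂ)) ^ 2 := by
  unfold GC cprod
  rw [mul_inv, inv_inv, ← Finset.prod_inv_distrib]
  congr 1
  refine Finset.prod_congr rfl fun i _ => ?_
  rw [← Finset.prod_inv_distrib]
  refine Finset.prod_congr rfl fun b _ => ?_
  rw [inv_div]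

private theorem prod_diff53 {ι : Type*} (s : Finset ι) (f : ι → ℂ → ℂ) (w : ℂ)
    (h : ∀ i ∈ s, DifferentiableAt ℂ (f i) w) :
    DifferentiableAt ℂ (fun w => ∏ i ∈ s, f i w) w := by
  classical
  induction s using Finset.induction_on with
  | empty => simp
  | insert a s ha ih =>
    have h1 : (fun w => ∏ i ∈ insert a s, f i w) = fun w => f a w * ∏ i ∈ s, f i w := by
      funext w
      rw [Finset.prod_insert ha]
    rw [h1]
    exact (h a (Finset.mem_insert_self a s)).mul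
      (ih fun i hi => h i (Finset.mem_insert_of_mem hi))

private theorem PCdiff53 {M : ℕ} (κ : Fin M → ℕ) (k : ℕ) (T ρ B : ℝ) (hT : 0 < T)
    (hρ : 1 < ρ) (hB : Sml κ B) (hBk : B + k + 1 < T * (ρ + ρ⁻¹)) (w : ℂ) (hw : ρ ≤ ‖w‖) :
    DifferentiableAt ℂ (fun w : ℂ => PC k κ (T * (w + w⁻¹))) w := by
  have hw0 : w ≠ 0 := by
    intro h0
    rw [h0, norm_zero] at hw
    linarith
  have hφ : DifferentiableAt ℂ (fun w : ℂ => (T : ℂ) * (w + w⁻¹)) w :=
    (differentiableAt_id.add (differentiableAt_inv hw0)).const_mul _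
  unfold PC
  refine prod_diff53 _ _ w (fun j hj => ?_)
  rw [Finset.mem_range] at hj
  have hφj : DifferentiableAt ℂ (fun w : ℂ => (T : ℂ) * (w + w⁻¹) - (j : ℂ)) w :=
    hφ.sub (differentiableAt_const _)
  simp only [GCinv53]
  refine hφj.mul (prod_diff53 _ _ w (fun i _ => prod_diff53 _ _ w (fun b hb => ?_)))
  rw [Finset.mem_range] at hb
  have hd : DifferentiableAt ℂ (fun w : ℂ => (T : ℂ) * (w + w⁻¹) - (j : ℂ) -
      ((((b : ℤ) - ((i : ℕ) : ℤ)) : ℤ) : ℂ)) w := hφj.sub (differentiableAt_const _)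
  refine ((hd.pow 2).sub (differentiableAt_const _)).div (hd.pow 2) (pow_ne_zero 2 ?_)
  have hj' : ((j : ℕ) : ℝ) + 1 ≤ k := by exact_mod_cast hj
  have hj0 : (0 : ℝ) ≤ j := Nat.cast_nonneg _
  have hb' : ((b : ℕ) : ℝ) + 1 ≤ κ i := by exact_mod_cast hb
  have hb0 : (0 : ℝ) ≤ b := Nat.cast_nonneg _
  have hi0 : (0 : ℝ) ≤ ((i : ℕ) : ℝ) := Nat.cast_nonneg _
  obtain ⟨h1, h2⟩ := hB i
  have h3 := h2 (by omega)
  have h4 := ne53 T ρ hT hρ ((b : ℝ) - ((i : ℕ) : ℝ) + j) (by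
    refine lt_of_le_of_lt ?_ hBk
    rw [abs_le]
    constructor <;> linarith) w hw
  intro h5
  refine h4 ?_
  push_cast at h5 ⊢
  linear_combination h5

theorem PC_integral {M n : ℕ} (κ : Fin M → ℕ) (hκ : κ ∈ PP M n) (k : ℕ) (T ρ B : ℝ) (hT : 0 < T)
    (hρ : 1 < ρ) (hB : Sml κ B) (hBk : B + k + 1 < T * (ρ + ρ⁻¹)) :
    (∮ w in C(0, ρ), PC k κ (T * (w + w⁻¹)) * (T * (1 - (w ^ 2)⁻¹))) = -(2 * π * I * (k * Fro k κ : ℝ)) := by
  have hρ0 : 0 < ρ := by linarith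
  obtain ⟨hanti, hsum⟩ := mem_PP.1 hκ
  have hκn : ∀ i, κ i ≤ n := fun i => by
    have := Finset.single_le_sum (f := κ) (fun _ _ => Nat.zero_le _) (Finset.mem_univ i)
    omega
  set L : ℝ := (M : ℝ) + n + k + 2 with hL
  have hL0 : 0 < L := by positivity
  set R : ℝ := ρ + L / T with hR
  have hRρ : ρ ≤ R := by
    have : 0 < L / T := div_pos hL0 hT
    linarith
  have hR1 : 1 < R := lt_of_lt_of_le hρ hRρ
  have hR0 : 0 < R := by linarith
  have hRL : L < T * (R + R⁻¹) := by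
    have h1 : T * R = T * ρ + L := by
      rw [hR, mul_add, mul_div_cancel₀ _ hT.ne']
    have h2 : 0 < T * R⁻¹ := mul_pos hT (inv_pos.2 hR0)
    have h3 : 0 < T * ρ := mul_pos hT hρ0
    rw [mul_add]
    linarith
  have hne0 : ∀ w : ℂ, ρ ≤ ‖w‖ → w ≠ 0 := by
    intro w hw h0
    rw [h0, norm_zero] at hw
    linarith
  have hdiff : ∀ w : ℂ, ρ ≤ ‖w‖ → DifferentiableAt ℂ
      (fun w : ℂ => PC k κ (T * (w + w⁻¹)) * (T * (1 - (w ^ 2)⁻¹))) w := by
    intro w hw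
    refine (PCdiff53 κ k T ρ B hT hρ hB hBk w hw).mul ?_
    exact ((differentiableAt_const _).sub
      ((differentiableAt_id.pow 2).inv (pow_ne_zero 2 (hne0 w hw)))).const_mul _
  have hshift := Complex.circleIntegral_eq_of_differentiable_on_annulus_off_countable (c := 0) hρ0
    hRρ (f := fun w : ℂ => PC k κ (T * (w + w⁻¹)) * (T * (1 - (w ^ 2)⁻¹))) (s := ∅)
    Set.countable_empty
    (fun w hw => (hdiff w (by
      have := hw.2
      rw [Metric.mem_ball, dist_zero_right, not_lt] at this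
      exact this)).continuousAt.continuousWithinAt)
    (fun w hw => hdiff w (by
      have := hw.1.2
      rw [Metric.mem_closedBall, dist_zero_right, not_le] at this
      exact this.le))
  rw [← hshift]
  obtain ⟨Q, hQ⟩ := partial_fractions κ hanti k
  have hsph : ∀ w ∈ Metric.sphere (0 : ℂ) R, R ≤ ‖w‖ := by
    intro w hw
    rw [mem_sphere_zero_iff_norm] at hw
    exact hw.ge
  have hcont : ContinuousOn (fun w : ℂ => (T : ℂ) * (w + w⁻¹)) (Metric.sphere (0 : ℂ) R) := by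
    refine continuousOn_const.mul (continuousOn_id.add (continuousOn_id.inv₀ fun w hw => ?_))
    exact hne0 w (hRρ.trans (hsph w hw))
  have hcont2 : ContinuousOn (fun w : ℂ => (T : ℂ) * (1 - (w ^ 2)⁻¹)) (Metric.sphere (0 : ℂ) R) := by
    refine continuousOn_const.mul (continuousOn_const.sub
      ((continuousOn_id.pow 2).inv₀ fun w hw => ?_))
    exact pow_ne_zero 2 (hne0 w (hRρ.trans (hsph w hw)))
  have habs : ∀ i : Fin M, |(bd κ i : ℝ) - (M : ℝ)| < T * (R + R⁻¹) := by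
    intro i
    refine lt_of_le_of_lt ?_ hRL
    have h1 : bd κ i ≤ n + M := by
      have := hκn i
      unfold bd
      omega
    have h2 : (bd κ i : ℝ) ≤ n + M := by exact_mod_cast h1
    have h3 : (0 : ℝ) ≤ bd κ i := Nat.cast_nonneg _
    have h4 : (0 : ℝ) ≤ M := Nat.cast_nonneg _
    have h5 : (0 : ℝ) ≤ n := Nat.cast_nonneg _
    have h6 : (0 : ℝ) ≤ k := Nat.cast_nonneg _
    rw [abs_le]
    constructor <;> linarith
  have hnea : ∀ w ∈ Metric.sphere (0 : ℂ) R, ∀ i : Fin M,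
      (T : ℂ) * (w + w⁻¹) - (((bd κ i : ℝ) - (M : ℝ) : ℝ) : ℂ) ≠ 0 := by
    intro w hw i
    exact sub_ne_zero.2 (ne53 T R hT hR1 _ (habs i) w (hsph w hw))
  have heq : ∀ w ∈ Metric.sphere (0 : ℂ) R, PC k κ (T * (w + w⁻¹)) * (T * (1 - (w ^ 2)⁻¹)) =
      Q.eval (T * (w + w⁻¹) + (M : ℂ)) * (T * (1 - (w ^ 2)⁻¹)) -
        ∑ i : Fin M, ((k : ℂ) * (fterm k κ i : ℂ)) *
          ((T * (w + w⁻¹) - (((bd κ i : ℝ) - (M : ℝ) : ℝ) : ℂ))⁻¹ * (T * (1 - (w ^ 2)⁻¹))) := by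
    intro w hw
    have hz : ∀ j : ℤ, |j| ≤ M + n + k + 1 → (T : ℂ) * (w + w⁻¹) ≠ (j : ℂ) := by
      intro j hj
      have h1 : |(j : ℝ)| ≤ M + n + k + 1 := by exact_mod_cast hj
      have h2 := ne53 T R hT hR1 (j : ℝ) (by rw [hL] at hRL; linarith) w (hsph w hw)
      rwa [Complex.ofReal_intCast] at h2
    rw [PC_bead κ hκn _ hz]
    have hy : ∀ i, (T : ℂ) * (w + w⁻¹) + (M : ℂ) ≠ (bd κ i : ℂ) := by
      intro i h0
      refine hnea w hw i ?_
      rw [Complex.ofReal_sub, Complex.ofReal_natCast, Complex.ofReal_natCast]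
      linear_combination h0
    rw [hQ _ hy, sub_mul, Finset.mul_sum, Finset.sum_mul]
    congr 1
    refine Finset.sum_congr rfl fun i _ => ?_
    have e : (T : ℂ) * (w + w⁻¹) - (((bd κ i : ℝ) - (M : ℝ) : ℝ) : ℂ) =
        (T : ℂ) * (w + w⁻¹) + (M : ℂ) - (bd κ i : ℂ) := by
      rw [Complex.ofReal_sub, Complex.ofReal_natCast, Complex.ofReal_natCast]
      ring
    rw [e, div_eq_mul_inv]
    ring
  rw [circleIntegral.integral_congr hR0.le heq]
  have i1 : CircleIntegrable (fun w : ℂ => Q.eval (T * (w + w⁻¹) + (M : ℂ)) *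
      (T * (1 - (w ^ 2)⁻¹))) 0 R :=
    ((Q.continuous.comp_continuousOn (hcont.add continuousOn_const)).mul hcont2).circleIntegrable
      hR0.le
  have i2 : ∀ i : Fin M, CircleIntegrable (fun w : ℂ => ((k : ℂ) * (fterm k κ i : ℂ)) *
      ((T * (w + w⁻¹) - (((bd κ i : ℝ) - (M : ℝ) : ℝ) : ℂ))⁻¹ * (T * (1 - (w ^ 2)⁻¹)))) 0 R := by
    intro i
    refine (continuousOn_const.mul (((hcont.sub continuousOn_const).inv₀
      (fun w hw => hnea w hw i)).mul hcont2)).circleIntegrable hR0.le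
  have i3 : CircleIntegrable (fun w : ℂ => ∑ i : Fin M, ((k : ℂ) * (fterm k κ i : ℂ)) *
      ((T * (w + w⁻¹) - (((bd κ i : ℝ) - (M : ℝ) : ℝ) : ℂ))⁻¹ * (T * (1 - (w ^ 2)⁻¹)))) 0 R := by
    refine (continuousOn_finsetSum _ fun i _ => ?_).circleIntegrable hR0.le
    exact continuousOn_const.mul (((hcont.sub continuousOn_const).inv₀
      (fun w hw => hnea w hw i)).mul hcont2)
  rw [circleIntegral.integral_sub i1 i3, int_poly Q T R hR1 (M : ℂ),
    circleIntegral.integral_fun_sum (fun i _ => i2 i)]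
  have h5 : ∀ i ∈ (Finset.univ : Finset (Fin M)),
      (∮ w in C(0, R), ((k : ℂ) * (fterm k κ i : ℂ)) *
        ((T * (w + w⁻¹) - (((bd κ i : ℝ) - (M : ℝ) : ℝ) : ℂ))⁻¹ * (T * (1 - (w ^ 2)⁻¹)))) =
      ((k : ℂ) * (fterm k κ i : ℂ)) * (2 * π * I) := by
    intro i _
    rw [circleIntegral.integral_const_mul, int_inv T R _ hT hR1 (habs i)]
  rw [Finset.sum_congr rfl h5, ← Finset.sum_mul, ← Finset.mul_sum, Fro_eq]
  push_cast
  ring

theorem PC_continuous {M : ℕ} (κ : Fin M → ℕ) (k : ℕ) (T ρ B : ℝ) (hT : 0 < T)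
    (hρ : 1 < ρ) (hB : Sml κ B) (hBk : B + k + 1 < T * (ρ + ρ⁻¹)) :
    ContinuousOn (fun w : ℂ => PC k κ (T * (w + w⁻¹))) {w : ℂ | ρ ≤ ‖w‖} := by
  intro w hw
  exact (PCdiff53 κ k T ρ B hT hρ hB hBk w hw).continuousAt.continuousWithinAt

end Pool.Agent.Helper70.TG
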